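import Mathlib

/-!
NFB (MP_838612_al), Section 2: definitions of the combinatorial form `F0`.
`V = Fin n`; an edge is an ordered pair of vertices; no determinants are used
(`DD` is the determinant, by Ryser's formula mod 2).
-/

set_option autoImplicit false

open Finset

namespace Pool.NFB

/-- number of edges of `e` which contain the vertex `v` -/
def deg {V ι : Type} [DecidableEq V] [Fintype ι] (e : ι → V × V) (v : V) : ℕ :=
  (Finset.univ.filter fun i => (e i).1 = v ∨ (e i).2 = v).card

/-- every degree is positive, and the vertices of degree at least 2 are exactly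
`0, ..., s-1` -/
def Cond {n : ℕ} {ι : Type} [Fintype ι] (e : ι → Fin n × Fin n) (s : ℕ) : Prop :=
  ∀ v : Fin n, 1 ≤ deg e v ∧ (2 ≤ deg e v ↔ v.val < s)

instance {n : ℕ} {ι : Type} [Fintype ι] (e : ι → Fin n × Fin n) (s : ℕ) :
    Decidable (Cond e s) := by
  unfold Cond
  infer_instance

/-- the determinant of `delta_x, delta_y, Inc e_1, ..., Inc e_N` mod 2, written as a sum -/
def DD {n : ℕ} {ι : Type} [Fintype ι] (e : ι → Fin n × Fin n) (x y : Fin n) : ZMod 2 :=
  ∑ a : Fin n → ZMod 2, a x * a y * ∏ i, (a (e i).1 + a (e i).2)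

/-- the function `F0` of the proof; the pair `(x, y)` is `(s-1, s)` with
`1 <= s <= n - 4` -/
def F0 {n : ℕ} {ι : Type} [Fintype ι] (e : ι → Fin n × Fin n) : ZMod 2 :=
  ∑ x : Fin n, ∑ y : Fin n,
    if x.val + 1 = y.val ∧ y.val + 4 ≤ n ∧ Cond e y.val then DD e x y else 0

end Pool.NFB
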