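import Pool.Agent.NFB.F0
import Pool.Agent.NFB28.Cw

/-! Section 2 (Cw): replacing one edge of `F0`. -/

set_option autoImplicit false

namespace Pool.Agent.NFB

open Finset

variable {N : ℕ}

theorem sum_deg (e : Fin N → Fin (N + 2) × Fin (N + 2)) : ∑ v, deg e v = 2 * N := by
  unfold deg
  rw [Finset.sum_comm]
  have : ∀ i, (∑ v, ((if (e i).1 = v then 1 else 0) + (if (e i).2 = v then 1 else 0))) = 2 := by
    intro i
    rw [Finset.sum_add_distrib]
    simp
  simp only [this]
  simp [mul_comm]

/-- the condition with internal set `{v < k}` -/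
def CB (e : Fin N → Fin (N + 2) × Fin (N + 2)) (k : ℕ) : Prop :=
  ∀ v : Fin (N + 2), 1 ≤ deg e v ∧ (2 ≤ deg e v ↔ v.val < k)

instance (e : Fin N → Fin (N + 2) × Fin (N + 2)) (k : ℕ) : Decidable (CB e k) := by
  unfold CB
  infer_instance

theorem CB_bound (hN : 3 ≤ N) (e : Fin N → Fin (N + 2) × Fin (N + 2)) (k : ℕ)
    (hk : k ≤ N + 2) (h : CB e k) : 1 ≤ k ∧ k ≤ N - 2 := by
  have h1 := sum_deg e
  have h2 : ∑ v : Fin (N + 2), (1 + if v.val < k then 1 else 0) ≤ ∑ v, deg e v := by
    apply Finset.sum_le_sum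
    intro v _
    split_ifs with hv
    · exact (h v).2.2 hv
    · exact (h v).1
  have h3 : ∑ v : Fin (N + 2), (1 + if v.val < k then 1 else 0) = (N + 2) + k := by
    rw [Finset.sum_add_distrib]
    simp only [Finset.sum_const, Finset.card_univ, Fintype.card_fin, smul_eq_mul, mul_one]
    congr 1
    rw [Fin.sum_univ_eq_sum_range (fun v => if v < k then 1 else 0) (N + 2)]
    rw [Finset.sum_ite]
    simp only [Finset.sum_const, smul_eq_mul, mul_one, mul_zero, add_zero]
    rw [show (Finset.range (N + 2)).filter (fun v => v < k) = Finset.range k by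
      ext v
      simp only [Finset.mem_filter, Finset.mem_range]
      omega]
    simp
  have h4 : k ≤ N - 2 := by omega
  refine ⟨?_, h4⟩
  by_contra hk0
  have hk1 : k = 0 := by omega
  subst hk1
  have h5 : ∀ v, deg e v = 1 := by
    intro v
    have := h v
    have h6 : ¬ 2 ≤ deg e v := by
      rw [this.2]
      exact Nat.not_lt_zero _
    omega
  simp only [h5] at h1
  simp at h1
  omega

/-- restriction to the other edges -/
def oth (e : Fin N → Fin (N + 2) × Fin (N + 2)) (i : Fin N) :
    {l : Fin N // l ≠ i} → Fin (N + 2) × Fin (N + 2) := fun l => e l.1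

theorem prod_erase (i : Fin N) (f : Fin N → ZMod 2) :
    ∏ l ∈ (univ : Finset (Fin N)).erase i, f l = ∏ l : {l : Fin N // l ≠ i}, f l.1 := by
  rw [← Finset.prod_subtype ((univ : Finset (Fin N)).erase i) (p := fun l => l ≠ i)]
  intro x
  simp

theorem deg_oth (e : Fin N → Fin (N + 2) × Fin (N + 2)) (he : ∀ l, (e l).1 ≠ (e l).2)
    (i : Fin N) (v : Fin (N + 2)) :
    deg e v = NFB28.deg (oth e i) v + if (v = (e i).1 ∨ v = (e i).2) then 1 else 0 := by
  have h0 : ∀ l, ((if (e l).1 = v then 1 else 0) + (if (e l).2 = v then 1 else 0) : ℕ)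
      = if (e l).1 = v ∨ (e l).2 = v then 1 else 0 := by
    intro l
    have := he l
    by_cases h1 : (e l).1 = v
    · have h2 : (e l).2 ≠ v := fun h => this (h1.trans h.symm)
      simp [h1, h2]
    · simp [h1]
  unfold deg NFB28.deg
  simp only [h0]
  rw [← Finset.add_sum_erase univ _ (Finset.mem_univ i), add_comm]
  congr 1
  · rw [Finset.card_filter]
    rw [Finset.sum_subtype ((univ : Finset (Fin N)).erase i) (p := fun l => l ≠ i)
      (by intro x; simp) (fun l => if (e l).1 = v ∨ (e l).2 = v then 1 else 0)]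
    rfl
  · simp only [eq_comm]

theorem card_oth (i : Fin N) :
    Fintype.card {l : Fin N // l ≠ i} + 3 = Fintype.card (Fin (N + 2)) := by
  have h : 0 < N := Nat.lt_of_le_of_lt (Nat.zero_le _) i.2
  simp
  omega

/-- `D_x` -/
def DD (e : Fin N → Fin (N + 2) × Fin (N + 2)) (i : Fin N) (x : Fin (N + 2)) : ZMod 2 :=
  NFB28.Dx (oth e i) (e i).2 x (e i).1

theorem ryser_eq (e : Fin N → Fin (N + 2) × Fin (N + 2)) (i : Fin N) (s s' : Fin (N + 2)) :
    ryser e s s' = DD e i s + DD e i s' := by
  unfold DD
  rw [← NFB28.hyper (oth e i) (card_oth i) (e i).1 (e i).2 s s']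
  unfold ryser
  apply Finset.sum_congr rfl
  intro a _
  rw [← Finset.mul_prod_erase univ _ (Finset.mem_univ i), prod_erase]
  unfold oth
  ring

theorem cond_iff (e : Fin N → Fin (N + 2) × Fin (N + 2)) (he : ∀ l, (e l).1 ≠ (e l).2)
    (i : Fin N) (x : Fin (N + 2)) (hD : DD e i x ≠ 0) :
    ((if CB e x.val then 1 else 0) + (if CB e (x.val + 1) then 1 else 0) : ZMod 2)
      = if NFB28.Sx (oth e i) (e i).2 x (e i).1 = univ.filter (fun v => v ≤ x) then 1 else 0 := by
  obtain ⟨h1, h2, h3, h4⟩ := NFB28.Dx_ne (oth e i) (fun l => he l.1) (card_oth i) _ _ _ hD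
  have hdeg := deg_oth e he i
  set d' := NFB28.deg (oth e i) with hd'
  have hx : deg e x = d' x := by
    rw [hdeg x, if_neg (by tauto), add_zero]
  -- the set S_x in terms of deg
  have hS : ∀ v, v ∈ NFB28.Sx (oth e i) (e i).2 x (e i).1 ↔
      (if v = x then 1 ≤ deg e v else 2 ≤ deg e v) := by
    intro v
    unfold NFB28.Sx
    rw [Finset.mem_filter]
    simp only [Finset.mem_univ, true_and]
    rw [← hd']
    by_cases hvx : v = x
    · subst hvx
      rw [if_pos (by tauto), if_pos rfl, hx]
    · rw [if_neg hvx]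
      by_cases hvj : v = (e i).1 ∨ v = (e i).2
      · rw [if_pos (by tauto), hdeg v, if_pos hvj]
        omega
      · rw [if_neg (by tauto), hdeg v, if_neg hvj, add_zero]
  have hge : ∀ v, v ≠ x → 1 ≤ deg e v := by
    intro v hv
    rw [hdeg v]
    by_cases hvj : v = (e i).1 ∨ v = (e i).2
    · rw [if_pos hvj]
      omega
    · have := h4 v (by tauto) hv (by tauto)
      omega
  have hSS : NFB28.Sx (oth e i) (e i).2 x (e i).1 = univ.filter (fun v => v ≤ x) ↔
      (1 ≤ deg e x ∧ ∀ v, v ≠ x → (2 ≤ deg e v ↔ v.val < x.val)) := by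
    constructor
    · intro h
      constructor
      · have := (hS x).1 (by rw [h]; simp)
        rwa [if_pos rfl] at this
      · intro v hv
        have h5 := hS v
        rw [if_neg hv, h] at h5
        rw [← h5]
        simp only [Finset.mem_filter, Finset.mem_univ, true_and]
        rw [Fin.le_def]
        have : v.val ≠ x.val := fun h' => hv (Fin.ext h')
        omega
    · rintro ⟨h5, h6⟩
      ext v
      rw [hS v]
      simp only [Finset.mem_filter, Finset.mem_univ, true_and]
      by_cases hv : v = x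
      · subst hv
        simp [h5]
      · rw [if_neg hv, h6 v hv, Fin.le_def]
        have : v.val ≠ x.val := fun h' => hv (Fin.ext h')
        omega
  have hB : CB e x.val ↔ (deg e x = 1 ∧ ∀ v, v ≠ x → (2 ≤ deg e v ↔ v.val < x.val)) := by
    constructor
    · intro h
      refine ⟨?_, fun v _ => (h v).2⟩
      have := h x
      have h6 : ¬ 2 ≤ deg e x := by
        rw [this.2]
        exact lt_irrefl _
      omega
    · rintro ⟨h5, h6⟩ v
      by_cases hv : v = x
      · subst hv
        rw [h5]
        refine ⟨le_refl _, ?_⟩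
        constructor
        · intro h
          omega
        · intro h
          exact absurd h (lt_irrefl _)
      · exact ⟨hge v hv, h6 v hv⟩
  have hA : CB e (x.val + 1) ↔ (2 ≤ deg e x ∧ ∀ v, v ≠ x → (2 ≤ deg e v ↔ v.val < x.val)) := by
    constructor
    · intro h
      refine ⟨(h x).2.2 (Nat.lt_succ_self _), fun v hv => ?_⟩
      rw [(h v).2]
      have : v.val ≠ x.val := fun h' => hv (Fin.ext h')
      omega
    · rintro ⟨h5, h6⟩ v
      by_cases hv : v = x
      · subst hv
        refine ⟨by omega, ?_⟩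
        constructor
        · intro _
          exact Nat.lt_succ_self _
        · intro _
          exact h5
      · refine ⟨hge v hv, ?_⟩
        rw [h6 v hv]
        have : v.val ≠ x.val := fun h' => hv (Fin.ext h')
        omega
  by_cases hP : ∀ v, v ≠ x → (2 ≤ deg e v ↔ v.val < x.val)
  · simp only [hSS, hA, hB]
    rcases Nat.lt_trichotomy (deg e x) 1 with h | h | h
    · rw [if_neg (fun h' => by have := h'.1; omega), if_neg (fun h' => by have := h'.1; omega),
        if_neg (fun h' => by have := h'.1; omega), add_zero]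
    · rw [if_pos ⟨h, hP⟩, if_neg (fun h' => by have := h'.1; omega), if_pos ⟨by omega, hP⟩,
        add_zero]
    · rw [if_neg (fun h' => by have := h'.1; omega), if_pos ⟨by omega, hP⟩,
        if_pos ⟨by omega, hP⟩, zero_add]
  · have hA' : ¬ CB e (x.val + 1) := fun h => hP (hA.1 h).2
    have hB' : ¬ CB e x.val := fun h => hP (hB.1 h).2
    have hS' : ¬ (NFB28.Sx (oth e i) (e i).2 x (e i).1 = univ.filter (fun v => v ≤ x)) :=
      fun h => hP (hSS.1 h).2
    rw [if_neg hA', if_neg hB', if_neg hS', add_zero]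

theorem ofNat_val' (x : Fin (N + 2)) : Fin.ofNat (N + 2) x.val = x := by
  ext
  simp [Fin.ofNat, Nat.mod_eq_of_lt x.2]

theorem F0_sum (hN : 3 ≤ N) (e : Fin N → Fin (N + 2) × Fin (N + 2)) (i : Fin N) :
    F0 N e = ∑ x : Fin (N + 2),
      ((if CB e x.val then 1 else 0) + (if CB e (x.val + 1) then 1 else 0)) * DD e i x := by
  have h1 : (∑ x : Fin (N + 2), (if CB e x.val then (1 : ZMod 2) else 0) * DD e i x)
      = ∑ s ∈ Finset.Icc 1 (N - 2), (if CB e s then (1 : ZMod 2) else 0)
          * DD e i (Fin.ofNat (N + 2) s) := by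
    have : (∑ x : Fin (N + 2), (if CB e x.val then (1 : ZMod 2) else 0) * DD e i x)
        = ∑ x : Fin (N + 2), (fun k : ℕ => (if CB e k then (1 : ZMod 2) else 0)
          * DD e i (Fin.ofNat (N + 2) k)) x.val := by
      apply Finset.sum_congr rfl
      intro x _
      simp only [ofNat_val']
    rw [this, Fin.sum_univ_eq_sum_range (fun k : ℕ => (if CB e k then (1 : ZMod 2) else 0)
          * DD e i (Fin.ofNat (N + 2) k)) (N + 2)]
    symm
    apply Finset.sum_subset
    · intro s hs
      rw [Finset.mem_Icc] at hs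
      rw [Finset.mem_range]
      omega
    · intro s hs hs'
      rw [Finset.mem_range] at hs
      rw [if_neg, zero_mul]
      intro hc
      apply hs'
      rw [Finset.mem_Icc]
      exact CB_bound hN e s (by omega) hc
  have h2 : (∑ x : Fin (N + 2), (if CB e (x.val + 1) then (1 : ZMod 2) else 0) * DD e i x)
      = ∑ s ∈ Finset.Icc 1 (N - 2), (if CB e s then (1 : ZMod 2) else 0)
          * DD e i (Fin.ofNat (N + 2) (s - 1)) := by
    have : (∑ x : Fin (N + 2), (if CB e (x.val + 1) then (1 : ZMod 2) else 0) * DD e i x)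
        = ∑ x : Fin (N + 2), (fun k : ℕ => (if CB e (k + 1) then (1 : ZMod 2) else 0)
          * DD e i (Fin.ofNat (N + 2) ((k + 1) - 1))) x.val := by
      apply Finset.sum_congr rfl
      intro x _
      simp only [Nat.add_sub_cancel, ofNat_val']
    rw [this, Fin.sum_univ_eq_sum_range (fun k : ℕ => (if CB e (k + 1) then (1 : ZMod 2) else 0)
          * DD e i (Fin.ofNat (N + 2) ((k + 1) - 1))) (N + 2)]
    have h3 : (∑ k ∈ Finset.range (N + 2), (fun k : ℕ => (if CB e (k + 1) then (1 : ZMod 2) else 0)
          * DD e i (Fin.ofNat (N + 2) ((k + 1) - 1))) k)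
        = ∑ s ∈ Finset.Ico 1 (N + 3), (if CB e s then (1 : ZMod 2) else 0)
          * DD e i (Fin.ofNat (N + 2) (s - 1)) := by
      rw [Finset.sum_Ico_eq_sum_range]
      apply Finset.sum_congr
      · congr 1
      · intro k _
        simp only [add_comm 1 k]
    rw [h3]
    symm
    apply Finset.sum_subset
    · intro s hs
      rw [Finset.mem_Icc] at hs
      rw [Finset.mem_Ico]
      omega
    · intro s hs hs'
      rw [Finset.mem_Ico] at hs
      rw [if_neg, zero_mul]
      intro hc
      apply hs'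
      rw [Finset.mem_Icc]
      exact CB_bound hN e s (by omega) hc
  simp only [add_mul, Finset.sum_add_distrib]
  rw [h1, h2, ← Finset.sum_add_distrib]
  unfold F0
  apply Finset.sum_congr rfl
  intro s _
  rw [ryser_eq e i]
  by_cases hc : CB e s
  · rw [if_pos hc, if_pos (show ∀ v : Fin (N + 2), 1 ≤ deg e v ∧ (2 ≤ deg e v ↔ v.val < s) from hc)]
    ring
  · rw [if_neg hc, if_neg (show ¬ ∀ v : Fin (N + 2), 1 ≤ deg e v ∧ (2 ≤ deg e v ↔ v.val < s) from hc)]
    ring

/-- a loop kills `F0` -/
theorem F0_loop (e : Fin N → Fin (N + 2) × Fin (N + 2)) (l : Fin N) (h : (e l).1 = (e l).2) :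
    F0 N e = 0 := by
  unfold F0
  apply Finset.sum_eq_zero
  intro s _
  split_ifs
  · unfold ryser
    apply Finset.sum_eq_zero
    intro a _
    rw [Finset.prod_eq_zero (Finset.mem_univ l) (by rw [h]; exact CharTwo.add_self_eq_zero _),
      mul_zero]
  · rfl

/-- (Cw), all `x` -/
theorem F0_Cw_all (hN : 3 ≤ N) (e : Fin N → Fin (N + 2) × Fin (N + 2)) (i : Fin N)
    (hi : (e i).1 ≠ (e i).2) :
    F0 N e = ∑ x : Fin (N + 2),
      ∑ z ∈ (univ : Finset (Fin (N + 2) → ZMod 2)).filter (fun z => ∀ v, x < v → z v = 0),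
        ∑ a : Fin (N + 2) → ZMod 2, a (e i).2 * a x * a (e i).1 *
          ∏ l ∈ univ.erase i, (a (e l).1 * z (e l).2 + a (e l).2 * z (e l).1) := by
  by_cases he : ∀ l, (e l).1 ≠ (e l).2
  · rw [F0_sum hN e i]
    apply Finset.sum_congr rfl
    intro x _
    have hdc := NFB28.double_count (oth e i) (fun l => he l.1) (card_oth i)
      (univ.filter (fun v => v ≤ x)) (e i).2 x (e i).1
    have hR : (∑ z ∈ (univ : Finset (Fin (N + 2) → ZMod 2)).filter (fun z => ∀ v, x < v → z v = 0),
        ∑ a : Fin (N + 2) → ZMod 2, a (e i).2 * a x * a (e i).1 *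
          ∏ l ∈ univ.erase i, (a (e l).1 * z (e l).2 + a (e l).2 * z (e l).1))
        = (∑ z ∈ (univ : Finset (Fin (N + 2) → ZMod 2)).filter (fun z => ∀ v, x < v → z v = 0),
        ∑ a : Fin (N + 2) → ZMod 2, a (e i).2 * a x * a (e i).1 *
          ∏ l, (a (oth e i l).1 * z (oth e i l).2 + a (oth e i l).2 * z (oth e i l).1)) := by
      apply Finset.sum_congr rfl
      intro z _
      apply Finset.sum_congr rfl
      intro a _
      rw [prod_erase]
      rfl
    have hdc2 := Eq.trans (Finset.sum_congr (s₁ := (univ : Finset (Fin (N + 2) → ZMod 2)).filter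
      (fun z => ∀ v, x < v → z v = 0)) (by ext z; simp) (fun _ _ => rfl)) hdc
    rw [hR, hdc2]
    by_cases hD : DD e i x = 0
    · rw [hD, mul_zero]
      unfold DD at hD
      rw [hD]
      simp
    · rw [cond_iff e he i x hD]
      unfold DD
      split_ifs <;> simp
  · push Not at he
    obtain ⟨l, hl⟩ := he
    rw [F0_loop e l hl]
    symm
    have hli : l ≠ i := by
      rintro rfl
      exact hi hl
    apply Finset.sum_eq_zero
    intro x _
    apply Finset.sum_eq_zero
    intro z _
    apply Finset.sum_eq_zero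
    intro a _
    rw [Finset.prod_eq_zero (i := l), mul_zero]
    · rw [Finset.mem_erase]
      exact ⟨hli, Finset.mem_univ _⟩
    · rw [hl]
      exact CharTwo.add_self_eq_zero _

/-- (Cw) with the edge `i` replaced by `(j, w)` -/
theorem F0_Cw (hN : 3 ≤ N) (e : Fin N → Fin (N + 2) × Fin (N + 2)) (i : Fin N)
    (j w : Fin (N + 2)) (hjw : j ≠ w) :
    F0 N (Function.update e i (j, w)) = ∑ x : Fin (N + 2),
      ∑ z ∈ (univ : Finset (Fin (N + 2) → ZMod 2)).filter (fun z => ∀ v, x < v → z v = 0),
        ∑ a : Fin (N + 2) → ZMod 2, a w * a x * a j *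
          ∏ l ∈ univ.erase i, (a (e l).1 * z (e l).2 + a (e l).2 * z (e l).1) := by
  rw [F0_Cw_all hN (Function.update e i (j, w)) i (by simpa using hjw)]
  apply Finset.sum_congr rfl
  intro x _
  apply Finset.sum_congr rfl
  intro z _
  apply Finset.sum_congr rfl
  intro a _
  rw [Function.update_self]
  congr 1
  apply Finset.prod_congr rfl
  intro l hl
  rw [Function.update_of_ne (Finset.ne_of_mem_erase hl)]

/-- permuting the edges -/
theorem F0_symm (e : Fin N → Fin (N + 2) × Fin (N + 2)) (σ : Equiv.Perm (Fin N)) :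
    F0 N (e ∘ σ) = F0 N e := by
  have hd : ∀ v, deg (e ∘ σ) v = deg e v := by
    intro v
    unfold deg
    exact Equiv.sum_comp σ (fun i => ((if (e i).1 = v then 1 else 0)
      + (if (e i).2 = v then 1 else 0)))
  have hr : ∀ x y, ryser (e ∘ σ) x y = ryser e x y := by
    intro x y
    unfold ryser
    apply Finset.sum_congr rfl
    intro a _
    congr 1
    exact Equiv.prod_comp σ (fun i => (a (e i).1 + a (e i).2))
  unfold F0
  simp only [hd, hr]

/-- the orientation of the edges does not matter -/
theorem F0_orient (e e' : Fin N → Fin (N + 2) × Fin (N + 2))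
    (h : ∀ i, e' i = e i ∨ e' i = (e i).swap) : F0 N e' = F0 N e := by
  have hd : ∀ v, deg e' v = deg e v := by
    intro v
    unfold deg
    apply Finset.sum_congr rfl
    intro i _
    rcases h i with h | h
    · rw [h]
    · rw [h]
      simp only [Prod.fst_swap, Prod.snd_swap]
      exact add_comm _ _
  have hr : ∀ x y, ryser e' x y = ryser e x y := by
    intro x y
    unfold ryser
    apply Finset.sum_congr rfl
    intro a _
    congr 1
    apply Finset.prod_congr rfl
    intro i _
    rcases h i with h | h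
    · rw [h]
    · rw [h]
      simp only [Prod.fst_swap, Prod.snd_swap]
      exact add_comm _ _
  unfold F0
  simp only [hd, hr]

/-- a product of fewer than `card V` edges and marks sums to zero -/
theorem sum_edges_lt {V κ ι : Type} [Fintype V] [DecidableEq V] [Fintype κ] [DecidableEq κ]
    [Fintype ι] (e : κ → V × V) (x : ι → V)
    (hc : Fintype.card ι + Fintype.card κ < Fintype.card V) :
    (∑ a : V → ZMod 2, (∏ t, a (x t)) * ∏ k, (a (e k).1 + a (e k).2)) = 0 := by
  classical
  simp only [NFB28.expand1, Finset.mul_sum]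
  rw [Finset.sum_comm]
  apply Finset.sum_eq_zero
  intro φ _
  have h2 : ∀ a : V → ZMod 2, (∏ t, a (x t)) * ∏ k, a (NFB28.pc e φ k)
      = ∏ s, a ((Sum.elim x (NFB28.pc e φ) : ι ⊕ κ → V) s) := by
    intro a
    rw [Fintype.prod_sum_type]
    simp
  simp only [h2]
  rw [NFB28.sum_prod_eq, if_neg]
  intro hs
  have := Fintype.card_le_of_surjective _ hs
  simp at this
  omega

/-- a repeated edge kills `F0` -/
theorem F0_rep (e : Fin N → Fin (N + 2) × Fin (N + 2)) (i j : Fin N) (hij : i ≠ j)
    (h : e i = e j) : F0 N e = 0 := by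
  unfold F0
  apply Finset.sum_eq_zero
  intro s _
  split_ifs
  · unfold ryser
    have h1 : ∀ a : Fin (N + 2) → ZMod 2, ∀ x y, a x * a y * ∏ l, (a (e l).1 + a (e l).2)
        = (∏ t : Fin 2, a (![x, y] t)) * ∏ l : {l : Fin N // l ≠ i},
          (a (oth e i l).1 + a (oth e i l).2) := by
      intro a x y
      have h2 : (∏ l, (a (e l).1 + a (e l).2)) = ∏ l : {l : Fin N // l ≠ i},
          (a (oth e i l).1 + a (oth e i l).2) := by
        rw [← Finset.mul_prod_erase univ _ (Finset.mem_univ i)]
        rw [← Finset.mul_prod_erase (univ.erase i) _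
          (Finset.mem_erase.2 ⟨hij.symm, Finset.mem_univ j⟩), ← mul_assoc, h]
        have : (a (e j).1 + a (e j).2) * (a (e j).1 + a (e j).2) = (a (e j).1 + a (e j).2) := by
          generalize (a (e j).1 + a (e j).2) = t
          revert t
          decide
        rw [this, Finset.mul_prod_erase (univ.erase i) (fun l => (a (e l).1 + a (e l).2))
          (Finset.mem_erase.2 ⟨hij.symm, Finset.mem_univ j⟩), prod_erase]
        rfl
      rw [h2]
      simp
    simp only [h1]
    apply sum_edges_lt
    have h : 0 < N := Nat.lt_of_le_of_lt (Nat.zero_le _) i.2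
    simp
    omega
  · rfl

end Pool.Agent.NFB
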