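/-
Project NFB (MP_838612_al, S02124): the laws of an abelian-by-finite group need not be finitely based.
Definitions.  Paper proof: /team-store/838612_NFB_proof.md, combined with the criterion HBL/Crit.
-/
import Mathlib

set_option autoImplicit false

namespace Pool.Agent.NFB

/-! ### 1. Semidirect products `M ⋊ U`, `M` additive -/

/-- The semidirect product of an additive group `M` by a group `U` acting through `φ`. -/
@[ext] structure SD {M U : Type} [AddCommGroup M] [Group U] (φ : U →* AddMonoid.End M) where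
  m : M
  u : U

section SD

variable {M U : Type} [AddCommGroup M] [Group U] (φ : U →* AddMonoid.End M)

instance : One (SD φ) := ⟨⟨0, 1⟩⟩
instance : Mul (SD φ) := ⟨fun x y => ⟨x.m + φ x.u y.m, x.u * y.u⟩⟩
instance : Inv (SD φ) := ⟨fun x => ⟨-(φ x.u⁻¹ x.m), x.u⁻¹⟩⟩

@[simp] theorem SD.one_m : (1 : SD φ).m = 0 := rfl
@[simp] theorem SD.one_u : (1 : SD φ).u = 1 := rfl
@[simp] theorem SD.mul_m (x y : SD φ) : (x * y).m = x.m + φ x.u y.m := rfl
@[simp] theorem SD.mul_u (x y : SD φ) : (x * y).u = x.u * y.u := rfl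
@[simp] theorem SD.inv_m (x : SD φ) : (x⁻¹).m = -(φ x.u⁻¹ x.m) := rfl
@[simp] theorem SD.inv_u (x : SD φ) : (x⁻¹).u = x.u⁻¹ := rfl

instance : Group (SD φ) :=
  Group.ofLeftAxioms
    (by
      intro x y z
      ext1
      · simp [map_mul, add_assoc]
      · simp [mul_assoc])
    (by
      intro x
      ext1 <;> simp)
    (by
      intro x
      ext1
      · simp
      · simp)

/-- The projection onto the acting group. -/
def SD.proj : SD φ →* U where
  toFun x := x.u
  map_one' := rfl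
  map_mul' _ _ := rfl

end SD

/-- Functoriality of `SD`. -/
def SD.map {M U M' U' : Type} [AddCommGroup M] [Group U] [AddCommGroup M'] [Group U']
    (φ : U →* AddMonoid.End M) (φ' : U' →* AddMonoid.End M') (f : M →+ M') (g : U →* U')
    (h : ∀ u m, f (φ u m) = φ' (g u) (f m)) : SD φ →* SD φ' where
  toFun x := ⟨f x.m, g x.u⟩
  map_one' := by ext1 <;> simp
  map_mul' x y := by
    ext1
    · simp [h]
    · simp

/-! ### 2. The regular module `Z[Q]` -/

/-- The regular module `Z[Q]`, with `Q` acting by left translations. -/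
def RegM (Q : Type) : Type := Q →₀ ℤ

noncomputable instance (Q : Type) : AddCommGroup (RegM Q) := inferInstanceAs (AddCommGroup (Q →₀ ℤ))

noncomputable instance (Q : Type) [Group Q] : DistribMulAction Q (RegM Q) where
  smul q a := Finsupp.mapDomain (fun x => q * x) (a : Q →₀ ℤ)
  one_smul a := by
    change Finsupp.mapDomain (fun x => (1 : Q) * x) (a : Q →₀ ℤ) = a
    simp only [one_mul]
    exact Finsupp.mapDomain_id
  mul_smul p q a := by
    change Finsupp.mapDomain (fun x => (p * q) * x) (a : Q →₀ ℤ)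
      = Finsupp.mapDomain (fun x => p * x) (Finsupp.mapDomain (fun x => q * x) (a : Q →₀ ℤ))
    rw [← Finsupp.mapDomain_comp]
    congr 1
    funext y
    simp [mul_assoc]
  smul_zero _ := Finsupp.mapDomain_zero
  smul_add _ _ _ := Finsupp.mapDomain_add

theorem regM_smul {Q : Type} [Group Q] (q : Q) (a : RegM Q) :
    q • a = (Finsupp.mapDomain (fun x => q * x) (a : Q →₀ ℤ) : Q →₀ ℤ) := rfl

/-! ### 3. The rings -/

/-- Edges: pairs `(u, v)` with `u < v`. -/
abbrev Ed (n : ℕ) : Type := {p : Fin n × Fin n // p.1 < p.2}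

/-- The ring `F_2[u_1, ..., u_n]/(u_i^2, all cubic monomials)`. -/
@[ext] structure RR (n : ℕ) where
  a : ZMod 2
  b : Fin n → ZMod 2
  c : Ed n → ZMod 2

/-- The ring `F_2[ε_1, ε_2]/(ε_1^2, ε_2^2)`. -/
@[ext] structure EE where
  a : ZMod 2
  b1 : ZMod 2
  b2 : ZMod 2
  c : ZMod 2
deriving DecidableEq, Fintype

namespace RR

variable {n : ℕ}

instance : Zero (RR n) := ⟨⟨0, 0, 0⟩⟩
instance : One (RR n) := ⟨⟨1, 0, 0⟩⟩
instance : Add (RR n) := ⟨fun x y => ⟨x.a + y.a, x.b + y.b, x.c + y.c⟩⟩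
instance : Neg (RR n) := ⟨fun x => ⟨-x.a, -x.b, -x.c⟩⟩
instance : Mul (RR n) := ⟨fun x y => ⟨x.a * y.a, fun i => x.a * y.b i + x.b i * y.a,
  fun e => x.a * y.c e + x.c e * y.a + x.b e.1.1 * y.b e.1.2 + x.b e.1.2 * y.b e.1.1⟩⟩

@[simp] theorem zero_a : (0 : RR n).a = 0 := rfl
@[simp] theorem zero_b : (0 : RR n).b = 0 := rfl
@[simp] theorem zero_c : (0 : RR n).c = 0 := rfl
@[simp] theorem one_a : (1 : RR n).a = 1 := rfl
@[simp] theorem one_b : (1 : RR n).b = 0 := rfl
@[simp] theorem one_c : (1 : RR n).c = 0 := rfl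
@[simp] theorem add_a (x y : RR n) : (x + y).a = x.a + y.a := rfl
@[simp] theorem add_b (x y : RR n) : (x + y).b = x.b + y.b := rfl
@[simp] theorem add_c (x y : RR n) : (x + y).c = x.c + y.c := rfl
@[simp] theorem neg_a (x : RR n) : (-x).a = -x.a := rfl
@[simp] theorem neg_b (x : RR n) : (-x).b = -x.b := rfl
@[simp] theorem neg_c (x : RR n) : (-x).c = -x.c := rfl
@[simp] theorem mul_a (x y : RR n) : (x * y).a = x.a * y.a := rfl
@[simp] theorem mul_b (x y : RR n) (i : Fin n) : (x * y).b i = x.a * y.b i + x.b i * y.a := rfl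
@[simp] theorem mul_c (x y : RR n) (e : Ed n) : (x * y).c e
    = x.a * y.c e + x.c e * y.a + x.b e.1.1 * y.b e.1.2 + x.b e.1.2 * y.b e.1.1 := rfl

instance : CommRing (RR n) where
  add_assoc x y z := by ext <;> simp [add_assoc]
  zero_add x := by ext <;> simp
  add_zero x := by ext <;> simp
  add_comm x y := by ext <;> simp [add_comm]
  left_distrib x y z := by ext <;> simp <;> ring
  right_distrib x y z := by ext <;> simp <;> ring
  zero_mul x := by ext <;> simp
  mul_zero x := by ext <;> simp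
  mul_assoc x y z := by ext <;> simp <;> ring
  one_mul x := by ext <;> simp
  mul_one x := by ext <;> simp
  neg_add_cancel x := by ext <;> simp [CharTwo.add_self_eq_zero]
  mul_comm x y := by ext <;> simp <;> ring
  nsmul := nsmulRec
  zsmul := zsmulRec

end RR

namespace EE

instance : Zero EE := ⟨⟨0, 0, 0, 0⟩⟩
instance : One EE := ⟨⟨1, 0, 0, 0⟩⟩
instance : Add EE := ⟨fun x y => ⟨x.a + y.a, x.b1 + y.b1, x.b2 + y.b2, x.c + y.c⟩⟩
instance : Neg EE := ⟨fun x => ⟨-x.a, -x.b1, -x.b2, -x.c⟩⟩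
instance : Mul EE := ⟨fun x y => ⟨x.a * y.a, x.a * y.b1 + x.b1 * y.a, x.a * y.b2 + x.b2 * y.a,
  x.a * y.c + x.c * y.a + x.b1 * y.b2 + x.b2 * y.b1⟩⟩

@[simp] theorem zero_a : (0 : EE).a = 0 := rfl
@[simp] theorem zero_b1 : (0 : EE).b1 = 0 := rfl
@[simp] theorem zero_b2 : (0 : EE).b2 = 0 := rfl
@[simp] theorem zero_c : (0 : EE).c = 0 := rfl
@[simp] theorem one_a : (1 : EE).a = 1 := rfl
@[simp] theorem one_b1 : (1 : EE).b1 = 0 := rfl
@[simp] theorem one_b2 : (1 : EE).b2 = 0 := rfl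
@[simp] theorem one_c : (1 : EE).c = 0 := rfl
@[simp] theorem add_a (x y : EE) : (x + y).a = x.a + y.a := rfl
@[simp] theorem add_b1 (x y : EE) : (x + y).b1 = x.b1 + y.b1 := rfl
@[simp] theorem add_b2 (x y : EE) : (x + y).b2 = x.b2 + y.b2 := rfl
@[simp] theorem add_c (x y : EE) : (x + y).c = x.c + y.c := rfl
@[simp] theorem neg_a (x : EE) : (-x).a = -x.a := rfl
@[simp] theorem neg_b1 (x : EE) : (-x).b1 = -x.b1 := rfl
@[simp] theorem neg_b2 (x : EE) : (-x).b2 = -x.b2 := rfl
@[simp] theorem neg_c (x : EE) : (-x).c = -x.c := rfl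
@[simp] theorem mul_a (x y : EE) : (x * y).a = x.a * y.a := rfl
@[simp] theorem mul_b1 (x y : EE) : (x * y).b1 = x.a * y.b1 + x.b1 * y.a := rfl
@[simp] theorem mul_b2 (x y : EE) : (x * y).b2 = x.a * y.b2 + x.b2 * y.a := rfl
@[simp] theorem mul_c (x y : EE) : (x * y).c
    = x.a * y.c + x.c * y.a + x.b1 * y.b2 + x.b2 * y.b1 := rfl

instance : CommRing EE where
  add_assoc x y z := by ext <;> simp [add_assoc]
  zero_add x := by ext <;> simp
  add_zero x := by ext <;> simp
  add_comm x y := by ext <;> simp [add_comm]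
  left_distrib x y z := by ext <;> simp <;> ring
  right_distrib x y z := by ext <;> simp <;> ring
  zero_mul x := by ext <;> simp
  mul_zero x := by ext <;> simp
  mul_assoc x y z := by ext <;> simp <;> ring
  one_mul x := by ext <;> simp
  mul_one x := by ext <;> simp
  neg_add_cancel x := by ext <;> simp [CharTwo.add_self_eq_zero]
  mul_comm x y := by ext <;> simp <;> ring
  nsmul := nsmulRec
  zsmul := zsmulRec

end EE

/-- The bracket `[η, η'] = η_1 η'_2 + η_2 η'_1` on `F_2^2`. -/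
def br (x y : ZMod 2 × ZMod 2) : ZMod 2 := x.1 * y.2 + x.2 * y.1

theorem sum_pairs {n : ℕ} {A : Type} [AddCommMonoid A] (g : Fin n → Fin n → A) :
    ∑ u, ∑ v, g u v = ∑ u, g u u + ∑ e : Ed n, (g e.1.1 e.1.2 + g e.1.2 e.1.1) := by
  classical
  have h1 : ∑ e : Ed n, (g e.1.1 e.1.2 + g e.1.2 e.1.1)
      = ∑ p ∈ (Finset.univ : Finset (Fin n × Fin n)).filter (fun p => p.1 < p.2),
        (g p.1 p.2 + g p.2 p.1) := by
    rw [Finset.sum_subtype (p := fun p : Fin n × Fin n => p.1 < p.2) _ (by simp)]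
  rw [h1, ← Fintype.sum_prod_type', Finset.sum_add_distrib]
  have h2 : ∑ p ∈ (Finset.univ : Finset (Fin n × Fin n)).filter (fun p => p.1 < p.2), g p.2 p.1
      = ∑ p ∈ (Finset.univ : Finset (Fin n × Fin n)).filter (fun p => p.2 < p.1), g p.1 p.2 := by
    refine Finset.sum_nbij' (fun p => (p.2, p.1)) (fun p => (p.2, p.1)) ?_ ?_ ?_ ?_ ?_ <;> simp
  have h3 : ∑ u, g u u
      = ∑ p ∈ (Finset.univ : Finset (Fin n × Fin n)).filter (fun p => p.1 = p.2), g p.1 p.2 := by
    refine Finset.sum_bij' (fun u _ => (u, u)) (fun p _ => p.1) ?_ ?_ ?_ ?_ ?_ <;> simp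
  rw [h2, h3, Finset.sum_filter, Finset.sum_filter, Finset.sum_filter, ← Finset.sum_add_distrib,
    ← Finset.sum_add_distrib]
  refine Finset.sum_congr rfl fun p _ => ?_
  rcases lt_trichotomy p.1 p.2 with h | h | h
  · simp [h, h.ne, h.not_gt]
  · simp [h]
  · simp [h, h.ne', h.not_gt]

/-- The ring homomorphism `RR n → EE` of a colouring `η : Fin n → F_2^2`. -/
def sη {n : ℕ} (η : Fin n → ZMod 2 × ZMod 2) : RR n →+* EE where
  toFun x := ⟨x.a, ∑ u, x.b u * (η u).1, ∑ u, x.b u * (η u).2,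
    ∑ e : Ed n, x.c e * br (η e.1.1) (η e.1.2)⟩
  map_one' := by ext <;> simp
  map_zero' := by ext <;> simp
  map_add' x y := by
    ext <;> simp [add_mul, Finset.sum_add_distrib]
  map_mul' x y := by
    ext
    · simp
    · simp only [RR.mul_b, EE.mul_b1, Finset.mul_sum, Finset.sum_mul]
      rw [← Finset.sum_add_distrib]
      exact Finset.sum_congr rfl fun _ _ => by ring
    · simp only [RR.mul_b, EE.mul_b2, Finset.mul_sum, Finset.sum_mul]
      rw [← Finset.sum_add_distrib]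
      exact Finset.sum_congr rfl fun _ _ => by ring
    · have h := sum_pairs (fun u v => x.b u * y.b v * br (η u) (η v))
      have h0 : ∑ u, x.b u * y.b u * br (η u) (η u) = 0 := by
        refine Finset.sum_eq_zero fun u _ => ?_
        have : br (η u) (η u) = 0 := by
          rw [br, mul_comm, CharTwo.add_self_eq_zero]
        rw [this, mul_zero]
      rw [h0, zero_add] at h
      have hs : ∀ p q : ZMod 2 × ZMod 2, br p q = br q p := fun p q => by simp [br]; ring
      have h1 : ∑ u, ∑ v, x.b u * y.b v * br (η u) (η v)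
          = (∑ u, x.b u * (η u).1) * (∑ v, y.b v * (η v).2)
            + (∑ u, x.b u * (η u).2) * (∑ v, y.b v * (η v).1) := by
        rw [Finset.sum_mul_sum, Finset.sum_mul_sum, ← Finset.sum_add_distrib]
        refine Finset.sum_congr rfl fun u _ => ?_
        rw [← Finset.sum_add_distrib]
        refine Finset.sum_congr rfl fun v _ => ?_
        simp only [br]
        ring
      have h2 : ∑ e : Ed n, (x * y).c e * br (η e.1.1) (η e.1.2)
          = x.a * (∑ e : Ed n, y.c e * br (η e.1.1) (η e.1.2))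
            + (∑ e : Ed n, x.c e * br (η e.1.1) (η e.1.2)) * y.a
            + ∑ e : Ed n, (x.b e.1.1 * y.b e.1.2 * br (η e.1.1) (η e.1.2)
              + x.b e.1.2 * y.b e.1.1 * br (η e.1.2) (η e.1.1)) := by
        rw [Finset.mul_sum, Finset.sum_mul, ← Finset.sum_add_distrib, ← Finset.sum_add_distrib]
        refine Finset.sum_congr rfl fun e _ => ?_
        rw [RR.mul_c, hs (η e.1.2) (η e.1.1)]
        ring
      change ∑ e : Ed n, (x * y).c e * br (η e.1.1) (η e.1.2) = _
      rw [h2, ← h, h1]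
      simp only [EE.mul_c]
      ring

/-- The unit `τ(w) = 1 + ∑ w_u e_u + ∑ w_u w_v e_{uv} = ∏ (1 + e_u)^{w_u}`. -/
def tau {n : ℕ} (w : Fin n → ZMod 2) : RR n := ⟨1, w, fun e => w e.1.1 * w e.1.2⟩

/-- `τ` as a homomorphism of monoids. -/
def tauHom (n : ℕ) : Multiplicative (Fin n → ZMod 2) →* RR n where
  toFun w := tau (Multiplicative.toAdd w)
  map_one' := by ext <;> simp [tau]
  map_mul' x y := by
    ext
    · simp [tau]
    · simp [tau, add_comm]
    · simp [tau]; ring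

/-! ### 4. The groups -/

/-- cyclic group of order 3 -/
abbrev C3 : Type := Multiplicative (ZMod 3)

/-- The action of `U × C3` on `I → C3 → R`: `U` acts by multiplication through `τ`, `C3` shifts. -/
def act (I : Type) {R U : Type} [CommRing R] [Group U] (τ : U →* R) :
    (U × C3) →* AddMonoid.End (I → C3 → R) where
  toFun x :=
    { toFun := fun m i c => τ x.1 * m i (x.2⁻¹ * c)
      map_zero' := by funext i c; simp
      map_add' := fun m m' => by funext i c; simp [mul_add] }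
  map_one' := by
    refine AddMonoidHom.ext fun m => ?_
    funext i c
    change τ 1 * m i ((1 : C3)⁻¹ * c) = m i c
    simp
  map_mul' x y := by
    refine AddMonoidHom.ext fun m => ?_
    funext i c
    change τ (x.1 * y.1) * m i ((x.2 * y.2)⁻¹ * c)
      = τ x.1 * (τ y.1 * m i (y.2⁻¹ * (x.2⁻¹ * c)))
    rw [map_mul, mul_inv_rev, mul_assoc, mul_assoc]

@[simp] theorem act_apply {I R U : Type} [CommRing R] [Group U] (τ : U →* R)
    (x : U × C3) (m : I → C3 → R) (i : I) (c : C3) :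
    act I τ x m i c = τ x.1 * m i (x.2⁻¹ * c) := rfl

/-- `Γ_N = (R_n[C3])^N ⋊ (F_2^n × C3)` -/
abbrev GamN (N n : ℕ) : Type := SD (act (Fin N) (tauHom n))

/-- `Γ(k, EE) = (EE[C3])^k ⋊ (EE^× × C3)` -/
abbrev GamE (k : ℕ) : Type := SD (act (Fin k) (Units.coeHom EE))

/-- The finite group `Q = EE[C3] ⋊ (EE^× × C3)`. -/
abbrev QQ : Type := SD (act Unit (Units.coeHom EE))

/-- The unit vector `δ_l` of `R[C3]^I`. -/
def unitVec {I R : Type} [DecidableEq I] [CommRing R] (l : I) : I → C3 → R :=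
  fun i c => if i = l ∧ c = 1 then 1 else 0

/-! ### 5. Forms on edge vectors -/

/-- basis vector -/
def dl {n : ℕ} (v : Fin n) : Fin n → ZMod 2 := Pi.single v 1

/-- The degree two part `b · b'` of a product of two vectors. -/
def dot {n : ℕ} (b b' : Fin n → ZMod 2) : Ed n → ZMod 2 :=
  fun e => b e.1.1 * b' e.1.2 + b e.1.2 * b' e.1.1

/-- `v^{(a,z)}(c) = ∑_{u<v} c_{uv} (a_u z_v + a_v z_u)` -/
def vv {n : ℕ} (a z : Fin n → ZMod 2) (c : Ed n → ZMod 2) : ZMod 2 :=
  ∑ e : Ed n, c e * (a e.1.1 * z e.1.2 + a e.1.2 * z e.1.1)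

/-- Locality of an alternating form in every slot. -/
def Local {N n : ℕ} (A : (Ed n → ZMod 2) [⋀^Fin N]→ₗ[ZMod 2] ZMod 2) : Prop :=
  ∀ (i : Fin N) (w : Fin n), ∃ c : (Fin n → ZMod 2) → (Fin n → ZMod 2) → ZMod 2,
    ∀ (r : Fin N → Ed n → ZMod 2) (b : Fin n → ZMod 2),
      A (Function.update r i (dot b (dl w)))
        = ∑ a : Fin n → ZMod 2, ∑ z : Fin n → ZMod 2,
            c a z * (∑ j, b j * a j) * ∏ l ∈ Finset.univ.erase i, vv a z (r l)

/-- The function `f` on `Γ_N`. -/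
def ff {N n : ℕ} (A : (Ed n → ZMod 2) [⋀^Fin N]→ₗ[ZMod 2] ZMod 2) (x : GamN N n) : ZMod 2 :=
  A (fun i => (x.m i 1).c)

/-! ### 6. The element of the group ring -/

/-- commutator `[a, b] = a b a⁻¹ b⁻¹` -/
def cm {K : Type} [Group K] (a b : K) : K := a * b * a⁻¹ * b⁻¹

/-- the token `[[[z_i, t_i], y_a^3], y_b^3]` -/
def tk {K : Type} [Group K] (z t a b : K) : K := cm (cm (cm z t) (a ^ 3)) (b ^ 3)

/-- the token as a word: `z_i = x_{3i}`, `t_i = x_{3i+1}`, `y_a = x_{3a+2}` -/
def tw {N n : ℕ} (i : Fin N) (p : Fin n × Fin n) : FreeGroup ℕ :=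
  tk (FreeGroup.of (3 * i.val)) (FreeGroup.of (3 * i.val + 1)) (FreeGroup.of (3 * p.1.val + 2))
    (FreeGroup.of (3 * p.2.val + 2))

/-- `(1 - τ_0)(1 - τ_1) ... (1 - τ_{N-1})` in `Z[F]` -/
noncomputable def Du : (N : ℕ) → (Fin N → FreeGroup ℕ) → (FreeGroup ℕ →₀ ℤ)
  | 0, _ => Finsupp.single 1 1
  | N + 1, τ => Du N (fun i => τ i.succ)
      - Finsupp.mapDomain (fun w => τ 0 * w) (Du N (fun i => τ i.succ))

/-- the element of `Z[F]` attached to a formal sum of `N`-tuples of pairs -/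
noncomputable def uu {N n : ℕ} (L : List (ℤ × (Fin N → Fin n × Fin n))) : FreeGroup ℕ →₀ ℤ :=
  (L.map fun p => p.1 • Du N (fun i => tw i (p.2 i))).sum

/-- `[η, η']` as an integer -/
def brZ (x y : ZMod 2 × ZMod 2) : ℤ := if br x y = 0 then 0 else 1

end Pool.Agent.NFB
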