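/-
NFB-Expand.  PLAN.  Write x_l := A l g ∈ RR n, μ_il := μ i l.  Y_i := ∑_l μ_il * x_l, and
Y_i.c = p_i + q_i with p_i := ∑_l μ_il.a • x_l.c and
q_i := ∑_l ∑_w μ_il.b w • dot x_l.b (dl w) + ∑_l x_l.a • μ_il.c      (from RR.mul_c; dot b b' = ∑_w b' w • dot b (dl w)),
and μ_il.c = ∑_{e : Ed n} μ_il.c e • dot (dl e.1.1) (dl e.1.2).
Al (p + q) = ∑_{s : Finset (Fin N)} Al (s.piecewise q p)  (MultilinearMap.map_add_univ), a finite sum of functions of g.
s = ∅: Al p = 0, since the p_i lie in the span of the Fintype.card Λ < N vectors x_l.c: linearly dependent, AlternatingMap.map_linearDependent.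
s ∋ i: expand the slot i (write the vector as Function.update, use linearity: AlternatingMap/MultilinearMap.map_update_add, map_update_smul,
map_update_sum), then Local at (i, w) resp. at (i, e.1.2) with b = dl e.1.1: every resulting term is
  constant * (x_l.a or 1) * (∑_j b_j a_j) * ∏_{l' ≠ i} vv a z (p_l' or q_l'),  b = x_l.b or b = dl _,
and with the colouring η := fun v => (a v, z v):  br (η u) (η v) = a u * z v + z u * a v, so
(sη η x).a = x.a, (sη η x).b1 = ∑_j x.b j * a j, (sη η x).c = vv a z x.c.
So ∑_j (x_l.b j) a_j and x_l.a are functions of sη η (A l g); vv a z (p_i') = ∑_l μ.a * (sη η x_l).c;  vv a z (Y_i'.c) = (sη η Y_i').c with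
sη η Y_i' = ∑_l sη η μ_i'l * sη η x_l;  vv a z q_i' = vv a z (Y_i'.c) - vv a z p_i'.  Hence every term is in W by hW with this η.
(Use W.sum_mem / AddSubgroup closure properties for functions of g; the c a z coefficients are constants.)
-/
import Pool.Agent.NFB.Defs

set_option autoImplicit false

namespace Pool.Agent.NFB

private lemma memSum {T ι : Type} (W : AddSubgroup (T → ZMod 2)) (t : Finset ι)
    (F : ι → T → ZMod 2) (h : ∀ i ∈ t, F i ∈ W) : (fun g => ∑ i ∈ t, F i g) ∈ W := by
  have h1 : (fun g => ∑ i ∈ t, F i g) = ∑ i ∈ t, F i := by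
    funext g
    rw [Finset.sum_apply]
  rw [h1]
  exact W.sum_mem h

private lemma vv_eq {n : ℕ} (a z : Fin n → ZMod 2) (x : RR n) :
    vv a z x.c = (sη (fun v => (a v, z v)) x).c := by
  change ∑ e : Ed n, x.c e * (a e.1.1 * z e.1.2 + a e.1.2 * z e.1.1)
    = ∑ e : Ed n, x.c e * br (a e.1.1, z e.1.1) (a e.1.2, z e.1.2)
  refine Finset.sum_congr rfl fun e _ => ?_
  simp only [br]
  ring

private lemma vv_add {n : ℕ} (a z : Fin n → ZMod 2) (c c' : Ed n → ZMod 2) :
    vv a z (c + c') = vv a z c + vv a z c' := by
  unfold vv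
  rw [← Finset.sum_add_distrib]
  refine Finset.sum_congr rfl fun e _ => ?_
  rw [Pi.add_apply]
  ring

private lemma vv_sum {n : ℕ} {Λ : Type} [Fintype Λ] (a z : Fin n → ZMod 2) (m : Λ → ZMod 2)
    (c : Λ → Ed n → ZMod 2) : vv a z (∑ l, m l • c l) = ∑ l, m l * vv a z (c l) := by
  unfold vv
  simp only [Finset.sum_apply, Pi.smul_apply, smul_eq_mul, Finset.sum_mul, Finset.mul_sum]
  rw [Finset.sum_comm]
  refine Finset.sum_congr rfl fun l _ => Finset.sum_congr rfl fun e _ => ?_
  ring

private def cHom (n : ℕ) : RR n →+ (Ed n → ZMod 2) where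
  toFun := RR.c
  map_zero' := rfl
  map_add' _ _ := rfl

private lemma mul_c_eq {n : ℕ} (m x : RR n) :
    (m * x).c + m.a • x.c = ∑ w, m.b w • dot x.b (dl w)
      + ∑ e : Ed n, (x.a * m.c e) • dot (dl e.1.1) (dl e.1.2) := by
  funext e'
  simp only [Pi.add_apply, Finset.sum_apply, Pi.smul_apply, smul_eq_mul, RR.mul_c]
  have h1 : ∑ w, m.b w * dot x.b (dl w) e' = m.b e'.1.2 * x.b e'.1.1 + m.b e'.1.1 * x.b e'.1.2 := by
    simp only [dot, dl, mul_add, Finset.sum_add_distrib, Pi.single_apply, mul_ite, mul_one,
      mul_zero, Finset.sum_ite_eq, Finset.mem_univ, if_true]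
  have h2 : ∑ e : Ed n, (x.a * m.c e) * dot (dl e.1.1) (dl e.1.2) e' = x.a * m.c e' := by
    rw [Finset.sum_eq_single e']
    · have h3 : (dl e'.1.1 : Fin n → ZMod 2) e'.1.2 = 0 := by
        rw [dl, Pi.single_eq_of_ne (ne_of_gt e'.2)]
      simp only [dot, h3, zero_mul, add_zero]
      simp [dl]
    · intro e _ hne
      have h3 : dot (dl e.1.1) (dl e.1.2) e' = 0 := by
        simp only [dot, dl, Pi.single_apply]
        by_cases ha : e'.1.1 = e.1.1
        · by_cases hb : e'.1.2 = e.1.2
          · exact absurd (Subtype.ext (Prod.ext ha.symm hb.symm)) hne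
          · rw [if_neg hb]
            by_cases hc : e'.1.1 = e.1.2
            · have h4 := e.2
              rw [← hc, ← ha] at h4
              exact absurd h4 (lt_irrefl _)
            · rw [if_neg hc]
              ring
        · rw [if_neg ha]
          by_cases hc : e'.1.1 = e.1.2
          · by_cases hd : e'.1.2 = e.1.1
            · have h4 := e.2
              rw [← hc, ← hd] at h4
              exact absurd h4 (lt_asymm e'.2)
            · rw [if_neg hd]
              ring
          · rw [if_neg hc]
            ring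
      rw [h3, mul_zero]
    · intro h
      exact absurd (Finset.mem_univ e') h
  rw [h1, h2]
  have h5 : m.a * x.c e' + m.a * x.c e' = 0 := CharTwo.add_self_eq_zero _
  linear_combination h5

/-- The expansion lemma: `g ↦ Al((Y_i(g).c)_i)` is a sum of functions which only depend on the
`s_η`-data of `g` for some colouring `η`. -/
theorem expand {N n : ℕ} {T Λ : Type} [Fintype Λ] (hcard : Fintype.card Λ < N)
    (Al : (Ed n → ZMod 2) [⋀^Fin N]→ₗ[ZMod 2] ZMod 2) (hAl : Local Al)
    (A : Λ → T → RR n) (μ : Fin N → Λ → RR n) (W : AddSubgroup (T → ZMod 2))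
    (hW : ∀ (η : Fin n → ZMod 2 × ZMod 2) (F : T → ZMod 2),
      (∀ g g', (∀ l, sη η (A l g) = sη η (A l g')) → F g = F g') → F ∈ W) :
    (fun g => Al (fun i => (∑ l, μ i l * A l g).c)) ∈ W := by
  classical
  let p : T → Fin N → Ed n → ZMod 2 := fun g i => ∑ l, (μ i l).a • (A l g).c
  let q : T → Fin N → Ed n → ZMod 2 := fun g i => (∑ l, μ i l * A l g).c + p g i
  have hpq : ∀ g, (fun i => (∑ l, μ i l * A l g).c) = p g + q g := by
    intro g
    funext i e
    change _ = p g i e + ((∑ l, μ i l * A l g).c e + p g i e)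
    have h := CharTwo.add_self_eq_zero (p g i e)
    linear_combination -h
  have hexp : ∀ g, Al (fun i => (∑ l, μ i l * A l g).c)
      = ∑ s : Finset (Fin N), Al (s.piecewise (p g) (q g)) := by
    intro g
    rw [hpq]
    exact Al.toMultilinearMap.map_add_univ (p g) (q g)
  simp only [hexp]
  refine memSum W _ _ fun s _ => ?_
  by_cases hs : ∀ i, i ∈ s
  · -- all slots are `p`
    have h0 : (fun g => Al (s.piecewise (p g) (q g))) = 0 := by
      funext g
      have h1 : s.piecewise (p g) (q g) = p g := by
        funext i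
        exact Finset.piecewise_eq_of_mem _ _ _ (hs i)
      rw [h1, Pi.zero_apply]
      refine AlternatingMap.map_linearDependent Al (p g) fun hli => ?_
      let L : (Λ → ZMod 2) →ₗ[ZMod 2] (Ed n → ZMod 2) :=
        Fintype.linearCombination (ZMod 2) (fun l => (A l g).c)
      have h2 : p g = fun i => L (fun l => (μ i l).a) := by
        funext i
        change _ = Fintype.linearCombination (ZMod 2) (fun l => (A l g).c) _
        rw [Fintype.linearCombination_apply]
      have h3 : LinearIndependent (ZMod 2) (fun (i : Fin N) (l : Λ) => (μ i l).a) := by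
        refine LinearIndependent.of_comp L ?_
        rw [h2] at hli
        exact hli
      have h4 := h3.fintype_card_le_finrank
      rw [Fintype.card_fin, Module.finrank_fintype_fun_eq_card] at h4
      omega
    rw [h0]
    exact W.zero_mem
  · push Not at hs
    obtain ⟨i, hi⟩ := hs
    -- the common factor depends only on the data
    have hr : ∀ (a z : Fin n → ZMod 2) (g g' : T),
        (∀ l, sη (fun v => (a v, z v)) (A l g) = sη (fun v => (a v, z v)) (A l g')) →
        ∀ l', vv a z (s.piecewise (p g) (q g) l') = vv a z (s.piecewise (p g') (q g') l') := by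
      intro a z g g' hgg l'
      have hp : vv a z (p g l') = vv a z (p g' l') := by
        change vv a z (∑ l, (μ l' l).a • (A l g).c) = vv a z (∑ l, (μ l' l).a • (A l g').c)
        rw [vv_sum, vv_sum]
        refine Finset.sum_congr rfl fun l _ => ?_
        rw [vv_eq, vv_eq, hgg l]
      have hq : vv a z (q g l') = vv a z (q g' l') := by
        change vv a z ((∑ l, μ l' l * A l g).c + p g l')
          = vv a z ((∑ l, μ l' l * A l g').c + p g' l')
        rw [vv_add, vv_add, hp, vv_eq, vv_eq, map_sum, map_sum]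
        have h5 : ∑ l, sη (fun v => (a v, z v)) (μ l' l * A l g)
            = ∑ l, sη (fun v => (a v, z v)) (μ l' l * A l g') := by
          refine Finset.sum_congr rfl fun l _ => ?_
          rw [map_mul, map_mul, hgg l]
        rw [h5]
      by_cases hl : l' ∈ s
      · rw [Finset.piecewise_eq_of_mem _ _ _ hl, Finset.piecewise_eq_of_mem _ _ _ hl, hp]
      · rw [Finset.piecewise_eq_of_notMem _ _ _ hl, Finset.piecewise_eq_of_notMem _ _ _ hl, hq]
    -- the slot `i`
    have hslot : ∀ g, Al (s.piecewise (p g) (q g))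
        = ∑ l, ∑ w, (μ i l).b w *
            Al (Function.update (s.piecewise (p g) (q g)) i (dot (A l g).b (dl w)))
          + ∑ l, ∑ e : Ed n, ((A l g).a * (μ i l).c e) *
            Al (Function.update (s.piecewise (p g) (q g)) i (dot (dl e.1.1) (dl e.1.2))) := by
      intro g
      let L : (Ed n → ZMod 2) →ₗ[ZMod 2] ZMod 2 :=
        Al.toMultilinearMap.toLinearMap (s.piecewise (p g) (q g)) i
      have hL : ∀ v, L v = Al (Function.update (s.piecewise (p g) (q g)) i v) := fun v => rfl
      have h6 : Al (s.piecewise (p g) (q g)) = L (q g i) := by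
        rw [hL]
        congr 1
        rw [← Finset.piecewise_eq_of_notMem s (p g) (q g) hi, Function.update_eq_self]
      have h7 : q g i = ∑ l, (∑ w, (μ i l).b w • dot (A l g).b (dl w)
          + ∑ e : Ed n, ((A l g).a * (μ i l).c e) • dot (dl e.1.1) (dl e.1.2)) := by
        change (∑ l, μ i l * A l g).c + ∑ l, (μ i l).a • (A l g).c = _
        have h8 : (∑ l, μ i l * A l g).c = ∑ l, (μ i l * A l g).c :=
          map_sum (cHom n) (fun l => μ i l * A l g) Finset.univ
        rw [h8, ← Finset.sum_add_distrib]
        exact Finset.sum_congr rfl fun l _ => mul_c_eq _ _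
      rw [h6, h7]
      simp only [map_sum, map_add, map_smul, smul_eq_mul]
      simp only [hL]
      rw [Finset.sum_add_distrib]
    -- the terms
    have hterm1 : ∀ (l : Λ) (w : Fin n), (fun g => (μ i l).b w *
        Al (Function.update (s.piecewise (p g) (q g)) i (dot (A l g).b (dl w)))) ∈ W := by
      intro l w
      obtain ⟨c, hc⟩ := hAl i w
      simp only [hc, Finset.mul_sum]
      refine memSum W _ _ fun a _ => memSum W _ _ fun z _ => ?_
      refine hW (fun v => (a v, z v)) _ fun g g' hgg => ?_
      have h9 : ∑ j, (A l g).b j * a j = ∑ j, (A l g').b j * a j :=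
        congrArg EE.b1 (hgg l)
      rw [← Finset.mul_sum, ← Finset.mul_sum] at *
      rw [h9]
      congr 2
      exact Finset.prod_congr rfl fun l' _ => hr a z g g' hgg l'
    have hterm2 : ∀ (l : Λ) (e : Ed n), (fun g => ((A l g).a * (μ i l).c e) *
        Al (Function.update (s.piecewise (p g) (q g)) i (dot (dl e.1.1) (dl e.1.2)))) ∈ W := by
      intro l e
      obtain ⟨c, hc⟩ := hAl i e.1.2
      simp only [hc]
      have h10 : ∀ g, ((A l g).a * (μ i l).c e) * ∑ a : Fin n → ZMod 2, ∑ z : Fin n → ZMod 2,
            c a z * (∑ j, dl e.1.1 j * a j) *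
              ∏ l ∈ Finset.univ.erase i, vv a z (s.piecewise (p g) (q g) l)
          = ∑ a : Fin n → ZMod 2, ∑ z : Fin n → ZMod 2, ((A l g).a * (μ i l).c e) *
            (c a z * (∑ j, dl e.1.1 j * a j) *
              ∏ l ∈ Finset.univ.erase i, vv a z (s.piecewise (p g) (q g) l)) := by
        intro g
        simp only [Finset.mul_sum]
      simp only [h10]
      refine memSum W _ _ fun a _ => memSum W _ _ fun z _ => ?_
      refine hW (fun v => (a v, z v)) _ fun g g' hgg => ?_
      have h9 : (A l g).a = (A l g').a := congrArg EE.a (hgg l)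
      have h11 : ∏ l' ∈ Finset.univ.erase i, vv a z (s.piecewise (p g) (q g) l')
          = ∏ l' ∈ Finset.univ.erase i, vv a z (s.piecewise (p g') (q g') l') :=
        Finset.prod_congr rfl fun l' _ => hr a z g g' hgg l'
      rw [h9, h11]
    have hfun : (fun g => Al (s.piecewise (p g) (q g)))
        = (fun g => ∑ l, ∑ w, (μ i l).b w *
            Al (Function.update (s.piecewise (p g) (q g)) i (dot (A l g).b (dl w))))
          + (fun g => ∑ l, ∑ e : Ed n, ((A l g).a * (μ i l).c e) *
            Al (Function.update (s.piecewise (p g) (q g)) i (dot (dl e.1.1) (dl e.1.2)))) := by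
      funext g
      exact hslot g
    rw [hfun]
    exact W.add_mem (memSum W _ _ fun l _ => memSum W _ _ fun w _ => hterm1 l w)
      (memSum W _ _ fun l _ => memSum W _ _ fun e _ => hterm2 l e)

end Pool.Agent.NFB
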