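import Mathlib

/-! The column functional `F0` of helper20's proof (MP_838612_al), section 2. Definitions only.
Vertices `Fin (N+2)`, an edge word is `e : Fin N → Fin (N+2) × Fin (N+2)`. -/

set_option autoImplicit false

namespace Pool.Agent.NFB

open Finset

/-- degree of `v` (a loop counts twice) -/
def deg {N : ℕ} (e : Fin N → Fin (N + 2) × Fin (N + 2)) (v : Fin (N + 2)) : ℕ :=
  ∑ i, ((if (e i).1 = v then 1 else 0) + (if (e i).2 = v then 1 else 0))

/-- Ryser sum = determinant mod 2 of (Inc e_1, ..., Inc e_N, delta_x, delta_y) -/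
def ryser {N : ℕ} (e : Fin N → Fin (N + 2) × Fin (N + 2)) (x y : Fin (N + 2)) : ZMod 2 :=
  ∑ a : Fin (N + 2) → ZMod 2, a x * a y * ∏ i, (a (e i).1 + a (e i).2)

/-- the column functional on words of edges -/
def F0 (N : ℕ) (e : Fin N → Fin (N + 2) × Fin (N + 2)) : ZMod 2 :=
  ∑ s ∈ Finset.Icc 1 (N - 2),
    if ∀ v, 1 ≤ deg e v ∧ (2 ≤ deg e v ↔ v.val < s) then
      ryser e (Fin.ofNat (N + 2) (s - 1)) (Fin.ofNat (N + 2) s)
    else 0

end Pool.Agent.NFB
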