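import Pool.Agent.NFB.Cw

/-!
NFB (MP_838612_al), Section 2: the alternating form `f0` on edge vectors and its
locality in linear form.
-/

set_option autoImplicit false

namespace Pool.Agent.NFB.Form

open Finset Pool.Agent.NFB

/-- the edges of the complete graph on `Fin (N + 2)` -/
abbrev Ed (N : ℕ) : Type := {p : Fin (N + 2) × Fin (N + 2) // p.1 < p.2}

/-- the form `F0` extended to edge vectors -/
def f0 (N : ℕ) : MultilinearMap (ZMod 2) (fun _ : Fin N => (Ed N → ZMod 2)) (ZMod 2) :=
  ∑ e : Fin N → Ed N, F0 N (fun i => (e i).1) •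
    (MultilinearMap.mkPiAlgebra (ZMod 2) (Fin N) (ZMod 2)).compLinearMap
      (fun i => LinearMap.proj (e i))

theorem f0_apply {N : ℕ} (r : Fin N → Ed N → ZMod 2) :
    f0 N r = ∑ e : Fin N → Ed N, F0 N (fun i => (e i).1) * ∏ i, r i (e i) := by
  unfold f0
  simp

/-- the vector of the (unordered) edge `u w`; zero for `u = w` -/
def ev {N : ℕ} (u w : Fin (N + 2)) : Ed N → ZMod 2 :=
  fun p => if p.1 = (u, w) ∨ p.1 = (w, u) then 1 else 0

/-- the product of two degree one elements: entries `b_u b'_v + b_v b'_u` -/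
def bb {N : ℕ} (b b' : Fin (N + 2) → ZMod 2) : Ed N → ZMod 2 :=
  fun p => b p.1.1 * b' p.1.2 + b p.1.2 * b' p.1.1

/-- the functional of a colouring `(a, z)` -/
def vv {N : ℕ} (a z : Fin (N + 2) → ZMod 2) (c : Ed N → ZMod 2) : ZMod 2 :=
  ∑ p : Ed N, c p * (a p.1.1 * z p.1.2 + a p.1.2 * z p.1.1)

/-- value on edge vectors -/
theorem f0_ev {N : ℕ} (e : Fin N → Fin (N + 2) × Fin (N + 2)) :
    f0 N (fun i => ev (e i).1 (e i).2) = F0 N e := by
  rw [f0_apply]
  by_cases h : ∀ i, (e i).1 ≠ (e i).2
  · -- the oriented version of `e`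
    let e' : Fin N → Ed N := fun i =>
      if hlt : (e i).1 < (e i).2 then ⟨((e i).1, (e i).2), hlt⟩
      else ⟨((e i).2, (e i).1), lt_of_le_of_ne (not_lt.mp hlt) (h i).symm⟩
    have he' : ∀ i, (e' i).1 = e i ∨ (e' i).1 = (e i).swap := by
      intro i
      by_cases hlt : (e i).1 < (e i).2
      · left
        simp only [e', hlt, dif_pos]
      · right
        simp only [e', hlt]
        rfl
    rw [Finset.sum_eq_single e']
    · rw [F0_orient e (fun i => (e' i).1) he']
      rw [Finset.prod_eq_one, mul_one]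
      intro i _
      unfold ev
      rw [if_pos]
      rcases he' i with h1 | h1
      · left; rw [h1]
      · right; rw [h1]; rfl
    · intro e1 _ hne
      have : ∃ i, e1 i ≠ e' i := by
        by_contra hc
        push Not at hc
        exact hne (funext hc)
      obtain ⟨i, hi⟩ := this
      rw [Finset.prod_eq_zero (Finset.mem_univ i), mul_zero]
      unfold ev
      rw [if_neg]
      intro h2
      apply hi
      apply Subtype.ext
      have h3 := (e1 i).2
      by_cases hlt : (e i).1 < (e i).2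
      · have h4 : (e' i).1 = ((e i).1, (e i).2) := by simp only [e', hlt, dif_pos]
        rcases h2 with h2 | h2
        · rw [h2, h4]
        · rw [h2] at h3
          exact absurd h3 (not_lt.mpr hlt.le)
      · have h4 : (e' i).1 = ((e i).2, (e i).1) := by simp only [e', hlt]; rfl
        rcases h2 with h2 | h2
        · rw [h2] at h3
          exact absurd h3 hlt
        · rw [h2, h4]
    · intro h1
      exact absurd (Finset.mem_univ _) h1
  · push Not at h
    obtain ⟨i, hi⟩ := h
    rw [F0_loop e i hi]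
    apply Finset.sum_eq_zero
    intro e1 _
    rw [Finset.prod_eq_zero (Finset.mem_univ i), mul_zero]
    unfold ev
    rw [if_neg]
    intro h2
    have h3 := (e1 i).2
    rcases h2 with h2 | h2
    · rw [h2] at h3
      exact absurd h3 (by simp [hi])
    · rw [h2] at h3
      exact absurd h3 (by simp [hi])

/-- two equal rows -/
theorem f0_eq_zero {N : ℕ} (r : Fin N → Ed N → ZMod 2) (i j : Fin N) (h : r i = r j)
    (hij : i ≠ j) : f0 N r = 0 := by
  rw [f0_apply]
  refine Finset.sum_involution (fun e _ => e ∘ Equiv.swap i j) ?_ ?_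
    (fun e _ => Finset.mem_univ _) ?_
  · intro e _
    have h1 : F0 N (fun l => ((e ∘ Equiv.swap i j) l).1) = F0 N (fun l => (e l).1) :=
      F0_symm (fun l => (e l).1) (Equiv.swap i j)
    have h2 : ∏ l, r l ((e ∘ Equiv.swap i j) l) = ∏ l, r l (e l) := by
      have h3 : ∀ l, r l ((e ∘ Equiv.swap i j) l) = r (Equiv.swap i j l) (e (Equiv.swap i j l)) := by
        intro l
        simp only [Function.comp_apply]
        have h5 : r l = r (Equiv.swap i j l) := by
          by_cases hl : l = i
          · rw [hl, Equiv.swap_apply_left]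
            exact h
          · by_cases hl2 : l = j
            · rw [hl2, Equiv.swap_apply_right]
              exact h.symm
            · rw [Equiv.swap_apply_of_ne_of_ne hl hl2]
        rw [← h5]
      simp_rw [h3]
      exact Equiv.prod_comp (Equiv.swap i j) (fun l => r l (e l))
    rw [h1, h2]
    exact CharTwo.add_self_eq_zero _
  · intro e _ hne heq
    apply hne
    have h4 : e i = e j := by
      have := congrFun heq i
      simp only [Function.comp_apply, Equiv.swap_apply_left] at this
      exact this.symm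
    rw [F0_rep (fun l => (e l).1) i j hij (by rw [h4]), zero_mul]
  · intro e _
    funext l
    simp

/-- the alternating version -/
def f0A (N : ℕ) : (Ed N → ZMod 2) [⋀^Fin N]→ₗ[ZMod 2] ZMod 2 :=
  { f0 N with
    map_eq_zero_of_eq' := fun r i j h hij => f0_eq_zero r i j h hij }

theorem f0A_apply {N : ℕ} (r : Fin N → Ed N → ZMod 2) : f0A N r = f0 N r := rfl

/-- rows in the span of fewer than `N` vectors -/
theorem f0_dep {N : ℕ} {κ : Type} [Fintype κ] (hκ : Fintype.card κ < N)
    (g : κ → Ed N → ZMod 2) (r : Fin N → Ed N → ZMod 2)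
    (h : ∀ i, r i ∈ Submodule.span (ZMod 2) (Set.range g)) : f0 N r = 0 := by
  have : Fact (Nat.Prime 2) := ⟨Nat.prime_two⟩
  rw [← f0A_apply]
  apply AlternatingMap.map_linearDependent
  intro hli
  have h1 : LinearIndependent (ZMod 2)
      (fun i => (⟨r i, h i⟩ : Submodule.span (ZMod 2) (Set.range g))) := by
    apply LinearIndependent.of_comp (Submodule.span (ZMod 2) (Set.range g)).subtype
    exact hli
  have h2 := h1.fintype_card_le_finrank
  have h3 : Module.finrank (ZMod 2) (Submodule.span (ZMod 2) (Set.range g)) ≤ Fintype.card κ :=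
    finrank_range_le_card g
  simp at h2
  omega

/-- rows which are combinations of fewer than `N` vectors -/
theorem f0_comb {N : ℕ} {κ : Type} [Fintype κ] (hκ : Fintype.card κ < N)
    (g : κ → Ed N → ZMod 2) (m : Fin N → κ → ZMod 2) :
    f0 N (fun i p => ∑ k, m i k * g k p) = 0 := by
  apply f0_dep hκ g
  intro i
  have : (fun p => ∑ k, m i k * g k p) = ∑ k, m i k • g k := by
    funext p
    simp
  rw [this]
  apply Submodule.sum_mem
  intro k _
  exact Submodule.smul_mem _ _ (Submodule.subset_span ⟨k, rfl⟩)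

/-- general slot formula -/
theorem f0_slot {N : ℕ} (hN : 3 ≤ N) (r : Fin N → Ed N → ZMod 2) (i : Fin N)
    (v : Ed N → ZMod 2) :
    f0 N (Function.update r i v) = ∑ x : Fin (N + 2),
      ∑ z ∈ (univ : Finset (Fin (N + 2) → ZMod 2)).filter (fun z => ∀ v, x < v → z v = 0),
        ∑ a : Fin (N + 2) → ZMod 2, a x * (∑ p : Ed N, v p * (a p.1.1 * a p.1.2)) *
          ∏ l ∈ univ.erase i, vv a z (r l) := by
  rw [f0_apply]
  have h1 : ∀ e : Fin N → Ed N, F0 N (fun l => (e l).1) * ∏ l, Function.update r i v l (e l)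
      = ∑ x : Fin (N + 2),
      ∑ z ∈ (univ : Finset (Fin (N + 2) → ZMod 2)).filter (fun z => ∀ v, x < v → z v = 0),
        ∑ a : Fin (N + 2) → ZMod 2, a x *
          ∏ l, (if l = i then v (e l) * (a (e l).1.1 * a (e l).1.2)
            else r l (e l) * (a (e l).1.1 * z (e l).1.2 + a (e l).1.2 * z (e l).1.1)) := by
    intro e
    rw [F0_Cw_all hN (fun l => (e l).1) i (ne_of_lt (e i).2)]
    rw [Finset.sum_mul]
    refine Finset.sum_congr rfl fun x _ => ?_
    rw [Finset.sum_mul]
    refine Finset.sum_congr rfl fun z _ => ?_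
    rw [Finset.sum_mul]
    refine Finset.sum_congr rfl fun a _ => ?_
    rw [← Finset.mul_prod_erase univ (fun l => Function.update r i v l (e l)) (Finset.mem_univ i),
      ← Finset.mul_prod_erase univ (fun l => (if l = i then v (e l) * (a (e l).1.1 * a (e l).1.2)
            else r l (e l) * (a (e l).1.1 * z (e l).1.2 + a (e l).1.2 * z (e l).1.1)))
        (Finset.mem_univ i)]
    have h2 : ∏ l ∈ univ.erase i, Function.update r i v l (e l)
        = ∏ l ∈ univ.erase i, r l (e l) := by
      refine Finset.prod_congr rfl fun l hl => ?_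
      rw [Function.update_of_ne (Finset.ne_of_mem_erase hl)]
    have h3 : ∏ l ∈ univ.erase i, (if l = i then v (e l) * (a (e l).1.1 * a (e l).1.2)
            else r l (e l) * (a (e l).1.1 * z (e l).1.2 + a (e l).1.2 * z (e l).1.1))
        = (∏ l ∈ univ.erase i, r l (e l)) *
          ∏ l ∈ univ.erase i, (a (e l).1.1 * z (e l).1.2 + a (e l).1.2 * z (e l).1.1) := by
      rw [← Finset.prod_mul_distrib]
      refine Finset.prod_congr rfl fun l hl => ?_
      rw [if_neg (Finset.ne_of_mem_erase hl)]
    rw [h2, h3, Function.update_self, if_pos rfl]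
    ring
  simp_rw [h1]
  rw [Finset.sum_comm]
  refine Finset.sum_congr rfl fun x _ => ?_
  rw [Finset.sum_comm]
  refine Finset.sum_congr rfl fun z _ => ?_
  rw [Finset.sum_comm]
  refine Finset.sum_congr rfl fun a _ => ?_
  rw [← Finset.mul_sum, mul_assoc]
  congr 1
  have h4 : (∑ e : Fin N → Ed N, ∏ l, (if l = i then v (e l) * (a (e l).1.1 * a (e l).1.2)
            else r l (e l) * (a (e l).1.1 * z (e l).1.2 + a (e l).1.2 * z (e l).1.1)))
      = ∏ l, ∑ p : Ed N, (if l = i then v p * (a p.1.1 * a p.1.2)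
            else r l p * (a p.1.1 * z p.1.2 + a p.1.2 * z p.1.1)) := by
    rw [Finset.prod_univ_sum, Fintype.piFinset_univ]
  rw [h4, ← Finset.mul_prod_erase univ _ (Finset.mem_univ i)]
  simp only [if_true]
  congr 1
  refine Finset.prod_congr rfl fun l hl => ?_
  unfold vv
  refine Finset.sum_congr rfl fun p _ => ?_
  rw [if_neg (Finset.ne_of_mem_erase hl)]

/-- sum over the edges of a symmetric function -/
theorem sum_Ed {N : ℕ} (F : Fin (N + 2) → Fin (N + 2) → ZMod 2) :
    (∑ p : Ed N, (F p.1.1 p.1.2 + F p.1.2 p.1.1)) + ∑ u, F u u = ∑ u, ∑ w, F u w := by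
  classical
  have h1 : (∑ u, ∑ w, F u w) = ∑ q : Fin (N + 2) × Fin (N + 2), F q.1 q.2 := by
    rw [Fintype.sum_prod_type]
  have hlt : (∑ p : Ed N, F p.1.1 p.1.2) =
      ∑ q ∈ (univ : Finset (Fin (N + 2) × Fin (N + 2))).filter (fun q => q.1 < q.2), F q.1 q.2 := by
    rw [Finset.sum_subtype (p := fun q : Fin (N + 2) × Fin (N + 2) => q.1 < q.2)
      (s := (univ : Finset (Fin (N + 2) × Fin (N + 2))).filter (fun q => q.1 < q.2))
      (fun q => by simp) (fun q => F q.1 q.2)]
  have hgt : (∑ p : Ed N, F p.1.2 p.1.1) =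
      ∑ q ∈ (univ : Finset (Fin (N + 2) × Fin (N + 2))).filter (fun q => q.2 < q.1), F q.1 q.2 := by
    rw [← Finset.sum_subtype (p := fun q : Fin (N + 2) × Fin (N + 2) => q.1 < q.2)
      ((univ : Finset (Fin (N + 2) × Fin (N + 2))).filter (fun q => q.1 < q.2))
      (fun q => by simp) (fun q => F q.2 q.1)]
    refine Finset.sum_nbij' (fun q => q.swap) (fun q => q.swap) ?_ ?_ ?_ ?_ ?_
    · intro q hq
      simpa using hq
    · intro q hq
      simpa using hq
    · intro q _
      rfl
    · intro q _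
      rfl
    · intro q _
      rfl
  have heq : (∑ u, F u u) =
      ∑ q ∈ (univ : Finset (Fin (N + 2) × Fin (N + 2))).filter (fun q => q.1 = q.2), F q.1 q.2 := by
    refine Finset.sum_nbij' (fun u => (u, u)) (fun q => q.1) ?_ ?_ ?_ ?_ ?_
    · intro u _
      simp
    · intro q _
      simp
    · intro u _
      rfl
    · intro q hq
      simp only [Finset.mem_filter, Finset.mem_univ, true_and] at hq
      exact Prod.ext rfl hq
    · intro u _
      rfl
  rw [Finset.sum_add_distrib, hlt, hgt, heq, h1]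
  rw [← Finset.sum_filter_add_sum_filter_not univ (fun q : Fin (N + 2) × Fin (N + 2) => q.1 < q.2)
    (fun q => F q.1 q.2), add_assoc]
  congr 1
  rw [← Finset.sum_filter_add_sum_filter_not
    (univ.filter (fun q : Fin (N + 2) × Fin (N + 2) => ¬ q.1 < q.2)) (fun q => q.2 < q.1)
    (fun q => F q.1 q.2)]
  congr 1
  · refine Finset.sum_congr ?_ fun _ _ => rfl
    ext q
    simp only [Finset.mem_filter, Finset.mem_univ, true_and]
    constructor
    · intro h
      exact ⟨not_lt.mpr h.le, h⟩
    · intro h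
      exact h.2
  · refine Finset.sum_congr ?_ fun _ _ => rfl
    ext q
    simp only [Finset.mem_filter, Finset.mem_univ, true_and, not_lt]
    constructor
    · intro h
      exact ⟨h.ge, h.le⟩
    · intro h
      exact le_antisymm h.2 h.1

/-- a product of fewer than `card V` forms sums to zero (with scaling) -/
theorem few_z {V κ ι : Type} [Fintype V] [DecidableEq V] [Fintype κ] [DecidableEq κ]
    [Fintype ι] (x : ι → V) (e : κ → V × V) (z : V → ZMod 2)
    (hc : Fintype.card ι + Fintype.card κ < Fintype.card V) :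
    (∑ a : V → ZMod 2, (∏ t, a (x t)) *
      ∏ k, (a (e k).1 * z (e k).2 + a (e k).2 * z (e k).1)) = 0 := by
  classical
  simp only [NFB28.expand, Finset.mul_sum]
  rw [Finset.sum_comm]
  apply Finset.sum_eq_zero
  intro φ _
  have h2 : ∀ a : V → ZMod 2, (∏ t, a (x t)) *
      ∏ k, (a (NFB28.pc e φ k) * z (NFB28.qc e φ k)) = (∏ k, z (NFB28.qc e φ k)) *
        ∏ s, a ((Sum.elim x (NFB28.pc e φ) : ι ⊕ κ → V) s) := by
    intro a
    rw [Fintype.prod_sum_type, Finset.prod_mul_distrib]
    simp only [Sum.elim_inl, Sum.elim_inr]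
    ring
  simp only [h2]
  rw [← Finset.mul_sum, NFB28.sum_prod_eq, if_neg, mul_zero]
  intro hs
  have := Fintype.card_le_of_surjective _ hs
  simp at this
  omega

/-- too few forms -/
theorem few_vv {N : ℕ} (r : Fin N → Ed N → ZMod 2) (i : Fin N) (x w : Fin (N + 2))
    (z : Fin (N + 2) → ZMod 2) :
    (∑ a : Fin (N + 2) → ZMod 2, a x * a w * ∏ l ∈ univ.erase i, vv a z (r l)) = 0 := by
  classical
  have h1 : ∀ a : Fin (N + 2) → ZMod 2, (∏ l ∈ univ.erase i, vv a z (r l)) =
      ∑ e : {l : Fin N // l ≠ i} → Ed N, (∏ l, r l.1 (e l)) *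
        ∏ l, (a (e l).1.1 * z (e l).1.2 + a (e l).1.2 * z (e l).1.1) := by
    intro a
    rw [prod_erase]
    unfold vv
    rw [Finset.prod_univ_sum, Fintype.piFinset_univ]
    refine Finset.sum_congr rfl fun e _ => ?_
    rw [Finset.prod_mul_distrib]
  simp_rw [h1, Finset.mul_sum]
  rw [Finset.sum_comm]
  apply Finset.sum_eq_zero
  intro e _
  have h2 : ∀ a : Fin (N + 2) → ZMod 2, a x * a w * ((∏ l, r l.1 (e l)) *
        ∏ l, (a (e l).1.1 * z (e l).1.2 + a (e l).1.2 * z (e l).1.1)) =
      (∏ l, r l.1 (e l)) * ((∏ t : Fin 2, a (![x, w] t)) *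
        ∏ l, (a (e l).1.1 * z (e l).1.2 + a (e l).1.2 * z (e l).1.1)) := by
    intro a
    simp only [Fin.prod_univ_two, Matrix.cons_val_zero, Matrix.cons_val_one]
    ring
  simp_rw [h2]
  rw [← Finset.mul_sum]
  rw [few_z (![x, w]) (fun l => (e l).1) z, mul_zero]
  have h : 0 < N := Nat.lt_of_le_of_lt (Nat.zero_le _) i.2
  simp
  omega

theorem quad_bb {N : ℕ} (b b' a : Fin (N + 2) → ZMod 2) :
    (∑ p : Ed N, bb b b' p * (a p.1.1 * a p.1.2)) =
      (∑ w, b' w * a w) * (∑ j, b j * a j) + ∑ u, b u * b' u * a u := by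
  have h := sum_Ed (fun u w => b u * b' w * (a u * a w))
  have h1 : (∑ p : Ed N, bb b b' p * (a p.1.1 * a p.1.2)) =
      ∑ p : Ed N, (b p.1.1 * b' p.1.2 * (a p.1.1 * a p.1.2) +
        b p.1.2 * b' p.1.1 * (a p.1.2 * a p.1.1)) := by
    refine Finset.sum_congr rfl fun p _ => ?_
    unfold bb
    ring
  have h2 : (∑ u, ∑ w, b u * b' w * (a u * a w)) = (∑ w, b' w * a w) * (∑ j, b j * a j) := by
    rw [Finset.sum_comm, Finset.sum_mul_sum]
    refine Finset.sum_congr rfl fun u _ => ?_
    refine Finset.sum_congr rfl fun w _ => ?_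
    ring
  have h3 : (∑ u, b u * b' u * (a u * a u)) = ∑ u, b u * b' u * a u := by
    refine Finset.sum_congr rfl fun u _ => ?_
    have : a u * a u = a u := by
      generalize a u = t
      revert t
      decide
    rw [this]
  simp only [h2, h3] at h
  rw [h1, ← h, add_assoc]
  have h4 : (∑ u, b u * b' u * a u) + (∑ u, b u * b' u * a u) = 0 := CharTwo.add_self_eq_zero _
  rw [h4, add_zero]

/-- slot formula for a product of two degree one elements -/
theorem f0_slot_bb {N : ℕ} (hN : 3 ≤ N) (r : Fin N → Ed N → ZMod 2) (i : Fin N)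
    (b b' : Fin (N + 2) → ZMod 2) :
    f0 N (Function.update r i (bb b b')) = ∑ x : Fin (N + 2),
      ∑ z ∈ (univ : Finset (Fin (N + 2) → ZMod 2)).filter (fun z => ∀ v, x < v → z v = 0),
        ∑ a : Fin (N + 2) → ZMod 2, a x * ((∑ w, b' w * a w) * (∑ j, b j * a j)) *
          ∏ l ∈ univ.erase i, vv a z (r l) := by
  rw [f0_slot hN]
  refine Finset.sum_congr rfl fun x _ => ?_
  refine Finset.sum_congr rfl fun z _ => ?_
  simp_rw [quad_bb, mul_add, add_mul]
  rw [Finset.sum_add_distrib]
  have h : (∑ a : Fin (N + 2) → ZMod 2, a x * (∑ u, b u * b' u * a u) *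
      ∏ l ∈ univ.erase i, vv a z (r l)) = 0 := by
    have h1 : ∀ a : Fin (N + 2) → ZMod 2, a x * (∑ u, b u * b' u * a u) *
        ∏ l ∈ univ.erase i, vv a z (r l) = ∑ u, (b u * b' u) *
          (a x * a u * ∏ l ∈ univ.erase i, vv a z (r l)) := by
      intro a
      rw [Finset.mul_sum, Finset.sum_mul]
      refine Finset.sum_congr rfl fun u _ => ?_
      ring
    simp_rw [h1]
    rw [Finset.sum_comm]
    apply Finset.sum_eq_zero
    intro u _
    rw [← Finset.mul_sum, few_vv, mul_zero]
  rw [h, add_zero]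

/-- slot formula for an edge vector -/
theorem f0_slot_ev {N : ℕ} (hN : 3 ≤ N) (r : Fin N → Ed N → ZMod 2) (i : Fin N)
    (u w : Fin (N + 2)) (huw : u ≠ w) :
    f0 N (Function.update r i (ev u w)) = ∑ x : Fin (N + 2),
      ∑ z ∈ (univ : Finset (Fin (N + 2) → ZMod 2)).filter (fun z => ∀ v, x < v → z v = 0),
        ∑ a : Fin (N + 2) → ZMod 2, a x * (a u * a w) *
          ∏ l ∈ univ.erase i, vv a z (r l) := by
  rw [f0_slot hN]
  refine Finset.sum_congr rfl fun x _ => ?_
  refine Finset.sum_congr rfl fun z _ => ?_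
  refine Finset.sum_congr rfl fun a _ => ?_
  congr 2
  have key : ∀ q : Ed N, (q.1 = (u, w) ∨ q.1 = (w, u)) →
      (∑ p : Ed N, ev u w p * (a p.1.1 * a p.1.2)) = a u * a w := by
    intro q hq
    rw [Finset.sum_eq_single q]
    · unfold ev
      rw [if_pos hq, one_mul]
      rcases hq with hq | hq
      · rw [hq]
      · rw [hq]
        ring
    · intro p _ hp
      unfold ev
      rw [if_neg, zero_mul]
      intro h
      apply hp
      apply Subtype.ext
      have h1 := p.2
      have h2 := q.2
      rcases h with h | h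
      · rcases hq with hq | hq
        · rw [h, hq]
        · rw [h] at h1
          rw [hq] at h2
          exact absurd h1 (not_lt.mpr h2.le)
      · rcases hq with hq | hq
        · rw [h] at h1
          rw [hq] at h2
          exact absurd h1 (not_lt.mpr h2.le)
        · rw [h, hq]
    · intro h
      exact absurd (Finset.mem_univ _) h
  rcases lt_or_gt_of_ne huw with h | h
  · exact key ⟨(u, w), h⟩ (Or.inl rfl)
  · exact key ⟨(w, u), h⟩ (Or.inr rfl)

end Pool.Agent.NFB.Form
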