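/-
NFB-Four.  Fourier inversion on a finite elementary abelian 2-group: the sum over all ξ : W →+ ZMod 2 of the hypotheses with the sign
(-1)^{ξ w0} is |Hom| D w0.
-/
import Pool.Agent.NFB.Defs

set_option autoImplicit false

namespace Pool.Agent.NFB

private theorem four_dual {W : Type} [AddCommGroup W] (h2 : ∀ w : W, w + w = 0) {v : W} (hv : v ≠ 0) :
    ∃ ξ : W →+ ZMod 2, ξ v ≠ 0 := by
  let _m : Module (ZMod 2) W := AddCommGroup.zmodModule (fun x => by rw [two_nsmul]; exact h2 x)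
  by_contra hc
  apply hv
  rw [← Module.forall_dual_apply_eq_zero_iff (ZMod 2) v]
  intro f
  by_contra hf
  exact hc ⟨f.toAddMonoidHom, hf⟩

/-- the sign -/
private def sg (a : ZMod 2) : ℤ := if a = 0 then 1 else -1

private theorem sg_add : ∀ a b : ZMod 2, sg (a + b) = sg a * sg b := by decide

private theorem sg_ne : ∀ a : ZMod 2, a ≠ 0 → sg a = -1 := by decide

/-- Fourier inversion on a finite elementary abelian 2-group. -/
theorem fourier (W : Type) [AddCommGroup W] [Finite W] (h2 : ∀ w : W, w + w = 0) (D : W →₀ ℤ)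
    (h : ∀ ξ : W →+ ZMod 2, D.sum (fun w m => if ξ w = 0 then m else -m) = 0) : D = 0 := by
  classical
  have : Finite (W →+ ZMod 2) :=
    Finite.of_injective (fun f : W →+ ZMod 2 => (f : W → ZMod 2)) DFunLike.coe_injective
  have _i := Fintype.ofFinite (W →+ ZMod 2)
  have hS : ∀ v : W, v ≠ 0 → ∑ ξ : W →+ ZMod 2, sg (ξ v) = 0 := by
    intro v hv
    obtain ⟨ξ0, h0⟩ := four_dual h2 hv
    have e1 : ∑ ξ : W →+ ZMod 2, sg ((ξ + ξ0) v) = ∑ ξ : W →+ ZMod 2, sg (ξ v) :=
      Equiv.sum_comp (Equiv.addRight ξ0) (fun ξ => sg (ξ v))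
    have e2 : ∑ ξ : W →+ ZMod 2, sg ((ξ + ξ0) v) = -∑ ξ : W →+ ZMod 2, sg (ξ v) := by
      rw [← Finset.sum_neg_distrib]
      refine Finset.sum_congr rfl fun ξ _ => ?_
      rw [AddMonoidHom.add_apply, sg_add, sg_ne _ h0]
      ring
    omega
  ext w0
  have h1 : ∑ ξ : W →+ ZMod 2, sg (ξ w0) * ∑ w ∈ D.support, sg (ξ w) * D w = 0 := by
    refine Finset.sum_eq_zero fun ξ _ => ?_
    have e := h ξ
    rw [Finsupp.sum] at e
    have e3 : ∑ w ∈ D.support, sg (ξ w) * D w = ∑ w ∈ D.support, (if ξ w = 0 then D w else -D w) := by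
      refine Finset.sum_congr rfl fun w _ => ?_
      unfold sg
      split_ifs
      · rw [one_mul]
      · rw [neg_one_mul]
    rw [e3, e, mul_zero]
  have h3 : ∑ ξ : W →+ ZMod 2, sg (ξ w0) * ∑ w ∈ D.support, sg (ξ w) * D w =
      ∑ w ∈ D.support, D w * ∑ ξ : W →+ ZMod 2, sg (ξ (w + w0)) := by
    simp only [Finset.mul_sum]
    rw [Finset.sum_comm]
    refine Finset.sum_congr rfl fun w _ => Finset.sum_congr rfl fun ξ _ => ?_
    rw [map_add, sg_add]
    ring
  have h4 : ∑ w ∈ D.support, D w * ∑ ξ : W →+ ZMod 2, sg (ξ (w + w0)) =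
      D w0 * (Fintype.card (W →+ ZMod 2) : ℤ) := by
    rw [Finset.sum_eq_single w0]
    · congr 1
      rw [h2 w0]
      have e : ∀ ξ : W →+ ZMod 2, sg (ξ 0) = 1 := by
        intro ξ
        rw [map_zero]
        rfl
      simp only [e]
      simp
    · intro w _ hw
      rw [hS, mul_zero]
      intro hc
      apply hw
      have e : w + w0 + w0 = w := by rw [add_assoc, h2 w0, add_zero]
      rw [← e, hc, zero_add]
    · intro hw
      rw [Finsupp.notMem_support_iff.1 hw, zero_mul]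
  rw [h3, h4] at h1
  have h5 : (Fintype.card (W →+ ZMod 2) : ℤ) ≠ 0 := by
    have := Fintype.card_pos (α := W →+ ZMod 2)
    omega
  rcases mul_eq_zero.1 h1 with h6 | h6
  · exact h6
  · exact absurd h6 h5

end Pool.Agent.NFB
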