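/-
NFB-GlobP.  PLAN.  φ := FreeGroup.lift with x_{3i} ↦ ⟨unitVec i, 1⟩ (i < N), x_{3i+1} ↦ ⟨0, (1, γ)⟩, γ a generator of C3,
x_{3a+2} ↦ ⟨0, (ofAdd (dl a), 1)⟩ (a < n), everything else ↦ 1.  Then φ (tw i (a,b)) = ⟨v, 1⟩ with
v i' c = (1 - tau (dl b)) * (1 - tau (dl a)) * (unitVec i - shift) i' c; so v i' 1 = 0 for i' ≠ i and v i 1 has
c-part dot (dl a) (dl b) (shifted part vanishes at c = 1 because γ ≠ 1; characteristic 2; for a = b both are 0; (tau (dl a))^3 = tau (dl a)).
Let v_i be the vector of the token i.  Elements ⟨v,1⟩ multiply by adding the v's, so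
(Du N τ).sum (c • ff (φ w)) = ∑_{s ⊆ Fin N} (-1)^{|s|} Al (fun i => if i ∈ s then c-part of v_i at (i,1) else 0) = ± Al (...) : only s = univ
survives (AlternatingMap.map_coord_zero).  (Prove by induction a version with an extra factor: for a function Ψ on (Fin N → ...) etc., or
express Du N τ as ∑_{s} (-1)^|s| single (ordered product) and use that φ (ordered product over s) = ⟨∑_{i ∈ s} v_i, 1⟩.)
-/
import Pool.Agent.NFB.Defs

set_option autoImplicit false

namespace Pool.Agent.NFB

private noncomputable def evH (f : FreeGroup ℕ → ZMod 2) : (FreeGroup ℕ →₀ ℤ) →+ ZMod 2 :=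
  Finsupp.liftAddHom fun w => (smulAddHom ℤ (ZMod 2)).flip (f w)

private theorem evH_eq (f : FreeGroup ℕ → ZMod 2) (u : FreeGroup ℕ →₀ ℤ) :
    evH f u = u.sum fun w c => c • f w := rfl

private theorem evH_map (f : FreeGroup ℕ → ZMod 2) (t : FreeGroup ℕ) (u : FreeGroup ℕ →₀ ℤ) :
    evH f (Finsupp.mapDomain (fun w => t * w) u) = evH (fun w => f (t * w)) u := by
  rw [evH_eq, evH_eq, Finsupp.sum_mapDomain_index]
  · intro b
    exact zero_smul _ _
  · intro b m1 m2
    exact add_smul _ _ _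

private theorem ev_Du : ∀ (K : ℕ) (τ : Fin K → FreeGroup ℕ) (f : FreeGroup ℕ → ZMod 2)
    (A : ZMod 2),
    (∀ b : Fin K → Bool, f ((List.ofFn fun i => if b i = true then τ i else 1).prod)
      = if (∀ i, b i = true) then A else 0) → evH f (Du K τ) = A
  | 0, τ, f, A, h => by
    have h0 := h (fun _ => true)
    rw [Du, evH_eq, Finsupp.sum_single_index (h := fun w (c : ℤ) => c • f w) (zero_smul ℤ _),
      one_smul]
    simpa using h0
  | K + 1, τ, f, A, h => by
    rw [Du, map_sub, evH_map]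
    have h1 : evH f (Du K fun i => τ i.succ) = 0 := by
      refine ev_Du K _ f 0 fun b => ?_
      have := h (Fin.cons false b)
      rw [List.ofFn_succ, List.prod_cons] at this
      simp only [Fin.cons_zero, Fin.cons_succ, Bool.false_eq_true, if_false, one_mul] at this
      rw [this, if_neg, ite_self]
      intro hh
      have := hh 0
      simp at this
    have h2 : evH (fun w => f (τ 0 * w)) (Du K fun i => τ i.succ) = A := by
      refine ev_Du K _ _ A fun b => ?_
      have := h (Fin.cons true b)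
      rw [List.ofFn_succ, List.prod_cons] at this
      simp only [Fin.cons_zero, Fin.cons_succ, if_true] at this
      rw [this]
      refine if_congr ?_ rfl rfl
      constructor
      · intro hh i
        have := hh i.succ
        simpa using this
      · intro hh i
        refine Fin.cases ?_ (fun j => ?_) i
        · simp
        · simpa using hh j
    rw [h1, h2, zero_sub, ZMod.neg_eq_self_mod_two]

section

variable {M U : Type} [AddCommGroup M] [Group U] (φ : U →* AddMonoid.End M)

private theorem sd_prod : ∀ (K : ℕ) (v : Fin K → M),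
    (List.ofFn fun i => (⟨v i, 1⟩ : SD φ)).prod = ⟨∑ i, v i, 1⟩
  | 0, v => by
    simp only [List.ofFn_zero, List.prod_nil, Finset.univ_eq_empty, Finset.sum_empty]
    rfl
  | K + 1, v => by
    rw [List.ofFn_succ, List.prod_cons, sd_prod K, Fin.sum_univ_succ]
    ext1
    · simp
    · simp

private theorem sd_cm (v : M) (u : U) :
    cm (⟨v, 1⟩ : SD φ) ⟨0, u⟩ = ⟨v - φ u v, 1⟩ := by
  ext1
  · simp [cm, sub_eq_add_neg]
  · simp [cm]

private theorem sd_pow3 (u : U) (h : u * u = 1) : ((⟨0, u⟩ : SD φ)) ^ 3 = ⟨0, u⟩ := by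
  rw [pow_succ, pow_two]
  ext1
  · simp
  · simp [h]

private theorem sd_tk (v : M) (t a b : U) (ha : a * a = 1) (hb : b * b = 1) :
    tk (⟨v, 1⟩ : SD φ) ⟨0, t⟩ ⟨0, a⟩ ⟨0, b⟩
      = ⟨((v - φ t v) - φ a (v - φ t v)) - φ b ((v - φ t v) - φ a (v - φ t v)), 1⟩ := by
  rw [tk, sd_cm, sd_pow3 φ a ha, sd_pow3 φ b hb, sd_cm, sd_cm]

end

/-- the generators -/
private def gg (N n : ℕ) (k : ℕ) : GamN N n :=
  if k % 3 = 0 then (if h : k / 3 < N then ⟨unitVec ⟨k / 3, h⟩, 1⟩ else 1)
  else if k % 3 = 1 then ⟨0, (1, Multiplicative.ofAdd 1)⟩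
  else (if h : k / 3 < n then ⟨0, (Multiplicative.ofAdd (dl ⟨k / 3, h⟩), 1)⟩ else 1)

private theorem gg_zero {N n : ℕ} (i : Fin N) : gg N n (3 * i.val) = ⟨unitVec i, 1⟩ := by
  have h0 : 3 * i.val % 3 = 0 := by omega
  have h1 : 3 * i.val / 3 = i.val := by omega
  rw [gg, if_pos h0]
  simp only [h1]
  rw [dif_pos i.isLt]

private theorem gg_one {N n : ℕ} (i : Fin N) :
    gg N n (3 * i.val + 1) = ⟨0, (1, Multiplicative.ofAdd 1)⟩ := by
  have h0 : ¬ (3 * i.val + 1) % 3 = 0 := by omega
  have h1 : (3 * i.val + 1) % 3 = 1 := by omega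
  rw [gg, if_neg h0, if_pos h1]

private theorem gg_two {N n : ℕ} (a : Fin n) :
    gg N n (3 * a.val + 2) = ⟨0, (Multiplicative.ofAdd (dl a), 1)⟩ := by
  have h0 : ¬ (3 * a.val + 2) % 3 = 0 := by omega
  have h1 : ¬ (3 * a.val + 2) % 3 = 1 := by omega
  have h2 : (3 * a.val + 2) / 3 = a.val := by omega
  rw [gg, if_neg h0, if_neg h1]
  simp only [h2]
  rw [dif_pos a.isLt]

/-- the vector of a token -/
private def tv {N n : ℕ} (i : Fin N) (a b : Fin n) : Fin N → C3 → RR n :=
  let v : Fin N → C3 → RR n := unitVec i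
  let v1 := v - act (Fin N) (tauHom n) (1, Multiplicative.ofAdd 1) v
  let v2 := v1 - act (Fin N) (tauHom n) (Multiplicative.ofAdd (dl a), 1) v1
  v2 - act (Fin N) (tauHom n) (Multiplicative.ofAdd (dl b), 1) v2

private theorem dl_sq {n : ℕ} (a : Fin n) :
    ((Multiplicative.ofAdd (dl a), 1) : Multiplicative (Fin n → ZMod 2) × C3)
      * (Multiplicative.ofAdd (dl a), 1) = 1 := by
  refine Prod.ext ?_ ?_
  · change Multiplicative.ofAdd (dl a + dl a) = Multiplicative.ofAdd 0
    congr 1
    funext j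
    exact CharTwo.add_self_eq_zero _
  · simp

private theorem phi_tw {N n : ℕ} (i : Fin N) (p : Fin n × Fin n) :
    FreeGroup.lift (gg N n) (tw i p) = ⟨tv i p.1 p.2, 1⟩ := by
  have h : FreeGroup.lift (gg N n) (tw i p)
      = tk (gg N n (3 * i.val)) (gg N n (3 * i.val + 1)) (gg N n (3 * p.1.val + 2))
          (gg N n (3 * p.2.val + 2)) := by
    simp only [tw, tk, cm, map_mul, map_inv, map_pow, FreeGroup.lift_apply_of]
  rw [h, gg_zero, gg_one, gg_two, gg_two, sd_tk _ _ _ _ _ (dl_sq _) (dl_sq _)]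
  rfl

private theorem tv_one {N n : ℕ} (i : Fin N) (a b : Fin n) (j : Fin N) :
    (tv i a b j 1).c = if j = i then dot (dl a) (dl b) else 0 := by
  have hne : ¬ ((Multiplicative.ofAdd (1 : ZMod 3))⁻¹ * (1 : C3) = 1) := by decide
  have h1 : tv i a b j 1
      = (1 - tau (dl b)) * ((1 - tau (dl a)) * ((if j = i then 1 else 0) : RR n)) := by
    simp only [tv, Pi.sub_apply, act_apply, inv_one, one_mul, unitVec, and_true]
    have h2 : (if j = i ∧ (Multiplicative.ofAdd (1 : ZMod 3))⁻¹ * (1 : C3) = 1 then (1 : RR n)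
        else 0) = 0 := if_neg fun h => hne h.2
    rw [h2]
    simp only [tauHom, MonoidHom.coe_mk, OneHom.coe_mk, toAdd_ofAdd]
    ring
  rw [h1]
  by_cases hj : j = i
  · rw [if_pos hj, if_pos hj]
    funext e
    have hs : ∀ w : Fin n → ZMod 2, (1 - tau w).a = 0 := by
      intro w
      rw [sub_eq_add_neg, RR.add_a, RR.neg_a]
      exact add_neg_cancel (1 : ZMod 2)
    have hb : ∀ w : Fin n → ZMod 2, (1 - tau w).b = w := by
      intro w
      rw [sub_eq_add_neg]
      funext u
      simp [tau, ZMod.neg_eq_self_mod_two]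
    rw [mul_one, RR.mul_c, hs, hs, hb, hb, dot]
    ring
  · rw [if_neg hj, if_neg hj]
    simp

private theorem c_sum {n K : ℕ} (g : Fin K → RR n) : (∑ i, g i).c = ∑ i, (g i).c := by
  let f : RR n →+ (Ed n → ZMod 2) :=
    { toFun := fun x => x.c
      map_zero' := rfl
      map_add' := fun _ _ => rfl }
  exact map_sum f g _

private theorem ff_prod {N n : ℕ} (Al : (Ed n → ZMod 2) [⋀^Fin N]→ₗ[ZMod 2] ZMod 2)
    (p : Fin N → Fin n × Fin n) (b : Fin N → Bool) :
    ff Al (FreeGroup.lift (gg N n)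
        ((List.ofFn fun i => if b i = true then tw i (p i) else 1).prod))
      = if (∀ i, b i = true) then Al (fun i => dot (dl (p i).1) (dl (p i).2)) else 0 := by
  have h1 : FreeGroup.lift (gg N n)
      ((List.ofFn fun i => if b i = true then tw i (p i) else 1).prod)
      = ⟨∑ i, if b i = true then tv i (p i).1 (p i).2 else 0, 1⟩ := by
    rw [map_list_prod, List.map_ofFn, ← sd_prod]
    congr 2
    funext i
    change FreeGroup.lift (gg N n) (if b i = true then tw i (p i) else 1) = _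
    split_ifs
    · exact phi_tw i (p i)
    · rw [map_one]
      rfl
  rw [h1, ff]
  have h2 : (fun i => ((∑ l, if b l = true then tv l (p l).1 (p l).2 else 0) i 1).c)
      = fun i => if b i = true then dot (dl (p i).1) (dl (p i).2) else 0 := by
    funext i
    rw [Finset.sum_apply, Finset.sum_apply, c_sum]
    have h3 : ∀ l, ((if b l = true then tv l (p l).1 (p l).2 else 0 : Fin N → C3 → RR n) i 1).c
        = if i = l then (if b l = true then dot (dl (p l).1) (dl (p l).2) else 0) else 0 := by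
      intro l
      split_ifs with hb hi hi
      · rw [tv_one, if_pos hi]
      · rw [tv_one, if_neg hi]
      · rfl
      · rfl
    rw [Finset.sum_congr rfl fun l _ => h3 l, Finset.sum_ite_eq]
    simp
  rw [h2]
  by_cases hall : ∀ i, b i = true
  · rw [if_pos hall]
    congr 1
    funext i
    rw [if_pos (hall i)]
  · rw [if_neg hall]
    push Not at hall
    obtain ⟨i, hi⟩ := hall
    refine Al.map_coord_zero i ?_
    rw [if_neg hi]

/-- Value of the function `f` on `uu L` for a suitable homomorphism `F → Γ_N`. -/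
theorem globP {N n : ℕ} (Al : (Ed n → ZMod 2) [⋀^Fin N]→ₗ[ZMod 2] ZMod 2)
    (L : List (ℤ × (Fin N → Fin n × Fin n))) :
    ∃ φ : FreeGroup ℕ →* GamN N n,
      ((uu L).sum fun w c => c • ff Al (φ w))
        = (L.map fun p => ((p.1 : ℤ) : ZMod 2)
            * Al (fun i => dot (dl (p.2 i).1) (dl (p.2 i).2))).sum := by
  refine ⟨FreeGroup.lift (gg N n), ?_⟩
  have h := evH_eq (fun w => ff Al (FreeGroup.lift (gg N n) w)) (uu L)
  rw [← h, uu, map_list_sum, List.map_map]
  congr 1
  refine List.map_congr_left fun p _ => ?_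
  change evH _ (p.1 • Du N fun i => tw i (p.2 i)) = _
  rw [map_zsmul, zsmul_eq_mul]
  congr 1
  exact ev_Du N _ _ _ fun b => ff_prod Al p.2 b

end Pool.Agent.NFB
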