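/-
NFB-GlobQ.  The element `uu L` acts as zero on `Z[Q]`: in `Q` a token is `1` or an element independent of its pair of indices.
-/
import Pool.Agent.NFB.Defs
import Pool.Agent.HBL.Crit

set_option autoImplicit false

namespace Pool.Agent.NFB

section general

variable {P B : Type} [Group P] [AddCommGroup B] [DistribMulAction P B]

private lemma ev_sub_left (φ : HBL.F →* P) (u v : HBL.F →₀ ℤ) (b : B) :
    HBL.ev φ (u - v) b = HBL.ev φ u b - HBL.ev φ v b := by
  simp only [HBL.ev]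
  rw [Finsupp.sum_sub_index]
  intro a c d
  rw [sub_smul]

private lemma ev_add_left (φ : HBL.F →* P) (u v : HBL.F →₀ ℤ) (b : B) :
    HBL.ev φ (u + v) b = HBL.ev φ u b + HBL.ev φ v b := by
  classical
  simp only [HBL.ev]
  rw [Finsupp.sum_add_index']
  · intro a
    rw [zero_smul]
  · intro a c d
    rw [add_smul]

private lemma ev_zero_left (φ : HBL.F →* P) (b : B) :
    HBL.ev φ (0 : HBL.F →₀ ℤ) b = 0 := by
  simp only [HBL.ev]
  rw [Finsupp.sum_zero_index]

private lemma ev_smul_left (φ : HBL.F →* P) (k : ℤ) (u : HBL.F →₀ ℤ) (b : B) :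
    HBL.ev φ (k • u) b = k • HBL.ev φ u b := by
  simp only [HBL.ev]
  rw [Finsupp.sum_smul_index']
  · rw [Finsupp.smul_sum]
    refine Finsupp.sum_congr fun w _ => ?_
    rw [smul_assoc]
  · intro a
    rw [zero_smul]

private lemma ev_mapDomain (φ : HBL.F →* P) (g : HBL.F) (u : HBL.F →₀ ℤ) (b : B) :
    HBL.ev φ (Finsupp.mapDomain (fun w => g * w) u) b = φ g • HBL.ev φ u b := by
  simp only [HBL.ev]
  rw [Finsupp.sum_mapDomain_index]
  · rw [Finsupp.sum, Finsupp.sum, Finset.smul_sum]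
    refine Finset.sum_congr rfl fun w _ => ?_
    rw [map_mul, mul_smul, smul_comm]
  · intro a
    rw [zero_smul]
  · intro a c d
    rw [add_smul]

/-- `(1 - h_0)(1 - h_1)...(1 - h_{N-1}) b` -/
private def dd : (N : ℕ) → (Fin N → P) → B → B
  | 0, _, b => b
  | N + 1, h, b => dd N (fun i => h i.succ) b - h 0 • dd N (fun i => h i.succ) b

private lemma ev_Du (φ : HBL.F →* P) (b : B) : ∀ (N : ℕ) (τ : Fin N → HBL.F),
    HBL.ev φ (Du N τ) b = dd N (fun i => φ (τ i)) b
  | 0, τ => by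
    simp only [Du, dd, HBL.ev]
    rw [Finsupp.sum_single_index]
    · rw [map_one, one_smul, one_smul]
    · rw [zero_smul]
  | N + 1, τ => by
    have ih := ev_Du φ b N (fun i => τ i.succ)
    simp only [Du, dd]
    rw [ev_sub_left, ev_mapDomain, ih]

private lemma dd_zero (b : B) : ∀ (N : ℕ) (h : Fin N → P) (i : Fin N), h i = 1 → dd N h b = 0
  | 0, _, i, _ => i.elim0
  | N + 1, h, i, hi => by
    simp only [dd]
    induction i using Fin.cases with
    | zero => rw [hi, one_smul, sub_self]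
    | succ j =>
      rw [dd_zero b N (fun i => h i.succ) j hi, smul_zero, sub_zero]

private lemma map_cm {K K' : Type} [Group K] [Group K'] (f : K →* K') (a b : K) :
    f (cm a b) = cm (f a) (f b) := by
  simp only [cm, map_mul, map_inv]

private lemma map_tk {K K' : Type} [Group K] [Group K'] (f : K →* K') (z t a b : K) :
    f (tk z t a b) = tk (f z) (f t) (f a) (f b) := by
  simp only [tk, map_cm, map_pow]

end general

section QQ

private lemma unit_a (u : EEˣ) : (u : EE).a = 1 := by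
  have h : ((u : EE) * ((u⁻¹ : EEˣ) : EE)).a = 1 := by
    rw [Units.mul_inv]
    rfl
  rw [EE.mul_a] at h
  have h2 : ∀ x y : ZMod 2, x * y = 1 → x = 1 := by decide
  exact h2 _ _ h

private lemma unit_cube (u : EEˣ) : ((u ^ 3 : EEˣ) : EE) = u := by
  have ha := unit_a u
  rw [Units.val_pow_eq_pow_val, pow_succ, pow_two]
  have h2 : ∀ x : ZMod 2, x + x = 0 := by decide
  ext
  · simp [ha]
  · simp only [EE.mul_b1, EE.mul_a, ha]
    linear_combination h2 (u : EE).b1
  · simp only [EE.mul_b2, EE.mul_a, ha]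
    linear_combination h2 (u : EE).b2
  · simp only [EE.mul_c, EE.mul_a, EE.mul_b1, EE.mul_b2, ha]
    linear_combination h2 (u : EE).c + 3 * h2 ((u : EE).b1 * (u : EE).b2)

private lemma c3_cube (c : C3) : c ^ 3 = 1 := by
  have h : ∀ x : ZMod 3, 3 • x = 0 := by decide
  exact h (Multiplicative.toAdd c)

private lemma cm_u (z t : QQ) : (cm z t).u = 1 := by
  simp only [cm, SD.mul_u, SD.inv_u]
  rw [mul_comm z.u t.u]
  group

private lemma cm_m (x Y : QQ) (hx : x.u = 1) :
    (cm x Y).m = x.m - act Unit (Units.coeHom EE) Y.u x.m := by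
  have h1 : act Unit (Units.coeHom EE) Y.u (act Unit (Units.coeHom EE) Y.u⁻¹ Y.m) = Y.m := by
    have := congrArg (fun f : AddMonoid.End (Unit → C3 → EE) => f Y.m)
      ((map_mul (act Unit (Units.coeHom EE)) Y.u Y.u⁻¹).symm)
    simp only [mul_inv_cancel, map_one] at this
    exact this
  simp only [cm, SD.mul_m, SD.mul_u, SD.inv_m, SD.inv_u, hx, inv_one, map_one, one_mul, mul_one,
    AddMonoid.End.coe_one, id_eq, map_neg]
  rw [h1]
  abel

private lemma cube_act (Y : QQ) (m : Unit → C3 → EE) :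
    act Unit (Units.coeHom EE) (Y ^ 3).u m = fun i c => (Y.u.1 : EE) * m i c := by
  have hu : (Y ^ 3).u = Y.u ^ 3 := map_pow (SD.proj (act Unit (Units.coeHom EE))) Y 3
  funext i c
  rw [hu, act_apply]
  have h1 : (Y.u ^ 3).1 = Y.u.1 ^ 3 := rfl
  have h2 : (Y.u ^ 3).2 = Y.u.2 ^ 3 := rfl
  rw [h1, h2, c3_cube, inv_one, one_mul, Units.coeHom_apply, unit_cube]

/-- the vector in `F_2^2` of an element of `Q` -/
private def et (Y : QQ) : ZMod 2 × ZMod 2 := ((Y.u.1 : EE).b1, (Y.u.1 : EE).b2)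

/-- the central element -/
private def hh (z t : QQ) : QQ := ⟨fun i c => ⟨0, 0, 0, ((cm z t).m i c).a⟩, 1⟩

private lemma tk_m (z t a b : QQ) :
    tk z t a b = ⟨fun i c => ⟨0, 0, 0, br (et a) (et b) * ((cm z t).m i c).a⟩, 1⟩ := by
  have h1 : (cm z t).u = 1 := cm_u z t
  have h2 : (cm (cm z t) (a ^ 3)).u = 1 := cm_u _ _
  have h3 : (tk z t a b).u = 1 := cm_u _ _
  refine SD.ext ?_ h3
  have ha := unit_a a.u.1
  have hb := unit_a b.u.1
  funext i c
  unfold tk
  rw [cm_m _ _ h2, cm_m _ _ h1, cube_act, cube_act]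
  change ((cm z t).m i c - (a.u.1 : EE) * (cm z t).m i c)
    - (b.u.1 : EE) * ((cm z t).m i c - (a.u.1 : EE) * (cm z t).m i c) = _
  rw [sub_eq_add_neg, sub_eq_add_neg]
  ext
  · simp only [EE.add_a, EE.neg_a, EE.mul_a, ha, hb]
    ring
  · simp only [EE.add_b1, EE.neg_b1, EE.mul_b1, EE.add_a, EE.neg_a, EE.mul_a, ha, hb]
    ring
  · simp only [EE.add_b2, EE.neg_b2, EE.mul_b2, EE.add_a, EE.neg_a, EE.mul_a, ha, hb]
    ring
  · simp only [EE.add_c, EE.neg_c, EE.mul_c, EE.add_b1, EE.neg_b1, EE.mul_b1, EE.add_b2,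
      EE.neg_b2, EE.mul_b2, EE.add_a, EE.neg_a, EE.mul_a, ha, hb, br, et]
    ring

end QQ

/-- The element `uu L` acts as zero on `Z[Q]` under every homomorphism `F → Q`. -/
theorem globQ {N n : ℕ} (L : List (ℤ × (Fin N → Fin n × Fin n)))
    (hL : ∀ c : Fin n → ZMod 2 × ZMod 2,
      (L.map fun p => p.1 * ∏ i, brZ (c (p.2 i).1) (c (p.2 i).2)).sum = 0) :
    HBL.Kills QQ (RegM QQ) (uu L) := by
  intro φ a
  let η : Fin n → ZMod 2 × ZMod 2 := fun v => et (φ (FreeGroup.of (3 * v.val + 2)))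
  let h : Fin N → QQ := fun i =>
    hh (φ (FreeGroup.of (3 * i.val))) (φ (FreeGroup.of (3 * i.val + 1)))
  have h2 : ∀ x : ZMod 2, x ≠ 0 → x = 1 := by decide
  have key0 : ∀ (i : Fin N) (p : Fin n × Fin n), br (η p.1) (η p.2) = 0 → φ (tw i p) = 1 := by
    intro i p hp
    unfold tw
    rw [map_tk, tk_m]
    refine SD.ext ?_ rfl
    funext k c
    change (⟨0, 0, 0, br (η p.1) (η p.2) * _⟩ : EE) = 0
    rw [hp, zero_mul]
    rfl
  have key1 : ∀ (i : Fin N) (p : Fin n × Fin n), br (η p.1) (η p.2) ≠ 0 → φ (tw i p) = h i := by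
    intro i p hp
    unfold tw
    rw [map_tk, tk_m]
    refine SD.ext ?_ rfl
    funext k c
    change (⟨0, 0, 0, br (η p.1) (η p.2) * _⟩ : EE) = ⟨0, 0, 0, _⟩
    rw [h2 _ hp, one_mul]
  have key : ∀ q : Fin N → Fin n × Fin n,
      HBL.ev φ (Du N (fun i => tw i (q i))) a
        = (∏ i, brZ (η (q i).1) (η (q i).2)) • dd N h a := by
    intro q
    rw [ev_Du]
    by_cases hq : ∃ i, br (η (q i).1) (η (q i).2) = 0
    · obtain ⟨i, hi⟩ := hq
      rw [dd_zero a N (fun i => φ (tw i (q i))) i (key0 i (q i) hi),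
        Finset.prod_eq_zero (Finset.mem_univ i) (by rw [brZ, if_pos hi]), zero_smul]
    · push Not at hq
      have e1 : (fun i => φ (tw i (q i))) = h := funext fun i => key1 i (q i) (hq i)
      rw [e1, Finset.prod_eq_one (fun i _ => by rw [brZ, if_neg (hq i)]), one_smul]
  have main : HBL.ev φ (uu L) a
      = (L.map fun p => p.1 * ∏ i, brZ (η (p.2 i).1) (η (p.2 i).2)).sum • dd N h a := by
    unfold uu
    clear hL
    induction L with
    | nil =>
      rw [List.map_nil, List.map_nil, List.sum_nil, List.sum_nil, ev_zero_left, zero_smul]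
    | cons p L ih =>
      rw [List.map_cons, List.map_cons, List.sum_cons, List.sum_cons, ev_add_left, ih, add_smul,
        ev_smul_left, key, smul_smul]
  rw [main, hL η, zero_smul]

end Pool.Agent.NFB
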