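import Mathlib

set_option autoImplicit false

/-!
The exact integer relation: a signed list of edge families whose
colouring products cancel for every colouring.
-/

namespace Pool.Agent.NFB

/-- A state of the construction: sign, current vertex, end vertex, finished edges. -/
structure St where
  /-- the sign -/
  sg : ℤ
  /-- the current vertex -/
  b : ℕ
  /-- the end vertex -/
  q : ℕ
  /-- the finished edges -/
  t : List (ℕ × ℕ)

/-- The edges of a state. -/
def St.edges (s : St) : List (ℕ × ℕ) := (s.b, s.q) :: s.t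

/-- The three ways to attach the vertex `a`. -/
def stp (a : ℕ) (s : St) : List St :=
  [⟨s.sg, a, s.q, (a, s.q) :: s.t⟩, ⟨s.sg, s.b, s.q, (a, s.b) :: s.t⟩,
    ⟨-s.sg, a, s.q, (a, s.b) :: s.t⟩]

/-- Attach the vertices `a, ..., a + m - 1`. -/
def expd : ℕ → ℕ → St → List St
  | 0, _, s => [s]
  | m + 1, a, s => (stp a s).flatMap (expd m (a + 1))

/-- The ten starting states. -/
def core : List St :=
  [⟨1, 1, 3, [(0, 1), (2, 4)]⟩, ⟨-1, 0, 3, [(1, 0), (2, 4)]⟩,
   ⟨1, 2, 4, [(1, 2), (3, 0)]⟩, ⟨-1, 1, 4, [(2, 1), (3, 0)]⟩,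
   ⟨1, 3, 0, [(2, 3), (4, 1)]⟩, ⟨-1, 2, 0, [(3, 2), (4, 1)]⟩,
   ⟨1, 4, 1, [(3, 4), (0, 2)]⟩, ⟨-1, 3, 1, [(4, 3), (0, 2)]⟩,
   ⟨1, 0, 2, [(4, 0), (1, 3)]⟩, ⟨-1, 4, 2, [(0, 4), (1, 3)]⟩]

/-- All final states for `N` rows. -/
def states (N : ℕ) : List St := core.flatMap (expd (N - 3) 5)

/-- A list of pairs of natural numbers as a family of pairs of vertices. -/
def toE (N : ℕ) (l : List (ℕ × ℕ)) (i : Fin N) : Fin (N + 2) × Fin (N + 2) :=
  (Fin.ofNat (N + 2) (l.getD i (0, 0)).1, Fin.ofNat (N + 2) (l.getD i (0, 0)).2)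

/-- The signed list of edge families. -/
def kappa (N : ℕ) : List (ℤ × (Fin N → Fin (N + 2) × Fin (N + 2))) :=
  (states N).map fun s => (s.sg, toE N s.edges)

/-- Invariants carry over from a property of one step. -/
theorem expd_ind (P : ℕ → St → Prop)
    (h : ∀ a s, P a s → ∀ s' ∈ stp a s, P (a + 1) s') :
    ∀ (m a : ℕ) (s : St), P a s → ∀ s' ∈ expd m a s, P (a + m) s' := by
  intro m
  induction m with
  | zero =>
    intro a s hs s' hs'
    simp only [expd, List.mem_singleton] at hs'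
    subst hs'
    simpa using hs
  | succ m ih =>
    intro a s hs s' hs'
    simp only [expd, List.mem_flatMap] at hs'
    obtain ⟨s1, h1, h2⟩ := hs'
    have := ih (a + 1) s1 (h a s hs s1 h1) s' h2
    rwa [show a + (m + 1) = a + 1 + m by omega]

/-- The sum over all states obtained from one state. -/
theorem expd_sum {M : Type} [AddCommMonoid M] (val : St → M)
    (h : ∀ a s, ((stp a s).map val).sum = val s) :
    ∀ (m a : ℕ) (s : St), ((expd m a s).map val).sum = val s := by
  intro m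
  induction m with
  | zero => intro a s; simp [expd]
  | succ m ih =>
    intro a s
    have h1 : ((expd (m + 1) a s).map val).sum =
        ((stp a s).map fun s' => ((expd m (a + 1) s').map val).sum).sum := by
      simp [expd, stp]
    rw [h1]
    simp only [ih]
    exact h a s

/-- Basic properties of all states with vertices below `a`. -/
def Bas (a : ℕ) (s : St) : Prop :=
  5 ≤ a ∧ s.t.length + 3 = a ∧ (∀ p ∈ s.t, p.1 < a ∧ p.2 < a) ∧ s.b < a ∧ s.q < a ∧
    (∀ v < a, v = s.q ∨ ∃ p ∈ s.t, v = p.1 ∨ v = p.2) ∧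
    (∃ p ∈ s.t, s.b = p.1 ∨ s.b = p.2)

theorem Bas_stp (a : ℕ) (s : St) (hs : Bas a s) (s' : St) (h' : s' ∈ stp a s) :
    Bas (a + 1) s' := by
  obtain ⟨h1, h2, h3, h4, h5, h6, h7⟩ := hs
  have key : ∀ s1 : St, s1.q = s.q → (∃ e : ℕ × ℕ, s1.t = e :: s.t ∧ e.1 = a ∧ e.2 < a) →
      (s1.b = a ∨ s1.b = s.b) → Bas (a + 1) s1 := by
    intro s1 hq ht hb
    obtain ⟨e, he, he1, he2⟩ := ht
    refine ⟨by omega, ?_, ?_, ?_, ?_, ?_, ?_⟩
    · rw [he]; simp only [List.length_cons]; omega
    · intro p hp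
      rw [he] at hp
      rcases List.mem_cons.1 hp with rfl | hp
      · constructor
        · omega
        · omega
      · have := h3 p hp
        constructor
        · omega
        · omega
    · rcases hb with hb | hb <;> rw [hb] <;> omega
    · rw [hq]; omega
    · intro v hv
      rcases Nat.lt_succ_iff_lt_or_eq.1 hv with hv | hv
      · rcases h6 v hv with h | ⟨p, hp, h⟩
        · left; rw [hq]; exact h
        · right; exact ⟨p, by rw [he]; exact List.mem_cons_of_mem _ hp, h⟩
      · right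
        exact ⟨e, by rw [he]; exact List.mem_cons_self, Or.inl (by rw [he1]; exact hv)⟩
    · rcases hb with hb | hb
      · exact ⟨e, by rw [he]; exact List.mem_cons_self, Or.inl (by rw [he1]; exact hb)⟩
      · obtain ⟨p, hp, h⟩ := h7
        exact ⟨p, by rw [he]; exact List.mem_cons_of_mem _ hp, by rw [hb]; exact h⟩
  simp only [stp, List.mem_cons, List.not_mem_nil, or_false] at h'
  rcases h' with rfl | rfl | rfl
  · exact key _ rfl ⟨_, rfl, rfl, h5⟩ (Or.inl rfl)
  · exact key _ rfl ⟨_, rfl, rfl, h4⟩ (Or.inr rfl)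
  · exact key _ rfl ⟨_, rfl, rfl, h4⟩ (Or.inl rfl)

theorem Bas_core (s : St) (hs : s ∈ core) : Bas 5 s := by
  simp only [core, List.mem_cons, List.not_mem_nil, or_false] at hs
  rcases hs with rfl | rfl | rfl | rfl | rfl | rfl | rfl | rfl | rfl | rfl <;>
  · refine ⟨le_refl _, rfl, ?_, by norm_num, by norm_num, ?_, ?_⟩
    · intro p hp
      simp only [List.mem_cons, List.not_mem_nil, or_false] at hp
      rcases hp with rfl | rfl <;> norm_num
    · intro v hv
      simp only [List.mem_cons, List.not_mem_nil, or_false, exists_eq_or_imp, exists_eq_left]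
      omega
    · simp

theorem Bas_states (N : ℕ) (hN : 3 ≤ N) (s : St) (hs : s ∈ states N) : Bas (N + 2) s := by
  simp only [states, List.mem_flatMap] at hs
  obtain ⟨c, hc, h⟩ := hs
  have := expd_ind Bas Bas_stp (N - 3) 5 c (Bas_core c hc) s h
  rwa [show 5 + (N - 3) = N + 2 by omega] at this

/-- Products over the family are products over the list. -/
theorem prod_toE {M : Type} [CommMonoid M] (N : ℕ) (l : List (ℕ × ℕ)) (h : l.length = N)
    (f : Fin (N + 2) × Fin (N + 2) → M) :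
    ∏ i, f (toE N l i) = (l.map fun p => f (Fin.ofNat (N + 2) p.1, Fin.ofNat (N + 2) p.2)).prod := by
  subst h
  rw [← Fin.prod_univ_fun_getElem]
  refine Finset.prod_congr rfl fun i _ => ?_
  simp [toE]

/-- Sums over the family are sums over the list. -/
theorem sum_toE {M : Type} [AddCommMonoid M] (N : ℕ) (l : List (ℕ × ℕ)) (h : l.length = N)
    (f : Fin (N + 2) × Fin (N + 2) → M) :
    ∑ i, f (toE N l i) = (l.map fun p => f (Fin.ofNat (N + 2) p.1, Fin.ofNat (N + 2) p.2)).sum := by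
  subst h
  rw [← Fin.sum_univ_fun_getElem]
  refine Finset.sum_congr rfl fun i _ => ?_
  simp [toE]

theorem edges_length (N : ℕ) (s : St) (hs : Bas (N + 2) s) : s.edges.length = N := by
  have := hs.2.1
  simp only [St.edges, List.length_cons]
  omega

/-- Every family of the list meets every vertex. -/
theorem kappa_cover (N : ℕ) (hN : 3 ≤ N) (x) (hx : x ∈ kappa N) (v : Fin (N + 2)) :
    ∃ i, (x.2 i).1 = v ∨ (x.2 i).2 = v := by
  simp only [kappa, List.mem_map] at hx
  obtain ⟨s, hs, rfl⟩ := hx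
  have hB := Bas_states N hN s hs
  have hl := edges_length N s hB
  obtain ⟨h1, h2, h3, h4, h5, h6, h7⟩ := hB
  have : ∃ p ∈ s.edges, v.val = p.1 ∨ v.val = p.2 := by
    rcases h6 v.val v.isLt with h | ⟨p, hp, h⟩
    · exact ⟨(s.b, s.q), List.mem_cons_self, Or.inr h⟩
    · exact ⟨p, List.mem_cons_of_mem _ hp, h⟩
  obtain ⟨p, hp, h⟩ := this
  obtain ⟨i, hi, rfl⟩ := List.mem_iff_getElem.1 hp
  refine ⟨⟨i, by omega⟩, ?_⟩
  simp only [toE]
  rw [List.getD_eq_getElem _ _ hi]
  rcases h with h | h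
  · left; rw [← h]; simp
  · right; rw [← h]; simp

/-- The relation for all symmetric idempotent `T` with the telescoping identity. -/
theorem kappa_rel_gen (N : ℕ) (hN : 3 ≤ N) (T : Fin (N + 2) → Fin (N + 2) → ℤ)
    (hs : ∀ a b, T a b = T b a) (hi : ∀ a b, T a b * T a b = T a b)
    (ht : ∀ a b c, T a b * (T b c - T a c) = T b c - T a c) :
    ((kappa N).map fun x => x.1 * ∏ i, T (x.2 i).1 (x.2 i).2).sum = 0 := by
  let val : St → ℤ := fun s =>
    s.sg * (s.edges.map fun p => T (Fin.ofNat (N + 2) p.1) (Fin.ofNat (N + 2) p.2)).prod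
  have h1 : ((kappa N).map fun x => x.1 * ∏ i, T (x.2 i).1 (x.2 i).2) =
      (states N).map val := by
    rw [kappa, List.map_map]
    refine List.map_congr_left fun s hs => ?_
    have hB := Bas_states N hN s hs
    have := prod_toE N s.edges (edges_length N s hB) (fun p => T p.1 p.2)
    simp only [Function.comp_apply, val]
    rw [this]
  have h2 : ∀ a s, ((stp a s).map val).sum = val s := by
    intro a s
    simp only [stp, val, St.edges, List.map_cons, List.map_nil, List.prod_cons, List.sum_cons,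
      List.sum_nil]
    set P := (s.t.map fun p => T (Fin.ofNat (N + 2) p.1) (Fin.ofNat (N + 2) p.2)).prod
    have e1 := hi (Fin.ofNat (N + 2) a) (Fin.ofNat (N + 2) s.q)
    have e2 := ht (Fin.ofNat (N + 2) a) (Fin.ofNat (N + 2) s.b) (Fin.ofNat (N + 2) s.q)
    linear_combination (s.sg * P) * e1 + (s.sg * P) * e2
  rw [h1, states]
  have h3 : (((core.flatMap (expd (N - 3) 5))).map val).sum =
      (core.map fun c => ((expd (N - 3) 5 c).map val).sum).sum := by
    simp [core]
  rw [h3]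
  simp only [expd_sum val h2]
  simp only [core, val, St.edges, List.map_cons, List.map_nil, List.prod_cons, List.sum_cons,
    List.sum_nil, List.prod_nil]
  have t0 := ht (Fin.ofNat (N + 2) 0) (Fin.ofNat (N + 2) 1) (Fin.ofNat (N + 2) 3)
  have t1 := ht (Fin.ofNat (N + 2) 1) (Fin.ofNat (N + 2) 2) (Fin.ofNat (N + 2) 4)
  have t2 := ht (Fin.ofNat (N + 2) 2) (Fin.ofNat (N + 2) 3) (Fin.ofNat (N + 2) 0)
  have t3 := ht (Fin.ofNat (N + 2) 3) (Fin.ofNat (N + 2) 4) (Fin.ofNat (N + 2) 1)
  have t4 := ht (Fin.ofNat (N + 2) 4) (Fin.ofNat (N + 2) 0) (Fin.ofNat (N + 2) 2)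
  generalize hv0 : (Fin.ofNat (N + 2) 0) = v0 at *
  generalize hv1 : (Fin.ofNat (N + 2) 1) = v1 at *
  generalize hv2 : (Fin.ofNat (N + 2) 2) = v2 at *
  generalize hv3 : (Fin.ofNat (N + 2) 3) = v3 at *
  generalize hv4 : (Fin.ofNat (N + 2) 4) = v4 at *
  clear hv0 hv1 hv2 hv3 hv4 h1 h2 h3
  simp only [hs v1 v0, hs v2 v1, hs v3 v2, hs v4 v3, hs v4 v0, hs v2 v0, hs v3 v0, hs v4 v1,
    hs v4 v2, hs v3 v1] at t0 t1 t2 t3 t4 ⊢
  linear_combination T v2 v4 * t0 + T v0 v3 * t1 + T v1 v4 * t2 + T v0 v2 * t3 + T v1 v3 * t4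

/-- The relation for colourings. -/
theorem kappa_rel {α : Type} [DecidableEq α] (N : ℕ) (hN : 3 ≤ N) (c : Fin (N + 2) → α) :
    ((kappa N).map fun x => x.1 *
      ∏ i, (if c (x.2 i).1 = c (x.2 i).2 then (0 : ℤ) else 1)).sum = 0 := by
  refine kappa_rel_gen N hN (fun u v => if c u = c v then (0 : ℤ) else 1) ?_ ?_ ?_
  · intro a b
    simp only [eq_comm]
  · intro a b
    split_ifs <;> simp
  · intro a b d
    by_cases h : c a = c b
    · simp [h]
    · simp [h]

/-- The bracket on `F_2^2` as an integer. -/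
def brK (x y : ZMod 2 × ZMod 2) : ℤ := if x.1 * y.2 + x.2 * y.1 = 0 then 0 else 1

/-- The relation for the bracket. -/
theorem kappa_rel_br (N : ℕ) (hN : 3 ≤ N) (c : Fin (N + 2) → ZMod 2 × ZMod 2) :
    ((kappa N).map fun x => x.1 * ∏ i, brK (c (x.2 i).1) (c (x.2 i).2)).sum = 0 := by
  by_cases hc : ∀ v, c v ≠ 0
  · rw [← kappa_rel N hN c]
    congr 1
    refine List.map_congr_left fun x _ => ?_
    congr 1
    refine Finset.prod_congr rfl fun i _ => ?_
    have key : ∀ p q : ZMod 2 × ZMod 2, p ≠ 0 → q ≠ 0 →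
        brK p q = if p = q then (0 : ℤ) else 1 := by decide
    exact key _ _ (hc _) (hc _)
  · push Not at hc
    obtain ⟨v, hv⟩ := hc
    have : ((kappa N).map fun x => x.1 * ∏ i, brK (c (x.2 i).1) (c (x.2 i).2)) =
        (kappa N).map fun _ => (0 : ℤ) := by
      refine List.map_congr_left fun x hx => ?_
      obtain ⟨i, hi⟩ := kappa_cover N hN x hx v
      rw [Finset.prod_eq_zero (Finset.mem_univ i), mul_zero]
      rcases hi with hi | hi
      · rw [hi, hv]; simp [brK]
      · rw [hi, hv]; simp [brK]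
    rw [this]
    simp

end Pool.Agent.NFB
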