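import Pool.Agent.NFB.Cw
import Pool.Agent.NFB.Kap

set_option autoImplicit false

/-!
The functional `F0` has odd value on the exact relation.
-/

namespace Pool.Agent.NFB

open Finset

/-- product of the linear forms of a list of edges -/
def pr (A : ℕ → ZMod 2) (l : List (ℕ × ℕ)) : ZMod 2 := (l.map fun p => A p.1 + A p.2).prod

/-- degree in a list of edges -/
def dg (l : List (ℕ × ℕ)) (v : ℕ) : ℕ :=
  (l.map fun p => (if p.1 = v then 1 else 0) + (if p.2 = v then 1 else 0)).sum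

theorem pr_cons (A : ℕ → ZMod 2) (p : ℕ × ℕ) (l : List (ℕ × ℕ)) :
    pr A (p :: l) = (A p.1 + A p.2) * pr A l := by simp [pr]

theorem dg_cons (p : ℕ × ℕ) (l : List (ℕ × ℕ)) (v : ℕ) :
    dg (p :: l) v = (if p.1 = v then 1 else 0) + (if p.2 = v then 1 else 0) + dg l v := by
  simp [dg]

theorem pr_nil (A : ℕ → ZMod 2) : pr A [] = 1 := by simp [pr]

theorem dg_nil (v : ℕ) : dg [] v = 0 := by simp [dg]

theorem edges_lt (N : ℕ) (s : St) (hB : Bas (N + 2) s) :
    ∀ p ∈ s.edges, p.1 < N + 2 ∧ p.2 < N + 2 := by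
  intro p hp
  rcases List.mem_cons.1 hp with rfl | hp
  · exact ⟨hB.2.2.2.1, hB.2.2.2.2.1⟩
  · exact hB.2.2.1 p hp

theorem ofNat_eq_iff (N x : ℕ) (v : Fin (N + 2)) (hx : x < N + 2) :
    Fin.ofNat (N + 2) x = v ↔ x = v.val := by
  constructor
  · intro h
    rw [← h]
    simp [Fin.ofNat, Nat.mod_eq_of_lt hx]
  · intro h
    subst h
    exact Fin.ext (Nat.mod_eq_of_lt hx)

theorem deg_toE (N : ℕ) (s : St) (hB : Bas (N + 2) s) (v : Fin (N + 2)) :
    deg (toE N s.edges) v = dg s.edges v.val := by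
  unfold deg
  rw [sum_toE N s.edges (edges_length N s hB)
    (fun p => (if p.1 = v then 1 else 0) + (if p.2 = v then 1 else 0))]
  unfold dg
  congr 1
  refine List.map_congr_left fun p hp => ?_
  have h := edges_lt N s hB p hp
  simp only [ofNat_eq_iff N _ v h.1, ofNat_eq_iff N _ v h.2]

theorem ryser_toE (N : ℕ) (s : St) (hB : Bas (N + 2) s) (x y : Fin (N + 2)) :
    ryser (toE N s.edges) x y =
      ∑ a : Fin (N + 2) → ZMod 2,
        a x * a y * pr (fun k => a (Fin.ofNat (N + 2) k)) s.edges := by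
  unfold ryser
  refine Finset.sum_congr rfl fun a _ => ?_
  rw [prod_toE N s.edges (edges_length N s hB) (fun p => a p.1 + a p.2)]
  rfl

/-- The last edge depends on the others. -/
def D1 (s : St) : Prop :=
  ∃ c : ZMod 2, ∀ A : ℕ → ZMod 2, (A s.b + A s.q) * pr A s.t = c * pr A s.t

/-- The value of the functional on a state. -/
def GG (N : ℕ) (s : St) : ZMod 2 := F0 N (toE N s.edges)

theorem GG_eq_zero (N : ℕ) (s : St) (hB : Bas (N + 2) s)
    (h : ∀ k, 1 ≤ k → (∀ v : Fin (N + 2), 1 ≤ dg s.edges v.val ∧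
      (2 ≤ dg s.edges v.val ↔ v.val < k)) →
      ∑ a : Fin (N + 2) → ZMod 2, a (Fin.ofNat (N + 2) (k - 1)) * a (Fin.ofNat (N + 2) k) *
        pr (fun k => a (Fin.ofNat (N + 2) k)) s.edges = 0) : GG N s = 0 := by
  unfold GG F0
  refine Finset.sum_eq_zero fun k hk => ?_
  split_ifs with hc
  · rw [ryser_toE N s hB]
    refine h k (Finset.mem_Icc.1 hk).1 fun v => ?_
    have := hc v
    rwa [deg_toE N s hB v] at this
  · rfl

theorem GG_D1 (N : ℕ) (s : St) (hB : Bas (N + 2) s) (h : D1 s) : GG N s = 0 := by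
  refine GG_eq_zero N s hB fun k _ _ => ?_
  obtain ⟨c, hc⟩ := h
  have h1 : ∀ a : Fin (N + 2) → ZMod 2,
      a (Fin.ofNat (N + 2) (k - 1)) * a (Fin.ofNat (N + 2) k) *
        pr (fun k => a (Fin.ofNat (N + 2) k)) s.edges =
      c * ((∏ t : Fin 2, a (![Fin.ofNat (N + 2) (k - 1), Fin.ofNat (N + 2) k] t)) *
        ∏ i : Fin s.t.length, (a (Fin.ofNat (N + 2) (s.t[i.1]).1) +
          a (Fin.ofNat (N + 2) (s.t[i.1]).2))) := by
    intro a
    have h2 := hc (fun k => a (Fin.ofNat (N + 2) k))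
    rw [St.edges, pr_cons]
    simp only at h2 ⊢
    rw [h2]
    have h3 : pr (fun k => a (Fin.ofNat (N + 2) k)) s.t =
        ∏ i : Fin s.t.length, (a (Fin.ofNat (N + 2) (s.t[i.1]).1) +
          a (Fin.ofNat (N + 2) (s.t[i.1]).2)) := by
      rw [pr, ← Fin.prod_univ_fun_getElem]
    rw [← h3, Fin.prod_univ_two]
    simp only [Matrix.cons_val_zero, Matrix.cons_val_one]
    ring
  simp only [h1]
  rw [← Finset.mul_sum]
  have h4 := sum_edges_lt (V := Fin (N + 2)) (κ := Fin s.t.length) (ι := Fin 2)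
    (fun i => (Fin.ofNat (N + 2) (s.t[i.1]).1, Fin.ofNat (N + 2) (s.t[i.1]).2))
    ![Fin.ofNat (N + 2) (k - 1), Fin.ofNat (N + 2) k] (by
      have := hB.2.1
      simp only [Fintype.card_fin]
      omega)
  simp only at h4
  rw [h4, mul_zero]

theorem GG_P0 (N : ℕ) (s : St) (hB : Bas (N + 2) s) (h : dg s.edges 0 ≤ 1) : GG N s = 0 := by
  refine GG_eq_zero N s hB fun k hk hv => ?_
  have := (hv 0).2
  simp only [Fin.val_zero] at this
  omega

theorem GG_P1 (N : ℕ) (s : St) (hB : Bas (N + 2) s) (h : dg s.edges 1 ≤ 1)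
    (h2 : ∃ v, 2 ≤ v ∧ v < N + 2 ∧ 2 ≤ dg s.edges v) : GG N s = 0 := by
  refine GG_eq_zero N s hB fun k hk hv => ?_
  obtain ⟨v, hv2, hvN, hvd⟩ := h2
  have e1 := (hv ⟨v, hvN⟩).2
  have e2 := (hv ⟨1, by omega⟩).2
  simp only at e1 e2
  omega

theorem GG_P2 (N : ℕ) (s : St) (hB : Bas (N + 2) s) (h : dg s.edges 1 ≤ 1)
    (h2 : (1, 0) ∈ s.t) : GG N s = 0 := by
  refine GG_eq_zero N s hB fun k hk hv => ?_
  have e2 := (hv ⟨1, by omega⟩).2
  simp only at e2
  have hk1 : k = 1 := by omega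
  subst hk1
  refine Finset.sum_eq_zero fun a _ => ?_
  have h3 : ∀ (l : List (ℕ × ℕ)), (1, 0) ∈ l → ∀ A : ℕ → ZMod 2,
      A 0 * A 1 * pr A l = 0 := by
    intro l hl A
    induction l with
    | nil => simp at hl
    | cons p l ih =>
      rw [pr_cons]
      rcases List.mem_cons.1 hl with hp | hp
      · rw [← hp]
        simp only
        have : ∀ x y z : ZMod 2, x * y * ((y + x) * z) = 0 := by decide
        exact this _ _ _
      · have := ih hp
        rw [mul_left_comm, this, mul_zero]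
  exact h3 s.edges (List.mem_cons_of_mem _ h2) (fun k => a (Fin.ofNat (N + 2) k))

/-! Invariants -/

theorem D1_stp (a : ℕ) (s : St) (h : D1 s) : ∀ s' ∈ stp a s, D1 s' := by
  obtain ⟨c, hc⟩ := h
  intro s' hs'
  simp only [stp, List.mem_cons, List.not_mem_nil, or_false] at hs'
  rcases hs' with rfl | rfl | rfl
  · refine ⟨1, fun A => ?_⟩
    simp only [pr_cons]
    have : ∀ x y : ZMod 2, x * (x * y) = 1 * (x * y) := by decide
    exact this _ _
  · refine ⟨c, fun A => ?_⟩
    simp only [pr_cons]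
    rw [mul_left_comm, hc A]
    ring
  · refine ⟨1 + c, fun A => ?_⟩
    simp only [pr_cons]
    have h1 := hc A
    have : ∀ x y z w c : ZMod 2, (y + z) * w = c * w →
        (x + z) * ((x + y) * w) = (1 + c) * ((x + y) * w) := by decide
    exact this _ _ _ _ _ h1

/-- The three alternatives for a step that is not of the first kind. -/
theorem stp_cases (a : ℕ) (s s' : St) (h : s' ∈ stp a s) :
    D1 s' ∨ (s'.q = s.q ∧ s'.t = (a, s.b) :: s.t ∧ (s'.b = s.b ∨ s'.b = a)) := by
  simp only [stp, List.mem_cons, List.not_mem_nil, or_false] at h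
  rcases h with rfl | rfl | rfl
  · left
    refine ⟨1, fun A => ?_⟩
    simp only [pr_cons]
    have : ∀ x y : ZMod 2, x * (x * y) = 1 * (x * y) := by decide
    exact this _ _
  · right; exact ⟨rfl, rfl, Or.inl rfl⟩
  · right; exact ⟨rfl, rfl, Or.inr rfl⟩

/-- first invariant -/
def I0 (a : ℕ) (s : St) : Prop := 5 ≤ a ∧ (D1 s ∨ (s.b ≠ 0 ∧ dg s.edges 0 ≤ 1))

/-- second invariant -/
def I1 (a : ℕ) (s : St) : Prop := 5 ≤ a ∧ (D1 s ∨ (s.b ≠ 1 ∧ dg s.edges 1 ≤ 1 ∧
  ∃ v, 2 ≤ v ∧ v < a ∧ 2 ≤ dg s.t v + (if s.b = v then 1 else 0)))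

/-- third invariant -/
def I2 (a : ℕ) (s : St) : Prop := 5 ≤ a ∧ (D1 s ∨ (s.b ≠ 1 ∧ dg s.edges 1 ≤ 1 ∧
  (1, 0) ∈ s.t))

theorem dg_step (a u : ℕ) (s s' : St) (hu : s.b ≠ u) (ha : a ≠ u) (hq : s'.q = s.q)
    (ht : s'.t = (a, s.b) :: s.t) (hb : s'.b = s.b ∨ s'.b = a) :
    dg s'.edges u = dg s.edges u ∧ s'.b ≠ u := by
  simp only [St.edges, dg_cons, ht, hq]
  rcases hb with hb | hb
  · rw [hb]
    simp [hu, ha]
  · rw [hb]
    simp [hu, ha]

theorem I0_stp (a : ℕ) (s : St) (h : I0 a s) : ∀ s' ∈ stp a s, I0 (a + 1) s' := by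
  intro s' hs'
  obtain ⟨h5, h⟩ := h
  refine ⟨by omega, ?_⟩
  rcases h with h | ⟨h1, h2⟩
  · exact Or.inl (D1_stp a s h s' hs')
  · rcases stp_cases a s s' hs' with h | ⟨hq, ht, hb⟩
    · exact Or.inl h
    · right
      obtain ⟨e1, e2⟩ := dg_step a 0 s s' h1 (by omega) hq ht hb
      exact ⟨e2, by omega⟩

theorem I1_stp (a : ℕ) (s : St) (h : I1 a s) : ∀ s' ∈ stp a s, I1 (a + 1) s' := by
  intro s' hs'
  obtain ⟨h5, h⟩ := h
  refine ⟨by omega, ?_⟩
  rcases h with h | ⟨h1, h2, v, hv1, hv2, hv3⟩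
  · exact Or.inl (D1_stp a s h s' hs')
  · rcases stp_cases a s s' hs' with h | ⟨hq, ht, hb⟩
    · exact Or.inl h
    · right
      obtain ⟨e1, e2⟩ := dg_step a 1 s s' h1 (by omega) hq ht hb
      refine ⟨e2, by omega, v, hv1, by omega, ?_⟩
      rw [ht, dg_cons]
      simp only
      rcases hb with hb | hb
      · rw [hb]; omega
      · rw [hb]
        split_ifs at hv3 ⊢ <;> omega

theorem I2_stp (a : ℕ) (s : St) (h : I2 a s) : ∀ s' ∈ stp a s, I2 (a + 1) s' := by
  intro s' hs'
  obtain ⟨h5, h⟩ := h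
  refine ⟨by omega, ?_⟩
  rcases h with h | ⟨h1, h2, h3⟩
  · exact Or.inl (D1_stp a s h s' hs')
  · rcases stp_cases a s s' hs' with h | ⟨hq, ht, hb⟩
    · exact Or.inl h
    · right
      obtain ⟨e1, e2⟩ := dg_step a 1 s s' h1 (by omega) hq ht hb
      exact ⟨e2, by omega, by rw [ht]; exact List.mem_cons_of_mem _ h3⟩

theorem sum_zero_of (N : ℕ) (P : ℕ → St → Prop)
    (hP : ∀ a s, P a s → ∀ s' ∈ stp a s, P (a + 1) s')
    (hG : ∀ s, Bas (N + 2) s → P (N + 2) s → GG N s = 0)
    (m a : ℕ) (ha : a + m = N + 2) (s : St) (hB : Bas a s) (hs : P a s) :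
    ((expd m a s).map (GG N)).sum = 0 := by
  refine List.sum_eq_zero fun x hx => ?_
  obtain ⟨s', hs', rfl⟩ := List.mem_map.1 hx
  refine hG s' ?_ ?_
  · have := expd_ind Bas Bas_stp m a s hB s' hs'
    rwa [ha] at this
  · have := expd_ind P hP m a s hs s' hs'
    rwa [ha] at this

theorem sum_I0 (N m a : ℕ) (ha : a + m = N + 2) (s : St) (hB : Bas a s) (hs : I0 a s) :
    ((expd m a s).map (GG N)).sum = 0 := by
  refine sum_zero_of N I0 I0_stp (fun s hB h => ?_) m a ha s hB hs
  rcases h.2 with h | h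
  · exact GG_D1 N s hB h
  · exact GG_P0 N s hB h.2

theorem sum_I1 (N m a : ℕ) (ha : a + m = N + 2) (s : St) (hB : Bas a s) (hs : I1 a s) :
    ((expd m a s).map (GG N)).sum = 0 := by
  refine sum_zero_of N I1 I1_stp (fun s hB h => ?_) m a ha s hB hs
  rcases h.2 with h | ⟨h1, h2, v, hv1, hv2, hv3⟩
  · exact GG_D1 N s hB h
  · refine GG_P1 N s hB h2 ⟨v, hv1, hv2, ?_⟩
    rw [St.edges, dg_cons]
    simp only
    omega

theorem sum_I2 (N m a : ℕ) (ha : a + m = N + 2) (s : St) (hB : Bas a s) (hs : I2 a s) :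
    ((expd m a s).map (GG N)).sum = 0 := by
  refine sum_zero_of N I2 I2_stp (fun s hB h => ?_) m a ha s hB hs
  rcases h.2 with h | ⟨h1, h2, h3⟩
  · exact GG_D1 N s hB h
  · exact GG_P2 N s hB h2 h3

/-! The one surviving state -/

/-- the edges of the surviving state -/
def gt : ℕ → List (ℕ × ℕ)
  | 0 => [(4, 0), (1, 3)]
  | k + 1 => (5 + k, 0) :: gt k

/-- the surviving state -/
def gs (k : ℕ) : St := ⟨1, 0, 2, gt k⟩

theorem dg_gt (k v : ℕ) : dg (gt k) v = (if v = 0 then k + 1 else 0) +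
    (if v = 1 ∨ v = 3 ∨ v = 4 ∨ (5 ≤ v ∧ v < 5 + k) then 1 else 0) := by
  induction k with
  | zero =>
    simp only [gt, dg_cons, dg_nil]
    split_ifs <;> omega
  | succ k ih =>
    rw [gt, dg_cons, ih]
    simp only
    split_ifs <;> omega

theorem Bas_gs (k : ℕ) : Bas (5 + k) (gs k) := by
  induction k with
  | zero => exact Bas_core _ (by simp [core, gs, gt])
  | succ k ih =>
    refine Bas_stp (5 + k) (gs k) ih _ ?_
    simp [stp, gs, gt]

theorem sum_gs (N : ℕ) : ∀ (m k : ℕ), 5 + k + m = N + 2 →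
    ((expd m (5 + k) (gs k)).map (GG N)).sum = GG N (gs (k + m)) := by
  intro m
  induction m with
  | zero => intro k _; simp [expd]
  | succ m ih =>
    intro k hk
    have h1 : ((expd (m + 1) (5 + k) (gs k)).map (GG N)).sum =
        ((stp (5 + k) (gs k)).map fun s' => ((expd m (5 + k + 1) s').map (GG N)).sum).sum := by
      simp [expd, stp]
    rw [h1]
    simp only [stp, List.map_cons, List.map_nil, List.sum_cons, List.sum_nil, add_zero]
    have hB := Bas_gs k
    have hst := fun s' h => Bas_stp (5 + k) (gs k) hB s' h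
    have e1 : ((expd m (5 + k + 1) ⟨(gs k).sg, 5 + k, (gs k).q,
        (5 + k, (gs k).q) :: (gs k).t⟩).map (GG N)).sum = 0 := by
      refine sum_I0 N m (5 + k + 1) (by omega) _ (hst _ (by simp [stp])) ⟨by omega, ?_⟩
      left
      refine ⟨1, fun A => ?_⟩
      simp only [pr_cons]
      have : ∀ x y : ZMod 2, x * (x * y) = 1 * (x * y) := by decide
      exact this _ _
    have e3 : ((expd m (5 + k + 1) ⟨-(gs k).sg, 5 + k, (gs k).q,
        (5 + k, (gs k).b) :: (gs k).t⟩).map (GG N)).sum = 0 := by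
      refine sum_I1 N m (5 + k + 1) (by omega) _ (hst _ (by simp [stp])) ⟨by omega, ?_⟩
      right
      refine ⟨by simp only; omega, ?_, 5 + k, by omega, by omega, ?_⟩
      · have h5 : 5 + k ≠ 1 := by omega
        simp [St.edges, gs, dg_cons, dg_gt, h5]
      · simp only [gs, dg_cons]
        simp
        omega
    rw [e1, e3]
    have e2 : (⟨(gs k).sg, (gs k).b, (gs k).q, (5 + k, (gs k).b) :: (gs k).t⟩ : St) =
        gs (k + 1) := rfl
    rw [e2]
    have := ih (k + 1) (by omega)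
    rw [show 5 + (k + 1) = 5 + k + 1 by omega] at this
    rw [this, show k + 1 + m = k + (m + 1) by omega]
    simp

theorem pr_gt_one (A : ℕ → ZMod 2) (k : ℕ) (h0 : A 0 = 1) (h1 : A 1 = 1)
    (h2 : ∀ u, 2 ≤ u → u < 5 + k → A u = 0) : pr A (gt k) = 1 := by
  induction k with
  | zero =>
    simp only [gt, pr_cons, pr_nil, h0, h1, h2 4 (by omega) (by omega),
      h2 3 (by omega) (by omega)]
    decide
  | succ k ih =>
    rw [gt, pr_cons, ih fun u hu hu' => h2 u hu (by omega)]
    simp only [h0, h2 (5 + k) (by omega) (by omega)]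
    decide

theorem pr_gt_ne (A : ℕ → ZMod 2) (k : ℕ) (h0 : A 0 = 1) (h1 : A 1 = 1)
    (h : pr A (gt k) ≠ 0) : ∀ u, 3 ≤ u → u < 5 + k → A u = 0 := by
  have key : ∀ x : ZMod 2, x + 1 ≠ 0 → x = 0 := by decide
  have key' : ∀ x : ZMod 2, 1 + x ≠ 0 → x = 0 := by decide
  induction k with
  | zero =>
    simp only [gt, pr_cons, pr_nil, mul_one, h0, h1] at h
    intro u hu hu'
    have hu2 : u = 3 ∨ u = 4 := by omega
    rcases hu2 with rfl | rfl
    · exact key' _ (right_ne_zero_of_mul h)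
    · exact key _ (left_ne_zero_of_mul h)
  | succ k ih =>
    rw [gt, pr_cons] at h
    simp only [h0] at h
    intro u hu hu'
    by_cases hk : u = 5 + k
    · subst hk
      exact key _ (left_ne_zero_of_mul h)
    · exact ih (right_ne_zero_of_mul h) u hu (by omega)

theorem GG_gs (N : ℕ) (hN : 3 ≤ N) : GG N (gs (N - 3)) = 1 := by
  have hB : Bas (N + 2) (gs (N - 3)) := by
    have := Bas_gs (N - 3)
    rwa [show 5 + (N - 3) = N + 2 by omega] at this
  have hdg : ∀ v, v < N + 2 → dg (gs (N - 3)).edges v =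
      if v = 0 then N - 1 else 1 := by
    intro v hv
    simp only [St.edges, gs, dg_cons, dg_gt]
    split_ifs <;> omega
  unfold GG F0
  rw [Finset.sum_eq_single 1]
  · rw [if_pos]
    · rw [ryser_toE N _ hB]
      rw [Finset.sum_eq_single (fun v : Fin (N + 2) => if v.val ≤ 1 then (1 : ZMod 2) else 0)]
      · have hA : ∀ k, k < N + 2 → (Fin.ofNat (N + 2) k).val = k := by
          intro k hk
          simp [Fin.ofNat, Nat.mod_eq_of_lt hk]
        rw [St.edges, pr_cons]
        simp only [gs]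
        rw [pr_gt_one]
        · simp only [hA 0 (by omega), hA 2 (by omega), hA 1 (by omega)]
          simp
        · simp only [hA 0 (by omega)]; simp
        · simp only [hA 1 (by omega)]; simp
        · intro u hu hu'
          simp only [hA u (by omega)]
          rw [if_neg (by omega)]
      · intro a _ ha
        by_contra hne
        apply ha
        have key : ∀ x : ZMod 2, x ≠ 0 → x = 1 := by decide
        have hp := right_ne_zero_of_mul hne
        have h01 := left_ne_zero_of_mul hne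
        have h0 := key _ (left_ne_zero_of_mul h01)
        have h1 := key _ (right_ne_zero_of_mul h01)
        simp only [Nat.sub_self] at h0
        rw [St.edges, pr_cons] at hp
        simp only [gs] at hp
        have h2 := left_ne_zero_of_mul hp
        have h3 := pr_gt_ne _ _ h0 h1 (right_ne_zero_of_mul hp)
        have h2' : a (Fin.ofNat (N + 2) 2) = 0 := by
          rw [h0] at h2
          have : ∀ x : ZMod 2, 1 + x ≠ 0 → x = 0 := by decide
          exact this _ h2
        ext v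
        have hv : v = Fin.ofNat (N + 2) v.val := Fin.ext (Nat.mod_eq_of_lt v.isLt).symm
        have hvl := v.isLt
        split_ifs with hv1
        · have : v.val = 0 ∨ v.val = 1 := by omega
          rcases this with h | h
          · rw [hv, h, h0]
          · rw [hv, h, h1]
        · by_cases hv2 : v.val = 2
          · rw [hv, hv2, h2']
          · rw [hv]
            rw [h3 v.val (by omega) (by omega)]
      · simp
    · intro v
      rw [deg_toE N _ hB v, hdg v.val v.isLt]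
      split_ifs <;> omega
  · intro k hk hk1
    rw [if_neg]
    intro hc
    have h1 := (hc ⟨1, by omega⟩).2
    rw [deg_toE N _ hB, hdg _ (by omega)] at h1
    simp only [Finset.mem_Icc] at hk
    simp only [one_ne_zero, if_false] at h1
    omega
  · intro h
    simp only [Finset.mem_Icc] at h
    omega

theorem sg_states (N : ℕ) (s : St) (hs : s ∈ states N) : (s.sg : ZMod 2) = 1 := by
  simp only [states, List.mem_flatMap] at hs
  obtain ⟨c, hc, h⟩ := hs
  refine expd_ind (fun _ s => (s.sg : ZMod 2) = 1) ?_ (N - 3) 5 c ?_ s h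
  · intro a s h s' hs'
    simp only [stp, List.mem_cons, List.not_mem_nil, or_false] at hs'
    rcases hs' with rfl | rfl | rfl
    · exact h
    · exact h
    · simp only [Int.cast_neg, h]
      decide
  · simp only [core, List.mem_cons, List.not_mem_nil, or_false] at hc
    rcases hc with rfl | rfl | rfl | rfl | rfl | rfl | rfl | rfl | rfl | rfl <;> simp

/-- **The functional `F0` has odd value on the exact relation.** -/
theorem kappa_F0 (N : ℕ) (hN : 3 ≤ N) :
    ((kappa N).map fun x => (x.1 : ZMod 2) * F0 N x.2).sum = 1 := by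
  have h1 : ((kappa N).map fun x => (x.1 : ZMod 2) * F0 N x.2) = (states N).map (GG N) := by
    rw [kappa, List.map_map]
    refine List.map_congr_left fun s hs => ?_
    simp only [Function.comp_apply]
    rw [sg_states N s hs, one_mul]
    rfl
  rw [h1, states]
  have h3 : (((core.flatMap (expd (N - 3) 5))).map (GG N)).sum =
      (core.map fun c => ((expd (N - 3) 5 c).map (GG N)).sum).sum := by
    simp [core]
  rw [h3]
  have hm : 5 + (N - 3) = N + 2 := by omega
  have g : ((expd (N - 3) 5 (gs 0)).map (GG N)).sum = 1 := by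
    have := sum_gs N (N - 3) 0 (by omega)
    rw [show 5 + 0 = 5 from rfl] at this
    rw [this, zero_add, GG_gs N hN]
  have z : ∀ s ∈ core, s.b ≠ 0 → dg s.edges 0 ≤ 1 →
      ((expd (N - 3) 5 s).map (GG N)).sum = 0 := fun s hs hb hd =>
    sum_I0 N (N - 3) 5 hm s (Bas_core s hs) ⟨le_refl _, Or.inr ⟨hb, hd⟩⟩
  have w : ((expd (N - 3) 5 ⟨-1, 0, 3, [(1, 0), (2, 4)]⟩).map (GG N)).sum = 0 :=
    sum_I2 N (N - 3) 5 hm _ (Bas_core _ (by simp [core]))
      ⟨le_refl _, Or.inr ⟨by simp, by decide, by simp⟩⟩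
  have g' : ((expd (N - 3) 5 ⟨1, 0, 2, [(4, 0), (1, 3)]⟩).map (GG N)).sum = 1 := g
  simp only [core, List.map_cons, List.map_nil, List.sum_cons, List.sum_nil]
  rw [w, g', z ⟨1, 1, 3, [(0, 1), (2, 4)]⟩ (by simp [core]) (by simp) (by decide),
    z ⟨1, 2, 4, [(1, 2), (3, 0)]⟩ (by simp [core]) (by simp) (by decide),
    z ⟨-1, 1, 4, [(2, 1), (3, 0)]⟩ (by simp [core]) (by simp) (by decide),
    z ⟨1, 3, 0, [(2, 3), (4, 1)]⟩ (by simp [core]) (by simp) (by decide),
    z ⟨-1, 2, 0, [(3, 2), (4, 1)]⟩ (by simp [core]) (by simp) (by decide),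
    z ⟨1, 4, 1, [(3, 4), (0, 2)]⟩ (by simp [core]) (by simp) (by decide),
    z ⟨-1, 3, 1, [(4, 3), (0, 2)]⟩ (by simp [core]) (by simp) (by decide),
    z ⟨-1, 4, 2, [(0, 4), (1, 3)]⟩ (by simp [core]) (by simp) (by decide)]
  simp

end Pool.Agent.NFB
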