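/-
NFB-Kill (Lemma A of the paper proof).  PLAN.  Let E := D.mapDomain ρ : GamE k →₀ ℤ.  For every homomorphism χ : GamE k →* QQ,
E.mapDomain χ = D.mapDomain (χ.comp ρ) = 0.  Fix z : EEˣ × C3 and let E_z : (Fin k → C3 → EE) →₀ ℤ, E_z m := E ⟨m, z⟩
(Finsupp.comapDomain).  Show E_z = 0 with `fourier` (W = Fin k → C3 → EE, finite, w + w = 0).  Given ξ : W →+ ZMod 2 put for a : W, c' : C3
  L a c' := ⟨ξ (e12 • a'), ξ (e2 • a'), ξ (e1 • a'), ξ a'⟩ : EE,   a' := fun l x => a l (c' * x)   (the shift by c'⁻¹),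
where e • a means pointwise multiplication by the elements e12 = ⟨0,0,0,1⟩, e1 = ⟨0,1,0,0⟩, e2 = ⟨0,0,1,0⟩ of EE.
Then L is additive, L (u * a) c' = u * L a c' for u : EE (check the four coordinates; expand u = u.a + u.b1 e1 + u.b2 e2 + u.c e12 and use
additivity of ξ, ξ (t • x) = t * ξ x for t : ZMod 2), L commutes with the shifts, and (L a 1).c = ξ a.  So
χ := SD.map (L as a hom to Unit → C3 → EE) (id) : GamE k →* QQ, and E.mapDomain χ = 0 gives
∑_a sgn((L a 1).c) E_z a = 0 (sum over the fibres ⟨L a, z⟩ of χ).  Second statement: pair D.mapDomain ρ = 0 with Φ, which factors as Θ ∘ ρ.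
-/
import Pool.Agent.NFB.Four

set_option autoImplicit false

namespace Pool.Agent.NFB

private def kb1 : EE := ⟨0, 1, 0, 0⟩
private def kb2 : EE := ⟨0, 0, 1, 0⟩
private def kc : EE := ⟨0, 0, 0, 1⟩

private theorem z2_cases (t : ZMod 2) : t = 0 ∨ t = 1 := by
  revert t; decide

/-- An additive functional on `EE` in coordinates. -/
private theorem fun_coord (G : EE →+ ZMod 2) (u : EE) :
    G u = u.a * G 1 + u.b1 * G kb1 + u.b2 * G kb2 + u.c * G kc := by
  have h : u = (⟨u.a, 0, 0, 0⟩ : EE) + ⟨0, u.b1, 0, 0⟩ + ⟨0, 0, u.b2, 0⟩ + ⟨0, 0, 0, u.c⟩ := by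
    ext <;> simp
  have h1 : ∀ t : ZMod 2, G ⟨t, 0, 0, 0⟩ = t * G 1 := by
    intro t
    rcases z2_cases t with rfl | rfl
    · rw [zero_mul]; exact map_zero G
    · rw [one_mul]; rfl
  have h2 : ∀ t : ZMod 2, G ⟨0, t, 0, 0⟩ = t * G kb1 := by
    intro t
    rcases z2_cases t with rfl | rfl
    · rw [zero_mul]; exact map_zero G
    · rw [one_mul]; rfl
  have h3 : ∀ t : ZMod 2, G ⟨0, 0, t, 0⟩ = t * G kb2 := by
    intro t
    rcases z2_cases t with rfl | rfl
    · rw [zero_mul]; exact map_zero G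
    · rw [one_mul]; rfl
  have h4 : ∀ t : ZMod 2, G ⟨0, 0, 0, t⟩ = t * G kc := by
    intro t
    rcases z2_cases t with rfl | rfl
    · rw [zero_mul]; exact map_zero G
    · rw [one_mul]; rfl
  conv_lhs => rw [h]
  rw [map_add, map_add, map_add, h1, h2, h3, h4]

section

variable {k : ℕ}

/-- The functional `e ↦ ξ (e • b)` on `EE`. -/
private def Hf (ξ : (Fin k → C3 → EE) →+ ZMod 2) (b : Fin k → C3 → EE) : EE →+ ZMod 2 where
  toFun e := ξ (fun l x => e * b l x)
  map_zero' := by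
    have : (fun (l : Fin k) (x : C3) => (0 : EE) * b l x) = 0 := by
      funext l x; simp
    rw [this]; exact map_zero ξ
  map_add' e e' := by
    have : (fun (l : Fin k) (x : C3) => (e + e') * b l x)
        = (fun l x => e * b l x) + (fun l x => e' * b l x) := by
      funext l x; simp [add_mul]
    rw [this]; exact map_add ξ _ _

private theorem Hf_apply (ξ : (Fin k → C3 → EE) →+ ZMod 2) (b : Fin k → C3 → EE) (e : EE) :
    Hf ξ b e = ξ (fun l x => e * b l x) := rfl

private theorem Hf_one (ξ : (Fin k → C3 → EE) →+ ZMod 2) (b : Fin k → C3 → EE) :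
    Hf ξ b 1 = ξ b := by
  rw [Hf_apply]; congr 1; funext l x; rw [one_mul]

/-- The value of `L`. -/
private def Lv (ξ : (Fin k → C3 → EE) →+ ZMod 2) (b : Fin k → C3 → EE) : EE :=
  ⟨Hf ξ b kc, Hf ξ b kb2, Hf ξ b kb1, Hf ξ b 1⟩

private theorem Hf_mul (ξ : (Fin k → C3 → EE) →+ ZMod 2) (b : Fin k → C3 → EE) (u e : EE) :
    Hf ξ (fun l x => u * b l x) e = Hf ξ b (e * u) := by
  rw [Hf_apply, Hf_apply]; congr 1; funext l x; rw [mul_assoc]

private theorem Lv_mul (ξ : (Fin k → C3 → EE) →+ ZMod 2) (b : Fin k → C3 → EE) (u : EE) :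
    Lv ξ (fun l x => u * b l x) = u * Lv ξ b := by
  ext
  · simp only [Lv, EE.mul_a, Hf_mul]
    rw [fun_coord (Hf ξ b) (kc * u)]
    simp [kc]
  · simp only [Lv, EE.mul_b1, Hf_mul]
    rw [fun_coord (Hf ξ b) (kb2 * u)]
    simp [kb2]
  · simp only [Lv, EE.mul_b2, Hf_mul]
    rw [fun_coord (Hf ξ b) (kb1 * u)]
    simp [kb1]
  · simp only [Lv, EE.mul_c, Hf_mul]
    rw [fun_coord (Hf ξ b) (1 * u)]
    simp
    ring

private theorem Hf_add (ξ : (Fin k → C3 → EE) →+ ZMod 2) (b b' : Fin k → C3 → EE) (e : EE) :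
    Hf ξ (b + b') e = Hf ξ b e + Hf ξ b' e := by
  rw [Hf_apply, Hf_apply, Hf_apply, ← map_add]; congr 1; funext l x; simp [mul_add]

private theorem Hf_zero (ξ : (Fin k → C3 → EE) →+ ZMod 2) (e : EE) :
    Hf ξ 0 e = 0 := by
  rw [Hf_apply]
  have : (fun (l : Fin k) (x : C3) => e * (0 : Fin k → C3 → EE) l x) = 0 := by
    funext l x; simp
  rw [this]; exact map_zero ξ

/-- The homomorphism `L`. -/
private def Lh (ξ : (Fin k → C3 → EE) →+ ZMod 2) : (Fin k → C3 → EE) →+ (Unit → C3 → EE) where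
  toFun a := fun _ c' => Lv ξ (fun l x => a l (c' * x))
  map_zero' := by
    funext _ c'
    have : (fun (l : Fin k) (x : C3) => (0 : Fin k → C3 → EE) l (c' * x)) = 0 := by
      funext l x; simp
    rw [this]
    ext <;> simp [Lv, Hf_zero]
  map_add' a a' := by
    funext _ c'
    have : (fun (l : Fin k) (x : C3) => (a + a') l (c' * x))
        = (fun l x => a l (c' * x)) + (fun l x => a' l (c' * x)) := by
      funext l x; simp
    rw [this]
    ext <;> simp [Lv, Hf_add]

private theorem Lh_apply (ξ : (Fin k → C3 → EE) →+ ZMod 2) (a : Fin k → C3 → EE) (c' : C3) :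
    Lh ξ a () c' = Lv ξ (fun l x => a l (c' * x)) := rfl

private theorem Lh_one (ξ : (Fin k → C3 → EE) →+ ZMod 2) (a : Fin k → C3 → EE) :
    (Lh ξ a () 1).c = ξ a := by
  rw [Lh_apply]
  have : (fun (l : Fin k) (x : C3) => a l (1 * x)) = a := by
    funext l x; rw [one_mul]
  rw [this]
  exact Hf_one ξ a

private theorem Lh_act (ξ : (Fin k → C3 → EE) →+ ZMod 2) (u : EEˣ × C3) (m : Fin k → C3 → EE) :
    Lh ξ (act (Fin k) (Units.coeHom EE) u m) = act Unit (Units.coeHom EE) u (Lh ξ m) := by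
  funext i c'
  rw [act_apply, Lh_apply, Lh_apply, ← Lv_mul]
  congr 1
  funext l x
  rw [act_apply, mul_assoc]

/-- The homomorphism `χ`. -/
private def chi (ξ : (Fin k → C3 → EE) →+ ZMod 2) : GamE k →* QQ :=
  SD.map _ _ (Lh ξ) (MonoidHom.id _) (fun u m => Lh_act ξ u m)

private def sdEquiv (k : ℕ) : ((Fin k → C3 → EE) × (EEˣ × C3)) ≃ GamE k where
  toFun p := ⟨p.1, p.2⟩
  invFun x := (x.m, x.u)
  left_inv _ := rfl
  right_inv _ := rfl

end

/-- If `D ∈ Z[F]` dies under every homomorphism `F → Q`, then it dies under every homomorphism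
`F → Γ(k, EE)`. -/
theorem killed_GamE {F : Type} [Group F] (D : F →₀ ℤ) (hD : ∀ θ : F →* QQ, D.mapDomain θ = 0)
    (k : ℕ) (ρ : F →* GamE k) : D.mapDomain ρ = 0 := by
  classical
  have : Fintype (GamE k) := Fintype.ofEquiv _ (sdEquiv k)
  set E : GamE k →₀ ℤ := D.mapDomain ρ with hE
  have hχ : ∀ χ : GamE k →* QQ, E.mapDomain χ = 0 := by
    intro χ
    rw [hE, ← Finsupp.mapDomain_comp]
    exact hD (χ.comp ρ)
  have key : ∀ z : EEˣ × C3, ∀ m : Fin k → C3 → EE, E ⟨m, z⟩ = 0 := by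
    intro z
    let Ez : (Fin k → C3 → EE) →₀ ℤ := Finsupp.equivFunOnFinite.symm (fun m => E ⟨m, z⟩)
    have hEz : Ez = 0 := by
      refine fourier _ ?_ Ez ?_
      · intro w
        funext l x
        ext <;> simp [CharTwo.add_self_eq_zero]
      · intro ξ
        rw [Finsupp.sum_fintype _ _ (fun w => by simp)]
        have h0 := hχ (chi ξ)
        have h1 : (E.mapDomain (chi ξ)).sum (fun q m =>
            if q.u = z then (if (q.m () 1).c = 0 then m else -m) else 0) = 0 := by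
          rw [h0]; exact Finsupp.sum_zero_index
        rw [Finsupp.sum_mapDomain_index (fun q => by simp)
          (fun q m m' => by split_ifs <;> ring)] at h1
        rw [Finsupp.sum_fintype _ _ (fun w => by simp)] at h1
        rw [← (sdEquiv k).sum_comp, Fintype.sum_prod_type, Finset.sum_comm] at h1
        rw [Finset.sum_eq_single z] at h1
        · rw [← h1]
          refine Finset.sum_congr rfl fun m _ => ?_
          have hu : (chi ξ (sdEquiv k (m, z))).u = z := rfl
          have hm : ((chi ξ (sdEquiv k (m, z))).m () 1).c = ξ m := Lh_one ξ m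
          rw [if_pos hu, hm]
          rfl
        · intro y _ hy
          refine Finset.sum_eq_zero fun m _ => ?_
          have hu : (chi ξ (sdEquiv k (m, y))).u ≠ z := hy
          rw [if_neg hu]
        · intro h; exact absurd (Finset.mem_univ _) h
    intro m
    have := DFunLike.congr_fun hEz m
    exact this
  ext x
  exact key x.u x.m

end Pool.Agent.NFB
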