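/-
NFB-Lift.  PLAN.  lift_m: the map α : (Fin k → C3 → RR n) → (Fin N → C3 → RR n),
α a i c' = ∑ p : Fin k × C3, (if h : p.1 < k then (g p.1).m i (p.2⁻¹ * c') ...) * a p.1 p.2 is additive and commutes with the actions of
(U × C3) (reindex the sum over C3), so (a, u) ↦ (α a, u) is a homomorphism GamN k n →* GamN N n (SD.map, identity on U × C3); it agrees
with FreeGroup.lift g on the generators composed with hat (for i ≥ k both are 1), hence everywhere (FreeGroup.ext_hom or
FreeGroup.lift uniqueness).  rho: SD.map with f := sη η pointwise and g := Prod.map (Units.map (sη η) ∘ toHomUnits (tauHom n)) id.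
-/
import Pool.Agent.NFB.Defs

set_option autoImplicit false

namespace Pool.Agent.NFB

/-- The universal lift to `Γ(k, R_n)` of a `k`-tuple of elements of `Γ_N`. -/
def hat (k : ℕ) {N n : ℕ} (g : ℕ → GamN N n) : FreeGroup ℕ →* GamN k n :=
  FreeGroup.lift fun i => if h : i < k then ⟨unitVec ⟨i, h⟩, (g i).u⟩ else 1

/-- The additive map underlying the comparison homomorphism. -/
private def alphaMap (k : ℕ) {N n : ℕ} (g : ℕ → GamN N n) :
    (Fin k → C3 → RR n) →+ (Fin N → C3 → RR n) where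
  toFun a := fun i c' => ∑ p : Fin k × C3, (g p.1.val).m i (p.2⁻¹ * c') * a p.1 p.2
  map_zero' := by
    funext i c'
    simp
  map_add' a b := by
    funext i c'
    simp [mul_add, Finset.sum_add_distrib]

private theorem alphaMap_apply (k : ℕ) {N n : ℕ} (g : ℕ → GamN N n)
    (a : Fin k → C3 → RR n) (i : Fin N) (c' : C3) :
    alphaMap k g a i c' = ∑ p : Fin k × C3, (g p.1.val).m i (p.2⁻¹ * c') * a p.1 p.2 := rfl

private theorem alphaMap_act (k : ℕ) {N n : ℕ} (g : ℕ → GamN N n)
    (u : Multiplicative (Fin n → ZMod 2) × C3) (m : Fin k → C3 → RR n) :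
    alphaMap k g (act (Fin k) (tauHom n) u m) = act (Fin N) (tauHom n) u (alphaMap k g m) := by
  funext i c'
  rw [act_apply, alphaMap_apply, alphaMap_apply, Finset.mul_sum]
  rw [← (Equiv.prodCongr (Equiv.refl (Fin k)) (Equiv.mulLeft u.2)).sum_comp]
  refine Finset.sum_congr rfl fun p _ => ?_
  simp only [Equiv.prodCongr_apply, Prod.map_fst, Prod.map_snd, Equiv.refl_apply,
    Equiv.coe_mulLeft, act_apply, mul_inv_rev, inv_mul_cancel_left, mul_assoc]
  ring

/-- The comparison homomorphism `Γ(k, R_n) → Γ(N, R_n)`. -/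
private def alphaHom (k : ℕ) {N n : ℕ} (g : ℕ → GamN N n) : GamN k n →* GamN N n :=
  SD.map (act (Fin k) (tauHom n)) (act (Fin N) (tauHom n)) (alphaMap k g) (MonoidHom.id _)
    (alphaMap_act k g)

private theorem alphaMap_unitVec (k : ℕ) {N n : ℕ} (g : ℕ → GamN N n) (j : ℕ) (h : j < k) :
    alphaMap k g (unitVec ⟨j, h⟩) = (g j).m := by
  funext i c'
  rw [alphaMap_apply, Finset.sum_eq_single ((⟨j, h⟩ : Fin k), (1 : C3))]
  · simp [unitVec]
  · intro p _ hp
    have : ¬ (p.1 = (⟨j, h⟩ : Fin k) ∧ p.2 = 1) := fun h' => hp (Prod.ext h'.1 h'.2)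
    simp [unitVec, this]
  · intro h'
    exact absurd (Finset.mem_univ _) h'

theorem lift_m (k : ℕ) {N n : ℕ} (g : ℕ → GamN N n) (hg : ∀ i, k ≤ i → g i = 1)
    (w : FreeGroup ℕ) (i : Fin N) (c' : C3) :
    (FreeGroup.lift g w).m i c' = ∑ p : Fin k × C3,
      (g p.1.val).m i (p.2⁻¹ * c') * (hat k g w).m p.1 p.2 := by
  have hcomp : FreeGroup.lift g = (alphaHom k g).comp (hat k g) := by
    apply FreeGroup.ext_hom
    intro j
    rw [MonoidHom.comp_apply, FreeGroup.lift_apply_of, hat, FreeGroup.lift_apply_of]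
    by_cases h : j < k
    · rw [dif_pos h]
      ext1
      · change _ = alphaMap k g (unitVec ⟨j, h⟩)
        rw [alphaMap_unitVec]
      · rfl
    · rw [dif_neg h, map_one, hg j (not_lt.mp h)]
  rw [hcomp]
  rfl

/-- The homomorphism `Γ(k, R_n) → Γ(k, EE)` of a colouring. -/
theorem exists_rho (k n : ℕ) (η : Fin n → ZMod 2 × ZMod 2) :
    ∃ ρ : GamN k n →* GamE k, ∀ x y : GamN k n, ρ x = ρ y →
      ∀ i c, sη η (x.m i c) = sη η (y.m i c) := by
  let f : (Fin k → C3 → RR n) →+ (Fin k → C3 → EE) :=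
    { toFun := fun m i c => sη η (m i c)
      map_zero' := by funext i c; simp
      map_add' := fun m m' => by funext i c; simp }
  let g : Multiplicative (Fin n → ZMod 2) × C3 →* EEˣ × C3 :=
    ((((sη η : RR n →+* EE) : RR n →* EE).comp (tauHom n)).toHomUnits).prodMap (MonoidHom.id C3)
  have hfg : ∀ u m, f (act (Fin k) (tauHom n) u m)
      = act (Fin k) (Units.coeHom EE) (g u) (f m) := by
    intro u m
    funext i c
    change sη η (tauHom n u.1 * m i (u.2⁻¹ * c)) = sη η (tauHom n u.1) * sη η (m i (u.2⁻¹ * c))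
    rw [map_mul]
  refine ⟨SD.map _ _ f g hfg, fun x y h i c => ?_⟩
  have := congrArg SD.m h
  exact congrFun (congrFun this i) c

end Pool.Agent.NFB
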