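/-
NFB-Loc.  Locality of f: assembly of Expand, Lift and Kill.
-/
import Pool.Agent.NFB.Expand
import Pool.Agent.NFB.Lift
import Pool.Agent.NFB.Kill
import Pool.Agent.HBL.Crit

set_option autoImplicit false

namespace Pool.Agent.NFB

/-- the group elements of the regular module -/
private noncomputable def sgl (q : QQ) (c : ℤ) : RegM QQ := (Finsupp.single q c : QQ →₀ ℤ)

private theorem sgl_act (q : QQ) (c : ℤ) : c • (q • sgl 1 1) = sgl q c := by
  have e3 : q • sgl 1 1 = sgl q 1 := by
    rw [regM_smul]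
    change Finsupp.mapDomain (fun x => q * x) (Finsupp.single 1 1 : QQ →₀ ℤ) = (Finsupp.single q 1 : QQ →₀ ℤ)
    rw [Finsupp.mapDomain_single, mul_one]
  rw [e3]
  change c • (Finsupp.single q 1 : QQ →₀ ℤ) = (Finsupp.single q c : QQ →₀ ℤ)
  rw [Finsupp.smul_single, smul_eq_mul, mul_one]

private theorem loc_kill {u : FreeGroup ℕ →₀ ℤ} (hu : HBL.Kills QQ (RegM QQ) u) (θ : FreeGroup ℕ →* QQ) :
    u.mapDomain θ = 0 := by
  have e : (u.sum fun w c => c • (θ w • sgl 1 1)) = 0 := hu θ _
  have e2 : (u.sum fun w c => c • (θ w • sgl 1 1)) = u.sum fun w c => sgl (θ w) c :=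
    Finsupp.sum_congr fun w _ => sgl_act (θ w) (u w)
  rw [e2] at e
  exact e

/-- Locality of the function `f` on `Γ_N`. -/
theorem loc {N n : ℕ} (k : ℕ) (h : 3 * k < N)
    (Al : (Ed n → ZMod 2) [⋀^Fin N]→ₗ[ZMod 2] ZMod 2) (hAl : Local Al)
    (g : ℕ → GamN N n) (hg : ∀ i, k ≤ i → g i = 1)
    (u : FreeGroup ℕ →₀ ℤ) (hu : HBL.Kills QQ (RegM QQ) u) :
    (u.sum fun w c => c • ff Al (FreeGroup.lift g w)) = 0 := by
  classical
  have hcard : Fintype.card (Fin k × C3) < N := by
    have e : Fintype.card C3 = 3 := rfl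
    rw [Fintype.card_prod, Fintype.card_fin, e]
    omega
  let W : AddSubgroup (FreeGroup ℕ → ZMod 2) :=
    { carrier := {Φ | (u.sum fun w c => c • Φ w) = 0}
      zero_mem' := by simp
      add_mem' := by
        intro a b ha hb
        change (u.sum fun w c => c • a w) = 0 at ha
        change (u.sum fun w c => c • b w) = 0 at hb
        change (u.sum fun w c => c • (a w + b w)) = 0
        simp only [smul_add]
        rw [Finsupp.sum_add, ha, hb, add_zero]
      neg_mem' := by
        intro a ha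
        change (u.sum fun w c => c • a w) = 0 at ha
        change (u.sum fun w c => c • (-a w)) = 0
        simp only [smul_neg]
        rw [Finsupp.sum_neg, ha, neg_zero] }
  have hW : ∀ (η : Fin n → ZMod 2 × ZMod 2) (F : FreeGroup ℕ → ZMod 2),
      (∀ x y, (∀ l : Fin k × C3, sη η ((hat k g x).m l.1 l.2) = sη η ((hat k g y).m l.1 l.2)) → F x = F y) →
      F ∈ W := by
    intro η F hF
    obtain ⟨ρ, hρ⟩ := exists_rho k n η
    have hk := killed_GamE u (loc_kill hu) k (ρ.comp (hat k g))
    obtain ⟨Θ, hΘ⟩ : ∃ Θ : GamE k → ZMod 2, ∀ w, F w = Θ (ρ.comp (hat k g) w) := by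
      refine ⟨fun y => if hy : ∃ w, ρ.comp (hat k g) w = y then F hy.choose else 0, fun w => ?_⟩
      have hy : ∃ w', ρ.comp (hat k g) w' = ρ.comp (hat k g) w := ⟨w, rfl⟩
      change F w = (if hy : ∃ w', ρ.comp (hat k g) w' = ρ.comp (hat k g) w then F hy.choose else 0)
      rw [dif_pos hy]
      refine hF _ _ fun l => ?_
      exact (hρ _ _ hy.choose_spec l.1 l.2).symm
    change (u.sum fun w c => c • F w) = 0
    have e1 : (u.mapDomain (ρ.comp (hat k g))).sum (fun y c => c • Θ y) = u.sum fun w c => c • F w := by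
      rw [Finsupp.sum_mapDomain_index (fun b => by rw [zero_smul]) (fun b c d => by rw [add_smul])]
      refine Finsupp.sum_congr fun w _ => ?_
      rw [hΘ w]
    rw [← e1, hk, Finsupp.sum_zero_index]
  have key := expand (T := FreeGroup ℕ) (Λ := Fin k × C3) hcard Al hAl (fun l w => (hat k g w).m l.1 l.2)
    (fun i l => (g l.1.val).m i (l.2⁻¹ * 1)) W hW
  have key2 : (u.sum fun w c => c • Al (fun i => (∑ l : Fin k × C3, (g l.1.val).m i (l.2⁻¹ * 1) *
      (hat k g w).m l.1 l.2).c)) = 0 := key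
  have e : ∀ w, ff Al (FreeGroup.lift g w) = Al (fun i => (∑ l : Fin k × C3, (g l.1.val).m i (l.2⁻¹ * 1) *
      (hat k g w).m l.1 l.2).c) := by
    intro w
    unfold ff
    congr 1
    funext i
    rw [lift_m k g hg w i 1]
  simp only [e]
  exact key2

end Pool.Agent.NFB
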