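/-
NFB-Sec2 (helper55 with helper28's pair statements).  The alternating extension of F0 to edge vectors and its locality.
A r := ∑ e : Fin N → Ed (N+2), F0 N (fun i => (e i).1) * ∏ i, r i (e i).
Local: for i, w take c a z := ∑_{x ≤ N-2} [∀ v, x < v → z v = 0] * a x * a w.
-/
import Pool.Agent.NFB.Defs
import Pool.Agent.NFB.F0
import Pool.Agent.NFB.Form

set_option autoImplicit false

namespace Pool.Agent.NFB

theorem dot_dl_eq_ev {N : ℕ} (u w : Fin (N + 2)) (h : u ≠ w) :
    (dot (dl u) (dl w) : Ed (N + 2) → ZMod 2) = Form.ev u w := by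
  funext p
  have hp := p.2
  unfold dot dl Form.ev
  simp only [Pi.single_apply]
  by_cases h1 : p.1 = (u, w)
  · rw [if_pos (Or.inl h1), h1]
    simp [h, h.symm]
  · by_cases h2 : p.1 = (w, u)
    · rw [if_pos (Or.inr h2), h2]
      simp [h, h.symm]
    · have h5 : ¬ (p.1 = (u, w) ∨ p.1 = (w, u)) := by
        rintro (hh | hh)
        · exact h1 hh
        · exact h2 hh
      rw [if_neg h5]
      have h3 : ¬ (p.1.1 = u ∧ p.1.2 = w) := fun hh => h1 (Prod.ext hh.1 hh.2)
      have h4 : ¬ (p.1.1 = w ∧ p.1.2 = u) := fun hh => h2 (Prod.ext hh.1 hh.2)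
      by_cases a1 : p.1.1 = u <;> by_cases a2 : p.1.2 = w <;> by_cases a3 : p.1.2 = u <;>
        by_cases a4 : p.1.1 = w <;> simp_all

theorem local_f0A (N : ℕ) (hN : 3 ≤ N) : Local (n := N + 2) (Form.f0A N) := by
  classical
  intro i w
  refine ⟨fun a z => ∑ x : Fin (N + 2), if (∀ v, x < v → z v = 0) then a x * a w else 0, ?_⟩
  intro r b
  have h1 : (dot b (dl w) : Ed (N + 2) → ZMod 2) = Form.bb b (dl w) := rfl
  rw [h1, Form.f0A_apply, Form.f0_slot_bb hN]
  have h2 : ∀ a : Fin (N + 2) → ZMod 2, (∑ v, (dl w : Fin (N + 2) → ZMod 2) v * a v) = a w := by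
    intro a
    unfold dl
    rw [Finset.sum_eq_single w]
    · simp
    · intro v _ hv
      rw [Pi.single_eq_of_ne hv, zero_mul]
    · intro hh
      exact absurd (Finset.mem_univ _) hh
  simp_rw [h2]
  have h3 : ∀ (a z : Fin (N + 2) → ZMod 2) (c : Ed (N + 2) → ZMod 2), vv a z c = Form.vv a z c :=
    fun _ _ _ => rfl
  simp_rw [h3]
  have h5 : ∀ x : Fin (N + 2),
      (∑ z ∈ (Finset.univ : Finset (Fin (N + 2) → ZMod 2)).filter (fun z => ∀ v, x < v → z v = 0),
        ∑ a : Fin (N + 2) → ZMod 2, a x * (a w * (∑ j, b j * a j)) *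
          ∏ l ∈ Finset.univ.erase i, Form.vv a z (r l)) =
      ∑ z : Fin (N + 2) → ZMod 2, ∑ a : Fin (N + 2) → ZMod 2,
        (if (∀ v, x < v → z v = 0) then a x * a w else 0) * (∑ j, b j * a j) *
          ∏ l ∈ Finset.univ.erase i, Form.vv a z (r l) := by
    intro x
    rw [Finset.sum_filter]
    refine Finset.sum_congr rfl fun z _ => ?_
    by_cases hz : ∀ v, x < v → z v = 0
    · rw [if_pos hz]
      refine Finset.sum_congr rfl fun a _ => ?_
      rw [if_pos hz]
      ring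
    · rw [if_neg hz]
      symm
      apply Finset.sum_eq_zero
      intro a _
      rw [if_neg hz]
      ring
  rw [Finset.sum_congr rfl fun x _ => h5 x]
  rw [Finset.sum_comm]
  rw [Finset.sum_congr rfl fun z _ => Finset.sum_comm]
  rw [Finset.sum_comm]
  refine Finset.sum_congr rfl fun a _ => ?_
  refine Finset.sum_congr rfl fun z _ => ?_
  rw [Finset.sum_mul, Finset.sum_mul]

theorem sec2 (N : ℕ) (hN : 3 ≤ N) :
    ∃ Al : (Ed (N + 2) → ZMod 2) [⋀^Fin N]→ₗ[ZMod 2] ZMod 2, Local Al ∧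
      ∀ e : Fin N → Fin (N + 2) × Fin (N + 2), (∀ i, (e i).1 ≠ (e i).2) →
        Al (fun i => dot (dl (e i).1) (dl (e i).2)) = F0 N e := by
  refine ⟨Form.f0A N, local_f0A N hN, ?_⟩
  intro e he
  rw [Form.f0A_apply, ← Form.f0_ev e]
  congr 1
  funext i
  exact dot_dl_eq_ev _ _ (he i)

end Pool.Agent.NFB
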