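import Pool.Agent.NFB.Sep
import Pool.Agent.NFB.Loc
import Pool.Agent.NFB.GlobQ
import Pool.Agent.NFB.GlobP
import Pool.Agent.NFB.Sec2
import Pool.Agent.NFB.KapF

set_option autoImplicit false

namespace Pool.Agent.NFB

instance : Finite QQ := by
  haveI : Finite (Unit → C3 → EE) := inferInstance
  refine Finite.of_injective (fun x : QQ => (x.m, x.u)) ?_
  intro x y h
  exact SD.ext (congrArg Prod.fst h) (congrArg Prod.snd h)

/-- There is an abelian-by-finite group whose laws are not finitely based. -/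
theorem main : HBL.NotFB := by
  refine HBL.not_fb_of_function QQ (RegM QQ) ?_
  intro n
  have hN : 3 ≤ 3 * n + 3 := by omega
  obtain ⟨Al, hloc, hval⟩ := sec2 (3 * n + 3) hN
  have hval' : ∀ e : Fin (3 * n + 3) → Fin (3 * n + 3 + 2) × Fin (3 * n + 3 + 2),
      Al (fun i => dot (dl (e i).1) (dl (e i).2)) = F0 (3 * n + 3) e := by
    intro e
    by_cases he : ∀ i, (e i).1 ≠ (e i).2
    · exact hval e he
    · push Not at he
      obtain ⟨i, hi⟩ := he
      rw [F0_loop e i hi]
      refine Al.map_coord_zero i ?_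
      funext d
      have : dot (dl (e i).1) (dl (e i).2) d = 0 := by
        rw [hi, dot, mul_comm, CharTwo.add_self_eq_zero]
      exact this
  refine ⟨GamN (3 * n + 3) (3 * n + 3 + 2), inferInstance, ZMod 2, inferInstance, ff Al, ?_, ?_, ?_⟩
  · intro w hw φ
    refine sep _ _ _ fun χ => ?_
    exact hw (χ.comp φ)
  · intro g hg u hu
    exact loc n (by omega) Al hloc g hg u hu
  · refine ⟨uu (kappa (3 * n + 3)), globQ _ (kappa_rel_br (3 * n + 3) hN), ?_⟩
    obtain ⟨φ, hφ⟩ := globP Al (kappa (3 * n + 3))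
    refine ⟨φ, ?_⟩
    rw [hφ]
    have h1 : ((kappa (3 * n + 3)).map fun p => ((p.1 : ℤ) : ZMod 2)
            * Al (fun i => dot (dl (p.2 i).1) (dl (p.2 i).2))).sum
        = ((kappa (3 * n + 3)).map fun p => ((p.1 : ℤ) : ZMod 2) * F0 (3 * n + 3) p.2).sum := by
      congr 1
      refine List.map_congr_left fun p _ => ?_
      rw [hval' p.2]
    rw [h1, kappa_F0 (3 * n + 3) hN]
    exact one_ne_zero

end Pool.Agent.NFB
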