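/-
Project NFB (MP_838612_al, S02124): homomorphisms `Γ_N → Q` separate the points of `Γ_N`.
For a colouring `η` and a row `i` there is the homomorphism `m ↦ sη (m i)` on the module part, `w ↦ sη (τ w)` on the unit
part and the identity on `C3`; the same with the zero map on the module part covers `N = 0`.  The ring homomorphisms `sη`
separate the points of `RR n`.
-/
import Pool.Agent.NFB.Defs

set_option autoImplicit false

namespace Pool.Agent.NFB

private def uHom {n : ℕ} (η : Fin n → ZMod 2 × ZMod 2) : Multiplicative (Fin n → ZMod 2) →* EEˣ :=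
  (Units.map (sη η).toMonoidHom).comp (tauHom n).toHomUnits

private theorem uHom_coe {n : ℕ} (η : Fin n → ZMod 2 × ZMod 2)
    (x : Multiplicative (Fin n → ZMod 2)) : ((uHom η x : EEˣ) : EE) = sη η (tauHom n x) := rfl

private def gHom {n : ℕ} (η : Fin n → ZMod 2 × ZMod 2) :
    (Multiplicative (Fin n → ZMod 2)) × C3 →* EEˣ × C3 :=
  MonoidHom.prodMap (uHom η) (MonoidHom.id C3)

/-- The homomorphism `Γ_N → Q` with zero module part. -/
private def chi0 (N : ℕ) {n : ℕ} (η : Fin n → ZMod 2 × ZMod 2) : GamN N n →* QQ :=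
  SD.map (act (Fin N) (tauHom n)) (act Unit (Units.coeHom EE)) 0 (gHom η)
    (fun u m => by rw [AddMonoidHom.zero_apply, AddMonoidHom.zero_apply, map_zero])

/-- The module part of the homomorphism of a colouring and a row. -/
private def fHom {N n : ℕ} (η : Fin n → ZMod 2 × ZMod 2) (i : Fin N) :
    (Fin N → C3 → RR n) →+ (Unit → C3 → EE) where
  toFun m := fun _ c => sη η (m i c)
  map_zero' := by funext _ c; simp
  map_add' m m' := by funext _ c; simp

/-- The homomorphism `Γ_N → Q` of a colouring and a row. -/
private def chi1 {N n : ℕ} (η : Fin n → ZMod 2 × ZMod 2) (i : Fin N) : GamN N n →* QQ :=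
  SD.map (act (Fin N) (tauHom n)) (act Unit (Units.coeHom EE)) (fHom η i) (gHom η)
    (fun u m => by
      funext _ c
      change sη η (tauHom n u.1 * m i (u.2⁻¹ * c)) = sη η (tauHom n u.1) * sη η (m i (u.2⁻¹ * c))
      rw [map_mul])

private theorem sum_single1 {n : ℕ} (f : Fin n → ZMod 2) (v : Fin n) :
    ∑ u, f u * ((Pi.single v ((1 : ZMod 2), (0 : ZMod 2)) : Fin n → ZMod 2 × ZMod 2) u).1 = f v := by
  rw [Finset.sum_eq_single v]
  · rw [Pi.single_eq_same, mul_one]
  · intro u _ hu
    rw [Pi.single_eq_of_ne hu]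
    simp
  · intro hv
    exact absurd (Finset.mem_univ v) hv

/-- The ring homomorphisms `sη` separate the points of `RR n`. -/
private theorem sep_pt {n : ℕ} (x : RR n) (h : ∀ η : Fin n → ZMod 2 × ZMod 2, sη η x = 0) :
    x = 0 := by
  classical
  ext1
  · have h1 := congrArg EE.a (h 0)
    exact h1
  · funext v
    have h1 := congrArg EE.b1 (h (Pi.single v ((1 : ZMod 2), (0 : ZMod 2))))
    have h2 : ∑ u, x.b u * ((Pi.single v ((1 : ZMod 2), (0 : ZMod 2)) :
        Fin n → ZMod 2 × ZMod 2) u).1 = 0 := h1
    rw [sum_single1] at h2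
    exact h2
  · funext e
    let η : Fin n → ZMod 2 × ZMod 2 :=
      fun u => if u = e.1.1 then (1, 0) else if u = e.1.2 then (0, 1) else 0
    have h1 := congrArg EE.c (h η)
    have h2 : ∑ e' : Ed n, x.c e' * br (η e'.1.1) (η e'.1.2) = 0 := h1
    rw [Finset.sum_eq_single e] at h2
    · have h3 : br (η e.1.1) (η e.1.2) = 1 := by
        have hne : ¬ e.1.2 = e.1.1 := (ne_of_lt e.2).symm
        have a1 : η e.1.1 = (1, 0) := if_pos rfl
        have a2 : η e.1.2 = (0, 1) := by
          change (if e.1.2 = e.1.1 then ((1 : ZMod 2), (0 : ZMod 2))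
            else if e.1.2 = e.1.2 then (0, 1) else 0) = (0, 1)
          rw [if_neg hne, if_pos rfl]
        rw [a1, a2]
        simp [br]
      rw [h3, mul_one] at h2
      exact h2
    · intro e' _ hne
      have h3 : br (η e'.1.1) (η e'.1.2) = 0 := by
        have hlt := e'.2
        have hlt2 := e.2
        change br (if e'.1.1 = e.1.1 then ((1 : ZMod 2), (0 : ZMod 2))
            else if e'.1.1 = e.1.2 then (0, 1) else 0)
          (if e'.1.2 = e.1.1 then ((1 : ZMod 2), (0 : ZMod 2))
            else if e'.1.2 = e.1.2 then (0, 1) else 0) = 0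
        by_cases c1 : e'.1.1 = e.1.1
        · rw [if_pos c1]
          by_cases c2 : e'.1.2 = e.1.1
          · exact absurd (c1.trans c2.symm) (ne_of_lt hlt)
          · rw [if_neg c2]
            by_cases c3 : e'.1.2 = e.1.2
            · exact absurd (Subtype.ext (Prod.ext c1 c3)) hne
            · rw [if_neg c3]
              simp [br]
        · rw [if_neg c1]
          by_cases c2 : e'.1.1 = e.1.2
          · rw [if_pos c2]
            have c3 : ¬ e'.1.2 = e.1.1 := by
              intro c3
              rw [c2, c3] at hlt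
              exact absurd hlt (lt_asymm hlt2)
            have c4 : ¬ e'.1.2 = e.1.2 := by
              intro c4
              rw [c2, c4] at hlt
              exact lt_irrefl _ hlt
            rw [if_neg c3, if_neg c4]
            simp [br]
          · rw [if_neg c2]
            simp [br]
      rw [h3, mul_zero]
    · intro he
      exact absurd (Finset.mem_univ e) he

/-- Homomorphisms `Γ_N → Q` separate the points of `Γ_N`. -/
theorem sep (N n : ℕ) (g : GamN N n) (h : ∀ χ : GamN N n →* QQ, χ g = 1) : g = 1 := by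
  have hu : ∀ η : Fin n → ZMod 2 × ZMod 2, gHom η g.u = 1 := fun η =>
    congrArg SD.u (h (chi0 N η))
  have hc : g.u.2 = 1 := congrArg Prod.snd (hu 0)
  have hw : g.u.1 = 1 := by
    have hz : Multiplicative.toAdd g.u.1 = 0 := by
      funext v
      have h1 := congrArg Prod.fst (hu (Pi.single v ((1 : ZMod 2), (0 : ZMod 2))))
      have h2 : sη (Pi.single v ((1 : ZMod 2), (0 : ZMod 2))) (tauHom n g.u.1) = 1 :=
        congrArg Units.val h1
      have h3 : ∑ u, Multiplicative.toAdd g.u.1 u *
          ((Pi.single v ((1 : ZMod 2), (0 : ZMod 2)) : Fin n → ZMod 2 × ZMod 2) u).1 = 0 :=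
        congrArg EE.b1 h2
      rw [sum_single1] at h3
      exact h3
    exact Multiplicative.toAdd.injective hz
  have hm : g.m = 0 := by
    funext i c
    refine sep_pt _ fun η => ?_
    have h1 := congrArg SD.m (h (chi1 η i))
    exact congrFun (congrFun h1 ()) c
  exact SD.ext hm (Prod.ext hw hc)

end Pool.Agent.NFB
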